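import Mathlib

/-!
Polynomials acting on sequences by the shift; Kronecker's criterion on a finite window.
-/

set_option autoImplicit false

namespace Har

open Matrix Polynomial

section act

variable {R : Type*} [CommRing R]

/-- The shift operator on sequences. -/
def shift (R : Type*) [CommRing R] : Module.End R (ℕ → R) :=
  LinearMap.funLeft R R Nat.succ

/-- The action of a polynomial on a sequence through the shift. -/
noncomputable def act (P : R[X]) (a : ℕ → R) : ℕ → R := (aeval (shift R) P) a

theorem shift_pow_apply (i : ℕ) (a : ℕ → R) (n : ℕ) : ((shift R) ^ i) a n = a (n + i) := by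
  induction i generalizing n with
  | zero => simp
  | succ i ih =>
      rw [pow_succ', Module.End.mul_apply]
      show ((shift R ^ i) a) (n + 1) = _
      rw [ih]
      congr 1
      ring

theorem act_apply (P : R[X]) (a : ℕ → R) (n : ℕ) :
    act P a n = ∑ i ∈ Finset.range (P.natDegree + 1), P.coeff i * a (n + i) := by
  unfold act
  rw [aeval_eq_sum_range]
  simp only [LinearMap.sum_apply, LinearMap.smul_apply, Finset.sum_apply, Pi.smul_apply,
    shift_pow_apply, smul_eq_mul]

theorem act_apply_of_lt (P : R[X]) (a : ℕ → R) (n N : ℕ) (h : P.natDegree < N) :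
    act P a n = ∑ i ∈ Finset.range N, P.coeff i * a (n + i) := by
  unfold act
  rw [aeval_eq_sum_range' h]
  simp only [LinearMap.sum_apply, LinearMap.smul_apply, Finset.sum_apply, Pi.smul_apply,
    shift_pow_apply, smul_eq_mul]

theorem act_mul (P Q : R[X]) (a : ℕ → R) : act (P * Q) a = act P (act Q a) := by
  unfold act
  rw [map_mul, Module.End.mul_apply]

theorem act_comm (P Q : R[X]) (a : ℕ → R) : act P (act Q a) = act Q (act P a) := by
  rw [← act_mul, ← act_mul, mul_comm]

theorem act_add (P Q : R[X]) (a : ℕ → R) : act (P + Q) a = act P a + act Q a := by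
  unfold act
  rw [map_add, LinearMap.add_apply]

theorem act_sub (P Q : R[X]) (a : ℕ → R) : act (P - Q) a = act P a - act Q a := by
  unfold act
  rw [map_sub, LinearMap.sub_apply]

theorem act_zero_left (a : ℕ → R) : act (0 : R[X]) a = 0 := by
  unfold act
  rw [map_zero, LinearMap.zero_apply]

theorem act_one (a : ℕ → R) : act (1 : R[X]) a = a := by
  unfold act
  rw [map_one, Module.End.one_apply]

theorem act_X (a : ℕ → R) (n : ℕ) : act (X : R[X]) a n = a (n + 1) := by
  unfold act
  rw [aeval_X]
  rfl

theorem act_C (c : R) (a : ℕ → R) (n : ℕ) : act (C c : R[X]) a n = c * a n := by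
  rw [act_apply]
  simp

theorem act_X_pow (k : ℕ) (a : ℕ → R) (n : ℕ) : act ((X : R[X]) ^ k) a n = a (n + k) := by
  unfold act
  rw [map_pow, aeval_X, shift_pow_apply]

theorem act_X_pow_mul (k : ℕ) (P : R[X]) (a : ℕ → R) (n : ℕ) :
    act ((X : R[X]) ^ k * P) a n = act P a (n + k) := by
  rw [act_mul, act_X_pow]

/-- Locality. -/
theorem act_congr (P : R[X]) (a b : ℕ → R) (n : ℕ)
    (h : ∀ i, i ≤ P.natDegree → a (n + i) = b (n + i)) : act P a n = act P b n := by
  rw [act_apply, act_apply]
  apply Finset.sum_congr rfl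
  intro i hi
  rw [h i (by simpa [Nat.lt_succ_iff] using hi)]

/-- If `Q a` vanishes on a window then so does `P Q a` on a shorter one. -/
theorem act_eq_zero_of (P : R[X]) (b : ℕ → R) (n : ℕ)
    (h : ∀ i, i ≤ P.natDegree → b (n + i) = 0) : act P b n = 0 := by
  rw [act_apply]
  apply Finset.sum_eq_zero
  intro i hi
  rw [h i (by simpa [Nat.lt_succ_iff] using hi), mul_zero]

end act

/-- Hankel matrices. -/
def hank {R : Type*} (a : ℕ → R) (n d : ℕ) : Matrix (Fin d) (Fin d) R :=
  Matrix.of fun i j => a (n + i + j)

section field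

variable {K : Type*} [Field K]

/-- If the Hankel matrix of order `d` at `n` is invertible, a polynomial of degree `< d`
annihilating `d` consecutive positions vanishes. -/
theorem eq_zero_of_act (a : ℕ → K) (n d : ℕ) (hd : (hank a n d).det ≠ 0) (R : K[X])
    (hR : R.degree < d) (h : ∀ r, r < d → act R a (n + r) = 0) : R = 0 := by
  by_contra hne
  have hnat : R.natDegree < d := (natDegree_lt_iff_degree_lt hne).mpr hR
  apply hd
  rw [← Matrix.exists_mulVec_eq_zero_iff]
  refine ⟨fun i => R.coeff i, ?_, ?_⟩
  · intro h0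
    have := congrFun h0 ⟨R.natDegree, hnat⟩
    simp only [Pi.zero_apply] at this
    exact hne (leadingCoeff_eq_zero.mp this)
  · funext r
    have h1 := h r r.2
    rw [act_apply_of_lt R a (n + r) d hnat] at h1
    simp only [Matrix.mulVec, dotProduct, hank, Matrix.of_apply, Pi.zero_apply]
    rw [Finset.sum_range] at h1
    rw [← h1]
    apply Finset.sum_congr rfl
    intro i _
    ring

/-- The generating polynomial of an invertible Hankel matrix. -/
theorem exists_gen (a : ℕ → K) (n d : ℕ) (hd : (hank a n d).det ≠ 0) :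
    ∃ P : K[X], P.Monic ∧ P.natDegree = d ∧ ∀ r, r < d → act P a (n + r) = 0 := by
  have hu : IsUnit (hank a n d).det := isUnit_iff_ne_zero.mpr hd
  let c : Fin d → K := (hank a n d)⁻¹ *ᵥ (fun r => a (n + r + d))
  have hc : (hank a n d) *ᵥ c = fun r : Fin d => a (n + r + d) := by
    simp only [c, Matrix.mulVec_mulVec]
    rw [Matrix.mul_nonsing_inv _ hu, Matrix.one_mulVec]
  let Q : K[X] := ∑ i : Fin d, C (c i) * X ^ (i : ℕ)
  have hQdeg : Q.degree < d := degree_sum_fin_lt c
  have hdeg : (X ^ d - Q : K[X]).degree = d := by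
    rw [degree_sub_eq_left_of_degree_lt (by rw [degree_X_pow]; exact hQdeg), degree_X_pow]
  refine ⟨X ^ d - Q, monic_X_pow_sub hQdeg, natDegree_eq_of_degree_eq_some hdeg, ?_⟩
  · intro r hr
    rw [act_sub, Pi.sub_apply, act_X_pow]
    have h1 : act Q a (n + r) = ((hank a n d) *ᵥ c) ⟨r, hr⟩ := by
      simp only [Matrix.mulVec, dotProduct, hank, Matrix.of_apply]
      have h2 : act Q a (n + r) = ∑ i : Fin d, c i * a (n + r + i) := by
        have : act Q a = ∑ i : Fin d, act (C (c i) * X ^ (i : ℕ)) a := by
          unfold act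
          rw [map_sum, LinearMap.sum_apply]
        rw [this, Finset.sum_apply]
        apply Finset.sum_congr rfl
        intro i _
        rw [act_mul, act_C, act_X_pow]
      rw [h2]
      apply Finset.sum_congr rfl
      intro i _
      ring
    rw [h1, hc]
    simp

end field

end Har
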