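import Mathlib
import Pool.Agent.Lib_helper62.Har.Rec

/-!
Kronecker's criterion on a finite window, and the integrality (Fatou) lemma on a finite window.
-/

set_option autoImplicit false

namespace Har

open Matrix Polynomial

section field

variable {K : Type*} [Field K]

/-- Kronecker on a window, for a given generating polynomial. -/
theorem kronecker_of_gen (a : ℕ → K) (n d M : ℕ) (hd : (hank a n d).det ≠ 0)
    (hM : ∀ m, d < m → m ≤ M → (hank a n m).det = 0) (P : K[X]) (hP : P.Monic)
    (hPd : P.natDegree = d) (hP0 : ∀ r, r < d → act P a (n + r) = 0) :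
    ∀ r, r < M → act P a (n + r) = 0 := by
  intro r
  induction r using Nat.strong_induction_on with
  | _ r ih =>
    intro hr
    rcases lt_or_ge r d with hrd | hrd
    · exact hP0 r hrd
    by_contra hy
    have hdet := hM (r + 1) (by omega) (by omega)
    rw [← Matrix.exists_mulVec_eq_zero_iff] at hdet
    obtain ⟨v, hv0, hv⟩ := hdet
    let V : K[X] := ∑ i : Fin (r + 1), C (v i) * X ^ (i : ℕ)
    have hVdeg : V.degree < ((r + 1 : ℕ) : WithBot ℕ) := degree_sum_fin_lt v
    have hVcoeff : ∀ i : Fin (r + 1), V.coeff i = v i := by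
      intro i
      simp only [V, finsetSum_coeff, coeff_C_mul, coeff_X_pow]
      rw [Finset.sum_eq_single i]
      · simp
      · intro b _ hb
        rw [if_neg (by intro h; exact hb (Fin.ext h.symm)), mul_zero]
      · intro h; exact absurd (Finset.mem_univ i) h
    have hVne : V ≠ 0 := by
      intro h
      apply hv0
      funext i
      rw [← hVcoeff i, h]
      simp
    have hVnat : V.natDegree < r + 1 := (natDegree_lt_iff_degree_lt hVne).mpr hVdeg
    have hVact : ∀ r', r' < r + 1 → act V a (n + r') = 0 := by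
      intro r' hr'
      rw [act_apply_of_lt V a (n + r') (r + 1) hVnat, Finset.sum_range]
      have h1 := congrFun hv ⟨r', hr'⟩
      simp only [Matrix.mulVec, dotProduct, hank, Matrix.of_apply, Pi.zero_apply] at h1
      rw [← h1]
      apply Finset.sum_congr rfl
      intro i _
      rw [hVcoeff]
      ring
    -- division
    set Q := V /ₘ P with hQ
    set R0 := V %ₘ P with hR0
    have hdiv : R0 + P * Q = V := modByMonic_add_div V P
    have hR0deg : R0.degree < (d : WithBot ℕ) := by
      have := degree_modByMonic_lt V hP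
      rwa [degree_eq_natDegree hP.ne_zero, hPd] at this
    have hQnat : Q.natDegree + d ≤ r := by
      have := natDegree_divByMonic V hP
      rw [← hQ, hPd] at this
      omega
    have hPQ : ∀ r', act (P * Q) a (n + r')
        = ∑ u ∈ Finset.range (Q.natDegree + 1), Q.coeff u * act P a (n + (r' + u)) := by
      intro r'
      rw [mul_comm, act_mul, act_apply]
      apply Finset.sum_congr rfl
      intro u _
      rw [add_assoc]
    have hR0zero : R0 = 0 := by
      apply eq_zero_of_act a n d hd R0 hR0deg
      intro r' hr'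
      have h1 : act R0 a (n + r') = act V a (n + r') - act (P * Q) a (n + r') := by
        rw [← hdiv, act_add, Pi.add_apply]
        ring
      rw [h1, hVact r' (by omega), hPQ, Finset.sum_eq_zero, sub_zero]
      intro u hu
      have hu' : u ≤ Q.natDegree := by simpa [Nat.lt_succ_iff] using hu
      rw [ih (r' + u) (by omega) (by omega), mul_zero]
    have hVPQ : V = P * Q := by rw [← hdiv, hR0zero, zero_add]
    have hQne : Q ≠ 0 := by
      intro h
      rw [h, mul_zero] at hVPQ
      exact hVne hVPQ
    have h2 := hVact (r - Q.natDegree) (by omega)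
    rw [hVPQ, hPQ, Finset.sum_range_succ, Finset.sum_eq_zero, zero_add] at h2
    · have h3 : r - Q.natDegree + Q.natDegree = r := by omega
      rw [h3] at h2
      rcases mul_eq_zero.mp h2 with h4 | h4
      · exact hQne (leadingCoeff_eq_zero.mp h4)
      · exact hy h4
    · intro u hu
      have hu' : u < Q.natDegree := by simpa using hu
      rw [ih (r - Q.natDegree + u) (by omega) (by omega), mul_zero]

/-- Kronecker on a window: if `D_d(n) ≠ 0` and `D_m(n) = 0` for `d < m ≤ M`, the sequence
satisfies a monic recurrence of order `d` at `n, n+1, …, n+M-1`. -/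
theorem kronecker (a : ℕ → K) (n d M : ℕ) (hd : (hank a n d).det ≠ 0)
    (hM : ∀ m, d < m → m ≤ M → (hank a n m).det = 0) :
    ∃ P : K[X], P.Monic ∧ P.natDegree = d ∧ (∀ r, r < d → act P a (n + r) = 0) ∧
      ∀ r, r < M → act P a (n + r) = 0 := by
  obtain ⟨P, hP, hPd, hP0⟩ := exists_gen a n d hd
  exact ⟨P, hP, hPd, hP0, kronecker_of_gen a n d M hd hM P hP hPd hP0⟩

/-- If `P` is monic of degree `d`, annihilates the window, and `V` annihilates the first `d`
positions, then `P ∣ V`. -/
theorem dvd_of_act (a : ℕ → K) (n d M : ℕ) (hd : (hank a n d).det ≠ 0) (P : K[X])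
    (hP : P.Monic) (hPd : P.natDegree = d) (hPa : ∀ r, r < M → act P a (n + r) = 0)
    (V : K[X]) (hV : V.natDegree ≤ M) (hVa : ∀ r, r < d → act V a (n + r) = 0) :
    P ∣ V := by
  set Q := V /ₘ P with hQ
  set R0 := V %ₘ P with hR0
  have hdiv : R0 + P * Q = V := modByMonic_add_div V P
  have hR0deg : R0.degree < (d : WithBot ℕ) := by
    have := degree_modByMonic_lt V hP
    rwa [degree_eq_natDegree hP.ne_zero, hPd] at this
  have hQn : Q.natDegree = V.natDegree - d := by
    have := natDegree_divByMonic V hP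
    rwa [← hQ, hPd] at this
  have hR0zero : R0 = 0 := by
    apply eq_zero_of_act a n d hd R0 hR0deg
    intro r' hr'
    have h1 : act R0 a (n + r') = act V a (n + r') - act (P * Q) a (n + r') := by
      rw [← hdiv, act_add, Pi.add_apply]
      ring
    rw [h1, hVa r' hr', zero_sub, neg_eq_zero, mul_comm, act_mul]
    rcases Nat.lt_or_ge V.natDegree d with h2 | h2
    · have hQ0 : Q = 0 := by
        rw [hQ, divByMonic_eq_zero_iff hP]
        apply degree_lt_degree
        rw [hPd]; exact h2
      rw [hQ0, act_zero_left]; rfl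
    · apply act_eq_zero_of
      intro u hu
      rw [add_assoc]
      exact hPa (r' + u) (by omega)
  rw [← hdiv, hR0zero, zero_add]
  exact dvd_mul_right P Q

end field

section index

open AddSubgroup

/-- A strictly increasing chain of subgroups starting at a subgroup of finite index. -/
theorem chain_index {G : Type*} [AddCommGroup G] (L : ℕ → AddSubgroup G) (hmono : Monotone L)
    (p q : ℕ) (hpq : p ≤ q) (hfin : (L p).index ≠ 0) (hne : ∀ i, p ≤ i → i < q → L i ≠ L (i + 1)) :
    2 ^ (q - p) ≤ (L p).index := by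
  obtain ⟨t, rfl⟩ := Nat.exists_eq_add_of_le hpq
  rw [Nat.add_sub_cancel_left]
  have key : ∀ t, (∀ i, p ≤ i → i < p + t → L i ≠ L (i + 1)) →
      2 ^ t * (L (p + t)).index ≤ (L p).index ∧ (L (p + t)).index ≠ 0 := by
    intro t
    induction t with
    | zero => intro _; simpa using hfin
    | succ t ih =>
      intro hne'
      obtain ⟨h1, h2⟩ := ih (fun i hi1 hi2 => hne' i hi1 (by omega))
      have hle : L (p + t) ≤ L (p + (t + 1)) := hmono (by omega)
      have h3 := AddSubgroup.relIndex_mul_index hle
      have h4 : (L (p + t)).relIndex (L (p + (t + 1))) ≠ 0 := by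
        intro h; rw [h, zero_mul] at h3; exact h2 h3.symm
      have h5 : (L (p + (t + 1))).index ≠ 0 := by
        intro h; rw [h, mul_zero] at h3; exact h2 h3.symm
      have h6 : (L (p + t)).relIndex (L (p + (t + 1))) ≠ 1 := by
        intro h
        rw [AddSubgroup.relIndex_eq_one] at h
        exact hne' (p + t) (by omega) (by omega) (le_antisymm hle h)
      refine ⟨?_, h5⟩
      have h7 : 2 ≤ (L (p + t)).relIndex (L (p + (t + 1))) := by omega
      calc 2 ^ (t + 1) * (L (p + (t + 1))).index
          = 2 ^ t * (2 * (L (p + (t + 1))).index) := by ring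
        _ ≤ 2 ^ t * ((L (p + t)).relIndex (L (p + (t + 1))) * (L (p + (t + 1))).index) := by
            gcongr
        _ = 2 ^ t * (L (p + t)).index := by rw [h3]
        _ ≤ _ := h1
  obtain ⟨h1, h2⟩ := key t hne
  calc 2 ^ t = 2 ^ t * 1 := by ring
    _ ≤ 2 ^ t * (L (p + t)).index := by gcongr; omega
    _ ≤ _ := h1

/-- The index of the row lattice of an integer matrix. -/
theorem index_rows (d : ℕ) (A : Matrix (Fin d) (Fin d) ℤ) (hA : A.det ≠ 0) :
    (Submodule.span ℤ (Set.range A.row)).toAddSubgroup.index = A.det.natAbs := by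
  have hli : LinearIndependent ℤ A.row := Matrix.linearIndependent_rows_of_det_ne_zero hA
  have h := Submodule.natAbs_det_basis_change (Pi.basisFun ℤ (Fin d))
    (Submodule.span ℤ (Set.range A.row)) (Module.Basis.span hli)
  have h2 : (Submodule.span ℤ (Set.range A.row)).toAddSubgroup.index
      = Nat.card ((Fin d → ℤ) ⧸ (Submodule.span ℤ (Set.range A.row))) := rfl
  rw [h2, ← h]
  congr 1
  rw [Module.Basis.det_apply, ← Matrix.det_transpose]
  congr 1
  ext i j
  simp only [Matrix.transpose_apply, Module.Basis.toMatrix_apply, Pi.basisFun_repr,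
    Function.comp_apply, Module.Basis.span_apply]
  rfl

/-- Integrality (Fatou's lemma on a finite window). -/
theorem integral_of_window (a : ℕ → ℤ) (n d M : ℕ) (hd : (hank a n d).det ≠ 0)
    (P : ℚ[X]) (hP : P.Monic) (hPd : P.natDegree = d)
    (hPa : ∀ r, r < M → act P (fun k => (a k : ℚ)) (n + r) = 0) (hdM : d ≤ M)
    (hbig : (hank a n d).det.natAbs < 2 ^ (M + 1 - d)) :
    ∃ P' : ℤ[X], P'.Monic ∧ P'.map (Int.castRingHom ℚ) = P := by
  rcases Nat.eq_zero_or_pos d with h0 | hd1
  · refine ⟨1, monic_one, ?_⟩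
    rw [Polynomial.map_one]
    exact (hP.natDegree_eq_zero.mp (by omega)).symm
  let ρ : ℕ → (Fin d → ℤ) := fun i r => a (n + i + r)
  let L : ℕ → AddSubgroup (Fin d → ℤ) := fun i => (Submodule.span ℤ (ρ '' Set.Iic i)).toAddSubgroup
  have hmono : Monotone L := by
    intro i j hij
    exact Submodule.toAddSubgroup_mono
      (Submodule.span_mono (Set.image_mono (Set.Iic_subset_Iic.mpr hij)))
  have hrange : ρ '' Set.Iic (d - 1) = Set.range (hank a n d).row := by
    ext x
    constructor
    · rintro ⟨i, hi, rfl⟩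
      refine ⟨⟨i, by simp at hi; omega⟩, ?_⟩
      rfl
    · rintro ⟨i, rfl⟩
      refine ⟨i, by simp; omega, ?_⟩
      rfl
  have hidx : (L (d - 1)).index = (hank a n d).det.natAbs := by
    show (Submodule.span ℤ (ρ '' Set.Iic (d - 1))).toAddSubgroup.index = _
    rw [hrange]
    exact index_rows d (hank a n d) hd
  -- the chain stabilises
  have hex : ∃ i, d - 1 ≤ i ∧ i < M ∧ L i = L (i + 1) := by
    by_contra hcon
    push Not at hcon
    have := chain_index L hmono (d - 1) M (by omega)
      (by rw [hidx]; simpa using hd) hcon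
    rw [hidx] at this
    have h2 : M - (d - 1) = M + 1 - d := by omega
    rw [h2] at this
    omega
  obtain ⟨i, hi1, hi2, hi3⟩ := hex
  have hmem : ρ (i + 1) ∈ Submodule.span ℤ (ρ '' Set.Iic i) := by
    have h1 : ρ (i + 1) ∈ L (i + 1) :=
      Submodule.subset_span ⟨i + 1, by simp, rfl⟩
    rw [← hi3] at h1
    exact h1
  obtain ⟨v, hv⟩ : ∃ v : ℕ → ℤ, ρ (i + 1) = ∑ j ∈ Finset.range (i + 1), v j • ρ j := by
    rw [Finsupp.mem_span_image_iff_linearCombination] at hmem
    obtain ⟨l, hl, hl2⟩ := hmem
    refine ⟨l, ?_⟩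
    rw [← hl2, Finsupp.linearCombination_apply, Finsupp.sum]
    apply Finset.sum_subset
    · intro j hj
      have := hl hj
      simp at this ⊢
      omega
    · intro j _ hj
      simp only [Finsupp.mem_support_iff, not_not] at hj
      rw [hj, zero_smul]
  let W : ℤ[X] := ∑ j ∈ Finset.range (i + 1), C (v j) * X ^ j
  have hWdeg : W.degree < ((i + 1 : ℕ) : WithBot ℕ) := by
    have h := degree_sum_fin_lt (fun j : Fin (i + 1) => v j)
    rw [← Finset.sum_range (fun j => C (v j) * (X : ℤ[X]) ^ j)] at h
    exact h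
  let V : ℤ[X] := X ^ (i + 1) - W
  have hVm : V.Monic := monic_X_pow_sub hWdeg
  have hVdeg : V.degree = ((i + 1 : ℕ) : WithBot ℕ) := by
    show (X ^ (i + 1) - W : ℤ[X]).degree = _
    rw [degree_sub_eq_left_of_degree_lt (by rw [degree_X_pow]; exact hWdeg), degree_X_pow]
  have hVn : V.natDegree = i + 1 := natDegree_eq_of_degree_eq_some hVdeg
  let Vq : ℚ[X] := V.map (Int.castRingHom ℚ)
  have hVqn : Vq.natDegree = i + 1 := by
    rw [← hVn]; exact hVm.natDegree_map (Int.castRingHom ℚ)
  have hact : ∀ r, r < d → act Vq (fun k => (a k : ℚ)) (n + r) = 0 := by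
    intro r hr
    have h1 : ρ (i + 1) ⟨r, hr⟩ = (∑ j ∈ Finset.range (i + 1), v j • ρ j) ⟨r, hr⟩ := by rw [← hv]
    rw [Finset.sum_apply] at h1
    simp only [Pi.smul_apply, smul_eq_mul, ρ] at h1
    have h2 : Vq = X ^ (i + 1) - ∑ j ∈ Finset.range (i + 1), C (v j : ℚ) * X ^ j := by
      simp [Vq, V, W, Polynomial.map_sum]
    rw [h2, act_sub, Pi.sub_apply, act_X_pow]
    have h3 : act (∑ j ∈ Finset.range (i + 1), C (v j : ℚ) * X ^ j) (fun k => (a k : ℚ)) (n + r)
        = ∑ j ∈ Finset.range (i + 1), (v j : ℚ) * (a (n + r + j) : ℚ) := by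
      have : act (∑ j ∈ Finset.range (i + 1), C (v j : ℚ) * X ^ j) (fun k => (a k : ℚ))
          = ∑ j ∈ Finset.range (i + 1), act (C (v j : ℚ) * X ^ j) (fun k => (a k : ℚ)) := by
        unfold act
        rw [map_sum, LinearMap.sum_apply]
      rw [this, Finset.sum_apply]
      apply Finset.sum_congr rfl
      intro j _
      rw [act_mul, act_C, act_X_pow]
    rw [h3]
    have h4 : (a (n + (i + 1) + r) : ℚ) = ∑ j ∈ Finset.range (i + 1), (v j : ℚ) * a (n + j + r) := by
      exact_mod_cast h1
    have h5 : n + r + (i + 1) = n + (i + 1) + r := by ring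
    rw [h5, h4, sub_eq_zero]
    apply Finset.sum_congr rfl
    intro j _
    have h6 : n + j + r = n + r + j := by ring
    rw [h6]
  have hdq : (hank (fun k => (a k : ℚ)) n d).det ≠ 0 := by
    have h1 : hank (fun k => (a k : ℚ)) n d = (hank a n d).map (Int.castRingHom ℚ) := by
      ext i j; rfl
    have h2 := RingHom.map_det (Int.castRingHom ℚ) (hank a n d)
    rw [h1]
    rw [show (hank a n d).map (Int.castRingHom ℚ)
      = (Int.castRingHom ℚ).mapMatrix (hank a n d) from rfl, ← h2]
    simpa using hd
  have hdvd : P ∣ Vq := dvd_of_act (fun k => (a k : ℚ)) n d M hdq P hP hPd hPa Vq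
    (by rw [hVqn]; omega) hact
  obtain ⟨P', hP'⟩ := IsIntegrallyClosed.eq_map_mul_C_of_dvd ℚ hVm hdvd
  rw [hP.leadingCoeff, map_one, mul_one] at hP'
  refine ⟨P', ?_, hP'⟩
  have hinj : Function.Injective (Int.castRingHom ℚ) := Int.cast_injective
  have : (P'.map (Int.castRingHom ℚ)).Monic := by
    have h := hP'
    rw [show algebraMap ℤ ℚ = Int.castRingHom ℚ from rfl] at h
    rw [h]; exact hP
  exact monic_of_injective hinj this

end index

end Har
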