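import Mathlib

/-!
Hadamard's inequality for real matrices, in square form and in Gram form.
-/

set_option autoImplicit false

namespace Har

open Matrix
open scoped MatrixOrder ComplexOrder

/-- Hadamard: the square of a real determinant is at most the product of the squared norms of
its columns. -/
theorem det_sq_le (n : ℕ) (A : Matrix (Fin n) (Fin n) ℝ) :
    A.det ^ 2 ≤ ∏ j, ∑ i, A i j ^ 2 := by
  have : Fact (Module.finrank ℝ (EuclideanSpace ℝ (Fin n)) = n) := ⟨by simp⟩
  let b := EuclideanSpace.basisFun (Fin n) ℝ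
  let o : Orientation ℝ (EuclideanSpace ℝ (Fin n)) (Fin n) := b.toBasis.orientation
  let v : Fin n → EuclideanSpace ℝ (Fin n) := fun j => WithLp.toLp 2 (fun i => A i j)
  have h1 := o.abs_volumeForm_apply_le v
  rw [o.volumeForm_robust' b] at h1
  have h2 : b.toBasis.det v = A.det := by
    rw [Module.Basis.det_apply]
    congr 1
  rw [h2] at h1
  have h3 : A.det ^ 2 = |A.det| ^ 2 := (sq_abs _).symm
  rw [h3]
  calc |A.det| ^ 2 ≤ (∏ j, ‖v j‖) ^ 2 := by gcongr
    _ = ∏ j, ‖v j‖ ^ 2 := by rw [Finset.prod_pow]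
    _ = ∏ j, ∑ i, A i j ^ 2 := by
        apply Finset.prod_congr rfl
        intro j _
        rw [EuclideanSpace.norm_sq_eq]
        simp [v]

/-- Hadamard for Gram matrices. -/
theorem gram_det_le {m : Type*} [Fintype m] (n : ℕ) (X : Matrix m (Fin n) ℝ) :
    (Xᵀ * X).det ≤ ∏ j, ∑ i, X i j ^ 2 := by
  have hpsd : (Xᵀ * X).PosSemidef := by
    have := Matrix.posSemidef_conjTranspose_mul_self X
    simpa using this
  obtain ⟨B, hB⟩ := CStarAlgebra.nonneg_iff_eq_star_mul_self.mp hpsd.nonneg
  have hB' : Xᵀ * X = Bᵀ * B := by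
    rw [hB, Matrix.star_eq_conjTranspose]
    simp
  rw [hB', Matrix.det_mul, Matrix.det_transpose, ← sq]
  refine (det_sq_le n B).trans (le_of_eq ?_)
  apply Finset.prod_congr rfl
  intro j _
  have h1 : (Bᵀ * B) j j = (Xᵀ * X) j j := by rw [hB']
  simp only [Matrix.mul_apply, Matrix.transpose_apply] at h1
  simpa [sq] using h1

end Har
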