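import Mathlib
import Pool.Agent.Lib_helper62.Har.Hadamard

/-!
A short linear relation from the growth of Gram determinants.
-/

set_option autoImplicit false

namespace Har

open Matrix

/-- The matrix with rows `r 0, …, r (k-1)`. -/
def rowsM {d : ℕ} (r : ℕ → Fin d → ℝ) (k : ℕ) : Matrix (Fin k) (Fin d) ℝ :=
  Matrix.of fun i j => r i j

/-- The Gram matrix of `r 0, …, r (k-1)` (in the space of columns). -/
def gramM {d : ℕ} (r : ℕ → Fin d → ℝ) (k : ℕ) : Matrix (Fin d) (Fin d) ℝ :=
  (rowsM r k)ᵀ * rowsM r k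

theorem gramM_apply {d : ℕ} (r : ℕ → Fin d → ℝ) (k : ℕ) (i j : Fin d) :
    gramM r k i j = ∑ l ∈ Finset.range k, r l i * r l j := by
  rw [Finset.sum_range]
  simp [gramM, rowsM, Matrix.mul_apply]

theorem gramM_succ {d : ℕ} (r : ℕ → Fin d → ℝ) (k : ℕ) :
    gramM r (k + 1) = gramM r k + replicateCol Unit (r k) * replicateRow Unit (r k) := by
  ext i j
  rw [Matrix.add_apply, gramM_apply, gramM_apply, Finset.sum_range_succ]
  simp [Matrix.mul_apply]

/-- One step: either the Gram determinant grows by the factor `1 + κ`, or the new vector is a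
short combination of the previous ones. -/
theorem step_dichotomy {d : ℕ} (r : ℕ → Fin d → ℝ) (k : ℕ) (κ : ℝ)
    (h0 : 0 < (gramM r k).det) :
    (1 + κ) * (gramM r k).det < (gramM r (k + 1)).det ∨
    ∃ t : ℕ → ℝ, (∀ j, r k j = ∑ i ∈ Finset.range k, t i * r i j) ∧
      ∑ i ∈ Finset.range k, t i ^ 2 ≤ κ := by
  have hu : IsUnit (gramM r k).det := isUnit_iff_ne_zero.mpr h0.ne'
  set v : Fin d → ℝ := (gramM r k)⁻¹ *ᵥ (r k) with hv
  have hGv : gramM r k *ᵥ v = r k := by
    rw [hv, Matrix.mulVec_mulVec, Matrix.mul_nonsing_inv _ hu, Matrix.one_mulVec]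
  let t : ℕ → ℝ := fun i => ∑ j, r i j * v j
  have ht : ∀ i : Fin k, t i = (rowsM r k *ᵥ v) i := by
    intro i
    simp [t, rowsM, Matrix.mulVec, dotProduct]
  have hrel : ∀ j, r k j = ∑ i ∈ Finset.range k, t i * r i j := by
    intro j
    rw [← congrFun hGv j]
    have h1 : gramM r k *ᵥ v = (rowsM r k)ᵀ *ᵥ (rowsM r k *ᵥ v) :=
      (Matrix.mulVec_mulVec v (rowsM r k)ᵀ (rowsM r k)).symm
    rw [h1, Finset.sum_range]
    simp only [Matrix.mulVec, dotProduct, Matrix.transpose_apply]
    apply Finset.sum_congr rfl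
    intro i _
    have := ht i
    simp only [Matrix.mulVec, dotProduct] at this
    rw [this, mul_comm]
    rfl
  have hnorm : ∑ i ∈ Finset.range k, t i ^ 2 = ∑ j, r k j * v j := by
    calc ∑ i ∈ Finset.range k, t i ^ 2
        = ∑ i ∈ Finset.range k, ∑ j, t i * r i j * v j := by
          apply Finset.sum_congr rfl
          intro i _
          rw [sq]
          conv_lhs => rw [show t i * t i = t i * ∑ j, r i j * v j from rfl]
          rw [Finset.mul_sum]
          apply Finset.sum_congr rfl
          intro j _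
          ring
      _ = ∑ j, (∑ i ∈ Finset.range k, t i * r i j) * v j := by
          rw [Finset.sum_comm]
          apply Finset.sum_congr rfl
          intro j _
          rw [Finset.sum_mul]
      _ = ∑ j, r k j * v j := by
          apply Finset.sum_congr rfl
          intro j _
          rw [hrel j]
  have hdet : (gramM r (k + 1)).det = (gramM r k).det * (1 + ∑ j, r k j * v j) := by
    rw [gramM_succ, Matrix.det_add_replicateCol_mul_replicateRow hu]
    congr 1
    rw [Matrix.det_unique]
    simp only [Matrix.add_apply, Matrix.one_apply_eq]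
    congr 1
    rw [Matrix.mul_assoc]
    simp only [Matrix.mul_apply, Matrix.replicateRow_apply, Matrix.replicateCol_apply]
    apply Finset.sum_congr rfl
    intro j _
    rw [hv]
    simp [Matrix.mulVec, dotProduct]
  by_cases hκ : ∑ i ∈ Finset.range k, t i ^ 2 ≤ κ
  · exact Or.inr ⟨t, hrel, hκ⟩
  · left
    push Not at hκ
    rw [hdet, ← hnorm, mul_comm]
    apply mul_lt_mul_of_pos_left _ h0
    linarith

/-- A short relation exists if the Gram determinants do not grow too fast. -/
theorem exists_short_relation {d : ℕ} (r : ℕ → Fin d → ℝ) (k₀ k₁ : ℕ) (hk : k₀ ≤ k₁)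
    (κ : ℝ) (hκ : 0 ≤ κ) (h0 : 0 < (gramM r k₀).det)
    (h1 : (gramM r k₁).det < (1 + κ) ^ (k₁ - k₀) * (gramM r k₀).det) :
    ∃ k, k₀ ≤ k ∧ k < k₁ ∧ ∃ t : ℕ → ℝ, (∀ j, r k j = ∑ i ∈ Finset.range k, t i * r i j) ∧
      ∑ i ∈ Finset.range k, t i ^ 2 ≤ κ := by
  by_contra hcon
  push Not at hcon
  obtain ⟨s, rfl⟩ := Nat.exists_eq_add_of_le hk
  rw [Nat.add_sub_cancel_left] at h1
  have key : ∀ s', s' ≤ s → (1 + κ) ^ s' * (gramM r k₀).det ≤ (gramM r (k₀ + s')).det := by
    intro s'
    induction s' with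
    | zero => intro _; simp
    | succ s' ih =>
      intro hs
      have h2 := ih (by omega)
      have h3 : 0 < (gramM r (k₀ + s')).det := by
        refine lt_of_lt_of_le ?_ h2
        positivity
      rcases step_dichotomy r (k₀ + s') κ h3 with h4 | ⟨t, ht1, ht2⟩
      · calc (1 + κ) ^ (s' + 1) * (gramM r k₀).det
            = (1 + κ) * ((1 + κ) ^ s' * (gramM r k₀).det) := by ring
          _ ≤ (1 + κ) * (gramM r (k₀ + s')).det := by gcongr
          _ ≤ _ := h4.le
      · exact absurd ht2 (not_le.mpr (hcon (k₀ + s') (by omega) (by omega) t ht1))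
  exact absurd (key s le_rfl) (not_le.mpr h1)

end Har
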