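import Mathlib
import Pool.Agent.Lib_helper62.Har.Hadamard
import Pool.Agent.Lib_helper62.Har.Rec
import Pool.Agent.Lib_helper62.Har.Gram

/-!
Column and row operations `x ↦ x - α x` on Hankel matrices, and the resulting bounds.
-/

set_option autoImplicit false

namespace Har

open Matrix

/-- The unipotent matrix of the operation `col_j ↦ col_j - α col_{j-1}`. -/
def opT (d : ℕ) (α : ℝ) : Matrix (Fin d) (Fin d) ℝ :=
  Matrix.of fun i j => (if i = j then 1 else 0) - α * (if (i : ℕ) + 1 = j then 1 else 0)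

theorem opT_det (d : ℕ) (α : ℝ) : (opT d α).det = 1 := by
  have h : (opT d α).BlockTriangular id := by
    intro i j hij
    simp only [id_eq] at hij
    have h1 : ¬ i = j := fun h => by rw [h] at hij; exact lt_irrefl _ hij
    have h2 : ¬ ((i : ℕ) + 1 = j) := by
      have : (j : ℕ) < i := hij
      omega
    simp [opT, h1, h2]
  rw [Matrix.det_of_upperTriangular h]
  apply Finset.prod_eq_one
  intro i _
  simp [opT]

theorem mul_opT_zero {m : Type*} [Fintype m] {d : ℕ} (X : Matrix m (Fin d) ℝ) (α : ℝ) (i : m)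
    (j : Fin d) (hj : (j : ℕ) = 0) : (X * opT d α) i j = X i j := by
  rw [Matrix.mul_apply]
  have : ∀ l : Fin d, X i l * opT d α l j = if l = j then X i l else 0 := by
    intro l
    have h2 : ¬ ((l : ℕ) + 1 = j) := by omega
    simp only [opT, Matrix.of_apply, h2, if_false, mul_zero, sub_zero]
    split_ifs <;> simp
  simp_rw [this]
  simp

theorem mul_opT_succ {m : Type*} [Fintype m] {d : ℕ} (X : Matrix m (Fin d) ℝ) (α : ℝ) (i : m)
    (j : ℕ) (hj : j + 1 < d) :
    (X * opT d α) i ⟨j + 1, hj⟩ = X i ⟨j + 1, hj⟩ - α * X i ⟨j, by omega⟩ := by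
  rw [Matrix.mul_apply]
  have : ∀ l : Fin d, X i l * opT d α l ⟨j + 1, hj⟩
      = (if l = ⟨j + 1, hj⟩ then X i l else 0) - (if l = ⟨j, by omega⟩ then α * X i l else 0) := by
    intro l
    have h2 : ((l : ℕ) + 1 = j + 1) ↔ l = ⟨j, by omega⟩ := by
      rw [Fin.ext_iff]; simp
    simp only [opT, Matrix.of_apply, h2, mul_sub]
    congr 1
    · split_ifs <;> simp
    · split_ifs <;> ring
  simp_rw [this]
  rw [Finset.sum_sub_distrib]
  simp

/-- Gram determinants are unchanged by the column operations. -/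
theorem gram_mul_opT {m : Type*} [Fintype m] {d : ℕ} (X : Matrix m (Fin d) ℝ) (α : ℝ) :
    ((X * opT d α)ᵀ * (X * opT d α)).det = (Xᵀ * X).det := by
  rw [Matrix.transpose_mul]
  have : (opT d α)ᵀ * Xᵀ * (X * opT d α) = (opT d α)ᵀ * (Xᵀ * X) * opT d α := by
    simp only [Matrix.mul_assoc]
  rw [this, Matrix.det_mul, Matrix.det_mul, Matrix.det_transpose, opT_det]
  ring

/-- Square version. -/
theorem det_mul_opT {d : ℕ} (X : Matrix (Fin d) (Fin d) ℝ) (α : ℝ) :
    (X * opT d α).det = X.det := by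
  rw [Matrix.det_mul, opT_det, mul_one]

theorem det_opT_mul {d : ℕ} (X : Matrix (Fin d) (Fin d) ℝ) (α : ℝ) :
    ((opT d α)ᵀ * X).det = X.det := by
  rw [Matrix.det_mul, Matrix.det_transpose, opT_det, one_mul]

theorem opT_mul_zero {m : Type*} [Fintype m] {d : ℕ} (X : Matrix (Fin d) m ℝ) (α : ℝ) (j : m)
    (i : Fin d) (hi : (i : ℕ) = 0) : ((opT d α)ᵀ * X) i j = X i j := by
  have h := mul_opT_zero Xᵀ α j i hi
  rw [← Matrix.transpose_apply ((opT d α)ᵀ * X), Matrix.transpose_mul, Matrix.transpose_transpose]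
  exact h

theorem opT_mul_succ {m : Type*} [Fintype m] {d : ℕ} (X : Matrix (Fin d) m ℝ) (α : ℝ) (j : m)
    (i : ℕ) (hi : i + 1 < d) :
    ((opT d α)ᵀ * X) ⟨i + 1, hi⟩ j = X ⟨i + 1, hi⟩ j - α * X ⟨i, by omega⟩ j := by
  have h := mul_opT_succ Xᵀ α j i hi
  rw [← Matrix.transpose_apply ((opT d α)ᵀ * X), Matrix.transpose_mul, Matrix.transpose_transpose]
  exact h

/-- The sequence `b = (E - α) a`. -/
def dif (α : ℝ) (a : ℕ → ℝ) : ℕ → ℝ := fun k => a (k + 1) - α * a k

/-- Entries of the doubly reduced Hankel matrix. -/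
theorem hank_red (a : ℕ → ℝ) (α : ℝ) (n d : ℕ) (i j : Fin d) :
    ((opT d α)ᵀ * (hank a n d * opT d α)) i j =
      if (j : ℕ) = 0 then (if (i : ℕ) = 0 then a n else dif α a (n + i - 1))
      else (if (i : ℕ) = 0 then dif α a (n + j - 1) else dif α (dif α a) (n + i + j - 2)) := by
  obtain ⟨i, hi⟩ := i
  obtain ⟨j, hj⟩ := j
  rcases i with _ | i
  · rw [opT_mul_zero _ _ _ _ rfl]
    rcases j with _ | j
    · rw [mul_opT_zero _ _ _ _ rfl]
      simp [hank]
    · rw [mul_opT_succ]
      simp only [hank, Matrix.of_apply, dif]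
      simp only [Nat.add_eq_zero_iff, one_ne_zero, and_false, if_false, if_true, add_zero]
      have h1 : n + (j + 1) - 1 = n + j := by omega
      rw [h1]
      have h2 : n + (j + 1) = n + j + 1 := by ring
      rw [h2]
  · rw [opT_mul_succ]
    rcases j with _ | j
    · rw [mul_opT_zero _ _ _ _ rfl, mul_opT_zero _ _ _ _ rfl]
      simp only [hank, Matrix.of_apply, dif]
      simp only [Nat.add_eq_zero_iff, one_ne_zero, and_false, if_false, if_true, add_zero]
      have h1 : n + (i + 1) - 1 = n + i := by omega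
      rw [h1]
      have h2 : n + (i + 1) = n + i + 1 := by ring
      rw [h2]
    · rw [mul_opT_succ, mul_opT_succ]
      simp only [hank, Matrix.of_apply, dif]
      simp only [Nat.add_eq_zero_iff, one_ne_zero, and_false, if_false]
      have h1 : n + (i + 1) + (j + 1) - 2 = n + i + j := by omega
      rw [h1]
      have h2 : n + (i + 1) + (j + 1) = n + i + j + 1 + 1 := by ring
      have h3 : n + (i + 1) + j = n + i + j + 1 := by ring
      have h4 : n + i + (j + 1) = n + i + j + 1 := by ring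
      rw [h2, h3, h4]

/-- Hadamard bound for Hankel determinants, column version. -/
theorem hank_det_sq_le (a : ℕ → ℝ) (α : ℝ) (n d : ℕ) (F : ℕ → ℝ)
    (h0 : a n ^ 2 + ∑ i ∈ Finset.range (d - 1), dif α a (n + i) ^ 2 ≤ F 0)
    (hF : ∀ j, j + 1 < d → dif α a (n + j) ^ 2
      + ∑ i ∈ Finset.range (d - 1), dif α (dif α a) (n + j + i) ^ 2 ≤ F (j + 1)) :
    (hank a n d).det ^ 2 ≤ ∏ j ∈ Finset.range d, F j := by
  have h1 : (hank a n d).det = ((opT d α)ᵀ * (hank a n d * opT d α)).det := by
    rw [det_opT_mul, det_mul_opT]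
  rw [h1]
  refine (det_sq_le d _).trans ?_
  rw [Finset.prod_range]
  apply Finset.prod_le_prod
  · intro j _
    positivity
  intro j _
  rcases d with _ | d
  · exact Fin.elim0 j
  have h2 : ∑ i : Fin (d + 1), ((opT (d + 1) α)ᵀ * (hank a n (d + 1) * opT (d + 1) α)) i j ^ 2
      = ∑ i ∈ Finset.range (d + 1), (if (j : ℕ) = 0 then (if (i : ℕ) = 0 then a n
          else dif α a (n + i - 1))
        else (if (i : ℕ) = 0 then dif α a (n + j - 1)
          else dif α (dif α a) (n + i + j - 2))) ^ 2 := by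
    rw [Finset.sum_range]
    apply Finset.sum_congr rfl
    intro i _
    rw [hank_red]
  rw [h2, Finset.sum_range_succ']
  obtain ⟨j, hj⟩ := j
  rcases j with _ | j
  · simp only [if_true, Nat.add_eq_zero_iff, one_ne_zero, and_false, if_false]
    rw [add_comm]
    refine le_trans (le_of_eq ?_) h0
    congr 1
  · simp only [if_true, Nat.add_eq_zero_iff, one_ne_zero, and_false, if_false]
    rw [add_comm]
    refine le_trans (le_of_eq ?_) (hF j hj)
    have h3 : n + (j + 1) - 1 = n + j := by omega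
    rw [h3]
    congr 1
    apply Finset.sum_congr rfl
    intro i _
    have h4 : n + (i + 1) + (j + 1) - 2 = n + j + i := by omega
    rw [h4]

/-- The vectors `w ρ_0, s_0, s_1, …` in `ℝ^d`. -/
def vecs (a : ℕ → ℝ) (α w : ℝ) (n d : ℕ) : ℕ → Fin d → ℝ
  | 0 => fun j => w * a (n + j)
  | (i + 1) => fun j => dif α a (n + i + j)

/-- Gram determinant of the first `d` vectors. -/
theorem gram_vecs_d (a : ℕ → ℝ) (α w : ℝ) (n d : ℕ) (hd : 0 < d) :
    (gramM (vecs a α w n d) d).det = w ^ 2 * (hank a n d).det ^ 2 := by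
  have h1 : rowsM (vecs a α w n d) d
      = Matrix.diagonal (fun i : Fin d => if (i : ℕ) = 0 then w else 1)
        * ((opT d α)ᵀ * hank a n d) := by
    ext i j
    rw [Matrix.diagonal_mul]
    obtain ⟨i, hi⟩ := i
    rcases i with _ | i
    · rw [opT_mul_zero _ _ _ _ rfl]
      simp [rowsM, vecs, hank]
    · rw [opT_mul_succ]
      simp only [rowsM, vecs, hank, Matrix.of_apply, dif]
      simp only [Nat.add_eq_zero_iff, one_ne_zero, and_false, if_false, one_mul]
      have h2 : n + (i + 1) + (j : ℕ) = n + i + j + 1 := by ring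
      rw [h2]
  unfold gramM
  rw [Matrix.det_mul, Matrix.det_transpose, h1, Matrix.det_mul, det_opT_mul, Matrix.det_diagonal]
  have h3 : ∏ i : Fin d, (if (i : ℕ) = 0 then w else 1) = w := by
    rw [Finset.prod_eq_single ⟨0, hd⟩]
    · simp
    · intro b _ hb
      rw [if_neg]
      intro h
      exact hb (Fin.ext h)
    · intro h; exact absurd (Finset.mem_univ _) h
  rw [h3]
  ring

/-- Hadamard bound for the Gram determinants of the vectors. -/
theorem gram_vecs_le (a : ℕ → ℝ) (α w : ℝ) (n d k : ℕ) (F : ℕ → ℝ)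
    (h0 : (w * a n) ^ 2 + ∑ i ∈ Finset.range k, dif α a (n + i) ^ 2 ≤ F 0)
    (hF : ∀ j, j + 1 < d → (w * dif α a (n + j)) ^ 2
      + ∑ i ∈ Finset.range k, dif α (dif α a) (n + i + j) ^ 2 ≤ F (j + 1)) :
    (gramM (vecs a α w n d) (k + 1)).det ≤ ∏ j ∈ Finset.range d, F j := by
  unfold gramM
  rw [← gram_mul_opT _ α]
  refine (gram_det_le d _).trans ?_
  rw [Finset.prod_range]
  apply Finset.prod_le_prod
  · intro j _
    positivity
  intro j _
  rcases d with _ | d
  · exact Fin.elim0 j
  obtain ⟨j, hj⟩ := j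
  rcases j with _ | j
  · refine le_trans (le_of_eq ?_) h0
    rw [Fin.sum_univ_succ, Finset.sum_range]
    congr 1
    · rw [mul_opT_zero _ _ _ _ rfl]
      simp [rowsM, vecs]
    · apply Finset.sum_congr rfl
      intro i _
      rw [mul_opT_zero _ _ _ _ rfl]
      simp [rowsM, vecs]
  · refine le_trans (le_of_eq ?_) (hF j hj)
    rw [Fin.sum_univ_succ, Finset.sum_range]
    congr 1
    · rw [mul_opT_succ]
      simp only [rowsM, vecs, Matrix.of_apply, dif, Fin.val_zero]
      have : n + (j + 1) = n + j + 1 := by ring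
      rw [this]
      ring
    · apply Finset.sum_congr rfl
      intro i _
      rw [mul_opT_succ]
      simp only [rowsM, vecs, Matrix.of_apply, dif, Fin.val_succ]
      have : n + (i : ℕ) + (j + 1) = n + i + j + 1 := by ring
      rw [this]

end Har
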