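import Mathlib
import Pool.Agent.Lib_helper62.Har.Ops
import Pool.Agent.Lib_helper62.Har.Kron

/-!
The finite-window rigidity theorem.
-/

set_option autoImplicit false

namespace Har

open Matrix Polynomial

/-- Every block of `W` consecutive terms has energy at most `η`. -/
def Blk (f : ℕ → ℝ) (W : ℕ) (η : ℝ) : Prop := ∀ m, ∑ k ∈ Finset.range W, f (m + k) ^ 2 ≤ η

theorem Blk.sum_le {f : ℕ → ℝ} {W : ℕ} {η : ℝ} (h : Blk f W η) (m L : ℕ) (hL : L ≤ W) :
    ∑ k ∈ Finset.range L, f (m + k) ^ 2 ≤ η := by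
  refine le_trans ?_ (h m)
  apply Finset.sum_le_sum_of_subset_of_nonneg
  · exact Finset.range_subset_range.mpr hL
  · intro i _ _
    positivity

theorem Blk.sq_le {f : ℕ → ℝ} {W : ℕ} {η : ℝ} (h : Blk f W η) (hW : 1 ≤ W) (m : ℕ) :
    f m ^ 2 ≤ η := by
  have := h.sum_le m 1 hW
  simpa using this

theorem Blk.dif {f : ℕ → ℝ} {W : ℕ} {η : ℝ} (h : Blk f W η) (α : ℝ) (hα : 0 ≤ α) :
    Blk (Har.dif α f) W ((1 + α) ^ 2 * η) := by
  intro m
  have h1 : ∀ k, Har.dif α f (m + k) ^ 2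
      ≤ (1 + α) * (f (m + 1 + k) ^ 2 + α * f (m + k) ^ 2) := by
    intro k
    unfold Har.dif
    have h2 : m + k + 1 = m + 1 + k := by ring
    rw [h2]
    nlinarith [sq_nonneg (f (m + 1 + k) + f (m + k)), mul_nonneg hα
      (sq_nonneg (f (m + 1 + k) + f (m + k)))]
  calc ∑ k ∈ Finset.range W, Har.dif α f (m + k) ^ 2
      ≤ ∑ k ∈ Finset.range W, (1 + α) * (f (m + 1 + k) ^ 2 + α * f (m + k) ^ 2) :=
        Finset.sum_le_sum (fun k _ => h1 k)
    _ = (1 + α) * (∑ k ∈ Finset.range W, f (m + 1 + k) ^ 2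
        + α * ∑ k ∈ Finset.range W, f (m + k) ^ 2) := by
        rw [← Finset.mul_sum, Finset.sum_add_distrib, Finset.mul_sum]
    _ ≤ (1 + α) * (η + α * η) := by
        have := h (m + 1)
        have := h m
        gcongr
    _ = _ := by ring

theorem dif_err (a : ℕ → ℝ) (ξ α : ℝ) :
    dif α (fun k => a k - ξ * α ^ k) = dif α a := by
  funext k
  simp only [dif, pow_succ]
  ring

/-- Casting Hankel determinants. -/
theorem hank_det_cast (a : ℕ → ℤ) (n d : ℕ) :
    (hank (fun k => (a k : ℝ)) n d).det = ((hank a n d).det : ℝ) := by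
  have h2 := RingHom.map_det (Int.castRingHom ℝ) (hank a n d)
  have h1 : hank (fun k => (a k : ℝ)) n d = (Int.castRingHom ℝ).mapMatrix (hank a n d) := by
    ext i j; rfl
  rw [h1, ← h2]
  rfl

theorem hank_det_castQ (a : ℕ → ℤ) (n d : ℕ) :
    (hank (fun k => (a k : ℚ)) n d).det = ((hank a n d).det : ℚ) := by
  have h2 := RingHom.map_det (Int.castRingHom ℚ) (hank a n d)
  have h1 : hank (fun k => (a k : ℚ)) n d = (Int.castRingHom ℚ).mapMatrix (hank a n d) := by
    ext i j; rfl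
  rw [h1, ← h2]
  rfl

theorem act_cast {K : Type*} [Field K] [CharZero K] (P : ℤ[X]) (hP : P.Monic) (a : ℕ → ℤ) (n : ℕ) :
    act (P.map (Int.castRingHom K)) (fun k => (a k : K)) n = ((act P a n : ℤ) : K) := by
  rw [act_apply, act_apply, hP.natDegree_map (Int.castRingHom K)]
  push_cast
  apply Finset.sum_congr rfl
  intro i _
  rw [coeff_map]
  rfl

theorem act_sub_C (α : ℝ) (a : ℕ → ℝ) : act (X - C α) a = dif α a := by
  funext n
  rw [act_sub, Pi.sub_apply, act_X, act_C]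
  rfl

theorem act_sum_range {R : Type*} [CommRing R] (k : ℕ) (t : ℕ → R) (a : ℕ → R) (n : ℕ) :
    act (∑ i ∈ Finset.range k, C (t i) * X ^ i) a n
      = ∑ i ∈ Finset.range k, t i * a (n + i) := by
  have : act (∑ j ∈ Finset.range k, C (t j) * X ^ j) a
      = ∑ j ∈ Finset.range k, act (C (t j) * X ^ j) a := by
    unfold act
    rw [map_sum, LinearMap.sum_apply]
  rw [this, Finset.sum_apply]
  apply Finset.sum_congr rfl
  intro j _
  rw [act_mul, act_C, act_X_pow]

/-- The polynomial `U = (x - α)(x^k - Σ t_i x^i) - τ`. -/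
noncomputable def Upoly (α τ : ℝ) (k : ℕ) (t : ℕ → ℝ) : ℝ[X] :=
  (X - C α) * (X ^ k - ∑ i ∈ Finset.range k, C (t i) * X ^ i) - C τ

theorem degree_sum_range_lt {R : Type*} [CommRing R] (k : ℕ) (t : ℕ → R) :
    (∑ i ∈ Finset.range k, C (t i) * X ^ i : R[X]).degree < (k : WithBot ℕ) := by
  have h := degree_sum_fin_lt (fun j : Fin k => t j)
  rw [← Finset.sum_range (fun j => C (t j) * (X : R[X]) ^ j)] at h
  exact h

theorem Upoly_spec (α τ : ℝ) (k : ℕ) (t : ℕ → ℝ) :
    (Upoly α τ k t).Monic ∧ (Upoly α τ k t).natDegree = k + 1 := by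
  have h1 : (X ^ k - ∑ i ∈ Finset.range k, C (t i) * X ^ i : ℝ[X]).Monic :=
    monic_X_pow_sub (degree_sum_range_lt k t)
  have h2 : (X ^ k - ∑ i ∈ Finset.range k, C (t i) * X ^ i : ℝ[X]).natDegree = k := by
    apply natDegree_eq_of_degree_eq_some
    rw [degree_sub_eq_left_of_degree_lt (by rw [degree_X_pow]; exact degree_sum_range_lt k t),
      degree_X_pow]
  have h3 : ((X - C α) * (X ^ k - ∑ i ∈ Finset.range k, C (t i) * X ^ i) : ℝ[X]).Monic :=
    (monic_X_sub_C α).mul h1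
  have h4 : ((X - C α) * (X ^ k - ∑ i ∈ Finset.range k, C (t i) * X ^ i) : ℝ[X]).natDegree
      = k + 1 := by
    rw [(monic_X_sub_C α).natDegree_mul h1, h2, natDegree_X_sub_C, add_comm]
  have h5 : (C τ : ℝ[X]).degree
      < ((X - C α) * (X ^ k - ∑ i ∈ Finset.range k, C (t i) * X ^ i) : ℝ[X]).degree := by
    rw [degree_eq_natDegree h3.ne_zero, h4]
    exact lt_of_le_of_lt degree_C_le (by exact_mod_cast Nat.succ_pos k)
  refine ⟨h3.sub_of_left h5, ?_⟩
  unfold Upoly
  rw [natDegree_eq_of_degree_eq (degree_sub_eq_left_of_degree_lt h5), h4]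

theorem act_Upoly (α τ : ℝ) (k : ℕ) (t : ℕ → ℝ) (a : ℕ → ℝ) (n : ℕ) :
    act (Upoly α τ k t) a n
      = dif α a (n + k) - ∑ i ∈ Finset.range k, t i * dif α a (n + i) - τ * a n := by
  unfold Upoly
  rw [act_sub, Pi.sub_apply, act_C, mul_comm (X - C α), act_mul, act_sub_C, act_sub, Pi.sub_apply,
    act_X_pow, act_sum_range]

/-- Cauchy–Schwarz for the combination. -/
theorem comb_le (k : ℕ) (t b : ℕ → ℝ) (s η : ℝ) (hs : 0 ≤ s)
    (ht : ∑ i ∈ Finset.range k, t i ^ 2 ≤ s)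
    (hb : ∑ i ∈ Finset.range k, b i ^ 2 ≤ η) :
    |∑ i ∈ Finset.range k, t i * b i| ≤ Real.sqrt (s * η) := by
  have h1 := Finset.sum_mul_sq_le_sq_mul_sq (Finset.range k) t b
  rw [← Real.sqrt_sq_eq_abs]
  apply Real.sqrt_le_sqrt
  refine h1.trans ?_
  have : 0 ≤ ∑ i ∈ Finset.range k, b i ^ 2 := Finset.sum_nonneg (fun i _ => sq_nonneg _)
  exact mul_le_mul ht hb this hs

/-- If the recurrence holds before `n` and `P ∣ U = P V`, the value of `act U` just after is the
value of `act P`. -/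
theorem act_top (P V : ℝ[X]) (hV : V.Monic) (a : ℕ → ℝ) (n : ℕ)
    (h : ∀ n', n' < n → act P a n' = 0) (hn : V.natDegree ≤ n) :
    act (P * V) a (n - V.natDegree) = act P a n := by
  rw [mul_comm, act_mul, act_apply, Finset.sum_range_succ, Finset.sum_eq_zero, zero_add]
  · rw [hV.coeff_natDegree, one_mul]
    congr 1
    omega
  · intro i hi
    have : i < V.natDegree := by simpa using hi
    rw [h _ (by omega), mul_zero]

theorem act_before (P V : ℝ[X]) (a : ℕ → ℝ) (n : ℕ)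
    (h : ∀ n', n' < n → act P a n' = 0) (hn : V.natDegree + 1 ≤ n) :
    act (P * V) a (n - V.natDegree - 1) = 0 := by
  rw [mul_comm, act_mul]
  apply act_eq_zero_of
  intro i hi
  exact h _ (by omega)

/-- The extension step: a short monic multiple of `P` propagates the recurrence. -/
theorem ext_step (P : ℤ[X]) (hP : P.Monic) (a : ℕ → ℤ) (α : ℝ) (hα : 1 < α)
    (k W : ℕ) (hkW : k ≤ W) (hW : 1 ≤ W) (t : ℕ → ℝ) (τ : ℝ) (hτ : |τ| ≤ 1)
    (ht : ∑ i ∈ Finset.range k, t i ^ 2 ≤ 1) (s : ℝ)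
    (hblk : Blk (dif α (fun j => (a j : ℝ))) W s)
    (hs : (3 + 2 * α) * Real.sqrt s < 1)
    (hdvd : P.map (Int.castRingHom ℝ) ∣ Upoly α τ k t)
    (n : ℕ) (hn : k + 2 ≤ n) (h : ∀ n', n' < n → act P a n' = 0) : act P a n = 0 := by
  obtain ⟨V, hV⟩ := hdvd
  set Pr := P.map (Int.castRingHom ℝ) with hPr
  have hPrm : Pr.Monic := hP.map _
  obtain ⟨hUm, hUn⟩ := Upoly_spec α τ k t
  have hVm : V.Monic := by
    rw [hV] at hUm
    exact hPrm.of_mul_monic_left hUm
  have hVn : V.natDegree ≤ k + 1 := by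
    rw [← hUn, hV, hPrm.natDegree_mul hVm]
    omega
  set ar : ℕ → ℝ := fun j => (a j : ℝ) with har
  have h' : ∀ n', n' < n → act Pr ar n' = 0 := by
    intro n' hn'
    rw [hPr, har, act_cast P hP a n', h n' hn']
    simp
  have e1 := act_top Pr V hVm ar n h' (by omega)
  have e2 := act_before Pr V ar n h' (by omega)
  rw [← hV, act_Upoly] at e1 e2
  obtain ⟨m, hm⟩ : ∃ m, n - V.natDegree = m + 1 := ⟨n - V.natDegree - 1, by omega⟩
  rw [hm] at e1 e2
  rw [Nat.add_sub_cancel] at e2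
  have e3 : ar (m + 1) = α * ar m + dif α ar m := by
    unfold dif; ring
  set b := dif α ar with hb
  have hbb : ∀ j, |b j| ≤ Real.sqrt s := by
    intro j
    rw [← Real.sqrt_sq_eq_abs]
    exact Real.sqrt_le_sqrt (hblk.sq_le hW j)
  have hS1 : |∑ i ∈ Finset.range k, t i * b (m + 1 + i)| ≤ Real.sqrt s := by
    have := comb_le k t (fun i => b (m + 1 + i)) 1 s zero_le_one ht (hblk.sum_le (m + 1) k hkW)
    simpa using this
  have hS2 : |∑ i ∈ Finset.range k, t i * b (m + i)| ≤ Real.sqrt s := by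
    have := comb_le k t (fun i => b (m + i)) 1 s zero_le_one ht (hblk.sum_le m k hkW)
    simpa using this
  have hy : ((act P a n : ℤ) : ℝ) = b (m + 1 + k) - ∑ i ∈ Finset.range k, t i * b (m + 1 + i)
      - α * (b (m + k) - ∑ i ∈ Finset.range k, t i * b (m + i)) - τ * b m := by
    rw [← act_cast P hP a n, ← hPr, ← har, ← e1, e3]
    have : τ * ar m = b (m + k) - ∑ i ∈ Finset.range k, t i * b (m + i) := by linarith
    rw [← this]
    ring
  have h1 := hbb (m + 1 + k)
  have h2 := hbb (m + k)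
  have h3 := hbb m
  have h4 : |τ * b m| ≤ Real.sqrt s := by
    rw [abs_mul]
    calc |τ| * |b m| ≤ 1 * Real.sqrt s := by
          apply mul_le_mul hτ h3 (abs_nonneg _) zero_le_one
      _ = _ := one_mul _
  have hlt : |((act P a n : ℤ) : ℝ)| < 1 := by
    rw [hy]
    have h5 : |α * (b (m + k) - ∑ i ∈ Finset.range k, t i * b (m + i))|
        ≤ α * (2 * Real.sqrt s) := by
      rw [abs_mul, abs_of_pos (by linarith : (0 : ℝ) < α)]
      apply mul_le_mul_of_nonneg_left _ (by linarith)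
      calc _ ≤ |b (m + k)| + |∑ i ∈ Finset.range k, t i * b (m + i)| := abs_sub _ _
        _ ≤ _ := by linarith
    calc _ ≤ |b (m + 1 + k) - ∑ i ∈ Finset.range k, t i * b (m + 1 + i)
          - α * (b (m + k) - ∑ i ∈ Finset.range k, t i * b (m + i))| + |τ * b m| := abs_sub _ _
      _ ≤ (|b (m + 1 + k) - ∑ i ∈ Finset.range k, t i * b (m + 1 + i)|
          + |α * (b (m + k) - ∑ i ∈ Finset.range k, t i * b (m + i))|) + |τ * b m| := by
          gcongr
          exact abs_sub _ _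
      _ ≤ ((|b (m + 1 + k)| + |∑ i ∈ Finset.range k, t i * b (m + 1 + i)|)
          + |α * (b (m + k) - ∑ i ∈ Finset.range k, t i * b (m + i))|) + |τ * b m| := by
          gcongr
          exact abs_sub _ _
      _ ≤ ((Real.sqrt s + Real.sqrt s) + α * (2 * Real.sqrt s)) + Real.sqrt s := by
          gcongr
      _ = (3 + 2 * α) * Real.sqrt s := by ring
      _ < 1 := hs
  have : |act P a n| < 1 := by exact_mod_cast hlt
  exact Int.abs_lt_one_iff.mp this

end Har
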