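import Mathlib
import Pool.Agent.Lib_helper62.Har.Core

/-!
The finite-window rigidity theorem: if every block of `16 T` consecutive errors has small energy,
where `|ξ| ≤ e^T`, then the integer sequence satisfies a monic integral recurrence for ever.
-/

set_option autoImplicit false

namespace Har

open Matrix Polynomial

theorem exp_le_three_pow (T : ℕ) : Real.exp T ≤ 3 ^ T := by
  have h : Real.exp T = (Real.exp 1) ^ T := by
    rw [← Real.exp_nat_mul, mul_one]
  rw [h]
  apply pow_le_pow_left₀ (Real.exp_pos 1).le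
  have := Real.exp_one_lt_d9
  linarith

theorem rigid (A α ξ : ℝ) (hα : 1 < α) (hαA : α ≤ A) (T : ℕ) (hT : 1 ≤ T)
    (hξ : |ξ| ≤ Real.exp T) (a : ℕ → ℤ)
    (h : Blk (fun k => (a k : ℝ) - ξ * α ^ k) (16 * T) (1 / (1000 * (1 + A) ^ 4))) :
    ∃ P : ℤ[X], P.Monic ∧ ∀ n, act P a n = 0 := by
  set ar : ℕ → ℝ := fun k => (a k : ℝ) with har
  set W := 16 * T with hWdef
  set η : ℝ := 1 / (1000 * (1 + A) ^ 4) with hη
  have hA : 1 < A := lt_of_lt_of_le hα hαA
  have hηpos : 0 < η := by positivity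
  have hW1 : 1 ≤ W := by omega
  -- energies of b and c
  have hb : Blk (dif α ar) W ((1 + α) ^ 2 * η) := by
    have := h.dif α (by linarith)
    rwa [dif_err] at this
  have hc : Blk (dif α (dif α ar)) W ((1 + α) ^ 2 * ((1 + α) ^ 2 * η)) :=
    hb.dif α (by linarith)
  have hpow2 : (1 + α) ^ 2 ≤ (1 + A) ^ 2 := by gcongr
  have hs1 : (1 + α) ^ 2 * η ≤ 1 / (1000 * (1 + A) ^ 2) := by
    calc (1 + α) ^ 2 * η ≤ (1 + A) ^ 2 * η := by gcongr
      _ = _ := by rw [hη]; field_simp
  have hs2 : (1 + α) ^ 2 * ((1 + α) ^ 2 * η) ≤ 1 / 1000 := by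
    calc (1 + α) ^ 2 * ((1 + α) ^ 2 * η) ≤ (1 + A) ^ 2 * (1 / (1000 * (1 + A) ^ 2)) := by
          gcongr
      _ = _ := by field_simp
  have hs1' : (1 + α) ^ 2 * η ≤ 1 / 4000 := by
    refine hs1.trans ?_
    rw [div_le_div_iff₀ (by positivity) (by norm_num)]
    nlinarith
  have hb' : Blk (dif α ar) W (1 / 4000) := fun m => (hb m).trans hs1'
  have hc' : Blk (dif α (dif α ar)) W (1 / 1000) := fun m => (hc m).trans hs2
  -- size of a 0
  have h3T : (1 : ℝ) ≤ 3 ^ T := one_le_pow₀ (by norm_num)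
  have ha0 : |ar 0| ≤ 3 ^ T + 1 := by
    have h1 := h.sq_le hW1 0
    have h2 : |ar 0 - ξ| ≤ 1 := by
      rw [← Real.sqrt_sq_eq_abs]
      have : (ar 0 - ξ) ^ 2 ≤ 1 := by
        have h3 : (ar 0 - ξ) ^ 2 ≤ η := by simpa using h1
        refine h3.trans ?_
        rw [hη, div_le_one (by positivity)]
        nlinarith [pow_pos (by linarith : (0 : ℝ) < 1 + A) 4,
          one_le_pow₀ (by linarith : (1 : ℝ) ≤ 1 + A) (n := 4)]
      calc Real.sqrt ((ar 0 - ξ) ^ 2) ≤ Real.sqrt 1 := Real.sqrt_le_sqrt this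
        _ = 1 := Real.sqrt_one
    calc |ar 0| = |(ar 0 - ξ) + ξ| := by ring_nf
      _ ≤ |ar 0 - ξ| + |ξ| := abs_add_le _ _
      _ ≤ 1 + Real.exp T := by gcongr
      _ ≤ 1 + 3 ^ T := by gcongr; exact exp_le_three_pow T
      _ = _ := by ring
  have ha0sq : ar 0 ^ 2 ≤ 4 * 9 ^ T := by
    have h1 : ar 0 ^ 2 = |ar 0| ^ 2 := (sq_abs _).symm
    rw [h1]
    calc |ar 0| ^ 2 ≤ (3 ^ T + 1) ^ 2 := by gcongr
      _ ≤ (2 * 3 ^ T) ^ 2 := by gcongr; linarith
      _ = 4 * 9 ^ T := by
          rw [mul_pow, ← pow_mul, mul_comm T 2, pow_mul]; norm_num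
  have h9T : (1 : ℝ) ≤ 9 ^ T := one_le_pow₀ (by norm_num)
  -- the bound for Hankel determinants
  have hdet : ∀ m, 1 ≤ m → m ≤ W → (hank ar 0 m).det ^ 2 ≤ 5 * 9 ^ T * (1 / 100) ^ (m - 1) := by
    intro m hm1 hm2
    refine (hank_det_sq_le ar α 0 m (fun j => if j = 0 then 5 * 9 ^ T else 1 / 100) ?_ ?_).trans ?_
    · simp only [if_true]
      have := hb'.sum_le 0 (m - 1) (by omega)
      linarith
    · intro j hj
      simp only [Nat.add_eq_zero_iff, one_ne_zero, and_false, if_false]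
      have h1 := hb'.sq_le hW1 (0 + j)
      have h2 := hc'.sum_le (0 + j) (m - 1) (by omega)
      linarith
    · obtain ⟨m, rfl⟩ := Nat.exists_eq_add_of_le' hm1
      rw [Finset.prod_range_succ']
      simp only [if_true, Nat.add_eq_zero_iff, one_ne_zero, and_false, if_false,
        Finset.prod_const, Finset.card_range, Nat.add_sub_cancel]
      rw [mul_comm]
  set M := 5 * T + 6 with hM
  have hMW : M ≤ W := by omega
  have hvanish : ∀ m, T + 2 ≤ m → m ≤ M → (hank a 0 m).det = 0 := by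
    intro m hm1 hm2
    have h1 := hdet m (by omega) (by omega)
    have h2 : (5 : ℝ) * 9 ^ T * (1 / 100) ^ (m - 1) < 1 := by
      calc (5 : ℝ) * 9 ^ T * (1 / 100) ^ (m - 1) ≤ 5 * 9 ^ T * (1 / 100) ^ (T + 1) := by
            apply mul_le_mul_of_nonneg_left _ (by positivity)
            exact pow_le_pow_of_le_one (by norm_num) (by norm_num) (by omega)
        _ = (5 / 100) * (9 / 100) ^ T := by
            rw [pow_succ, div_pow, div_pow]; field_simp; simp
        _ ≤ (5 / 100) * 1 := by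
            gcongr
            exact pow_le_one₀ (by norm_num) (by norm_num)
        _ < 1 := by norm_num
    have h3 : (((hank a 0 m).det : ℤ) : ℝ) ^ 2 < 1 := by
      rw [← hank_det_cast]
      exact lt_of_le_of_lt h1 h2
    have h4 : (hank a 0 m).det ^ 2 < 1 := by exact_mod_cast h3
    have h5 : (hank a 0 m).det ^ 2 = 0 := by
      have := sq_nonneg (hank a 0 m).det
      omega
    exact pow_eq_zero_iff (two_ne_zero) |>.mp h5
  -- the order d
  obtain ⟨d, hdT, hd0, hdmax⟩ : ∃ d, d ≤ T + 1 ∧ (hank a 0 d).det ≠ 0 ∧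
      ∀ m, d < m → m ≤ M → (hank a 0 m).det = 0 := by
    classical
    let p : ℕ → Prop := fun m => (hank a 0 m).det ≠ 0
    have hp0 : p 0 := by simp [p]
    refine ⟨Nat.findGreatest p (T + 1), Nat.findGreatest_le _, ?_, ?_⟩
    · exact Nat.findGreatest_spec (P := p) (Nat.zero_le _) hp0
    · intro m hm1 hm2
      rcases le_or_gt m (T + 1) with h1 | h1
      · by_contra hne
        exact Nat.findGreatest_is_greatest hm1 h1 hne
      · exact hvanish m (by omega) hm2
  -- the case d = 0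
  rcases Nat.eq_zero_or_pos d with hd00 | hdpos
  · refine ⟨1, monic_one, ?_⟩
    intro n
    rw [act_one]
    have hz : ∀ r, r < M → a r = 0 := by
      obtain ⟨P, hPm, hPd, -, hPa⟩ := kronecker (fun k => (a k : ℚ)) 0 0 M
        (by simp) (by
          intro m hm1 hm2
          rw [hank_det_castQ, hdmax m (by omega) hm2, Int.cast_zero])
      intro r hr
      have hP1 : P = 1 := hPm.natDegree_eq_zero.mp hPd
      have h1 := hPa r hr
      rw [hP1, act_one] at h1
      simp only [zero_add] at h1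
      exact_mod_cast h1
    induction n with
    | zero => exact hz 0 (by omega)
    | succ n ih =>
      have h1 := hb'.sq_le hW1 n
      have h2 : dif α ar n = ar (n + 1) := by
        unfold dif
        simp only [har]
        rw [ih]
        simp
      rw [h2] at h1
      have h3 : ((a (n + 1) : ℝ)) ^ 2 < 1 := by
        have : ar (n + 1) = (a (n + 1) : ℝ) := rfl
        rw [← this]; linarith
      have h4 : (a (n + 1)) ^ 2 < 1 := by exact_mod_cast h3
      have h5 : (a (n + 1)) ^ 2 = 0 := by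
        have := sq_nonneg (a (n + 1))
        omega
      exact pow_eq_zero_iff (two_ne_zero) |>.mp h5
  -- Kronecker over ℚ and integrality
  have hdM : d ≤ M := by omega
  obtain ⟨Pq, hPqm, hPqd, -, hPqa⟩ := kronecker (fun k => (a k : ℚ)) 0 d M
    (by rw [hank_det_castQ]; exact_mod_cast hd0)
    (by
      intro m hm1 hm2
      rw [hank_det_castQ, hdmax m hm1 hm2, Int.cast_zero])
  have hDreal : (((hank a 0 d).det : ℤ) : ℝ) ^ 2 ≤ 5 * 9 ^ T := by
    rw [← hank_det_cast]
    refine (hdet d hdpos (by omega)).trans ?_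
    have : ((1 : ℝ) / 100) ^ (d - 1) ≤ 1 := pow_le_one₀ (by norm_num) (by norm_num)
    nlinarith
  have hbig : (hank a 0 d).det.natAbs < 2 ^ (M + 1 - d) := by
    by_contra hcon
    push Not at hcon
    have h1 : ((2 : ℝ) ^ (M + 1 - d)) ^ 2 ≤ (((hank a 0 d).det : ℤ) : ℝ) ^ 2 := by
      have h2 : (2 : ℝ) ^ (M + 1 - d) ≤ ((hank a 0 d).det.natAbs : ℝ) := by exact_mod_cast hcon
      have h3 : ((hank a 0 d).det.natAbs : ℝ) ^ 2 = (((hank a 0 d).det : ℤ) : ℝ) ^ 2 := by
        rw [Nat.cast_natAbs, Int.cast_abs, sq_abs]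
      rw [← h3]
      gcongr
    have h4 : ((2 : ℝ) ^ (4 * T + 6)) ≤ (2 : ℝ) ^ (M + 1 - d) :=
      pow_le_pow_right₀ (by norm_num) (by omega)
    have h5 : ((2 : ℝ) ^ (4 * T + 6)) ^ 2 ≤ 5 * 9 ^ T := by
      calc ((2 : ℝ) ^ (4 * T + 6)) ^ 2 ≤ ((2 : ℝ) ^ (M + 1 - d)) ^ 2 := by gcongr
        _ ≤ _ := h1.trans hDreal
    have h6 : ((2 : ℝ) ^ (4 * T + 6)) ^ 2 = 4096 * 256 ^ T := by
      rw [← pow_mul, show (4 * T + 6) * 2 = 12 + 8 * T by ring, pow_add, pow_mul]
      norm_num
    rw [h6] at h5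
    have h7 : (9 : ℝ) ^ T ≤ 256 ^ T := by gcongr; norm_num
    nlinarith
  obtain ⟨P, hPm, hPmap⟩ := integral_of_window a 0 d M hd0 Pq hPqm hPqd hPqa hdM hbig
  have hPd : P.natDegree = d := by
    rw [← hPqd, ← hPmap, hPm.natDegree_map]
  have hPa : ∀ r, r < M → act P a r = 0 := by
    intro r hr
    have h1 := hPqa r hr
    rw [← hPmap, act_cast P hPm a, zero_add] at h1
    exact_mod_cast h1
  set Pr := P.map (Int.castRingHom ℝ) with hPr
  have hPrm : Pr.Monic := hPm.map _
  have hPrd : Pr.natDegree = d := by rw [hPr, hPm.natDegree_map, hPd]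
  have hPra : ∀ r, r < M → act Pr ar (0 + r) = 0 := by
    intro r hr
    rw [hPr, har, act_cast P hPm a, zero_add, hPa r hr, Int.cast_zero]
  have hDr : (hank ar 0 d).det ≠ 0 := by
    rw [har, hank_det_cast]
    exact_mod_cast hd0
  -- the short relation
  set w : ℝ := 1 / (3 ^ T + 1) with hw
  have hwpos : 0 < w := by positivity
  have hw1 : w ≤ 1 := by
    rw [hw, div_le_one (by positivity)]
    linarith
  have hwa : (w * ar 0) ^ 2 ≤ 1 := by
    have h1 : |w * ar 0| ≤ 1 := by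
      rw [abs_mul, abs_of_pos hwpos]
      calc w * |ar 0| ≤ w * (3 ^ T + 1) := by gcongr
        _ = 1 := by rw [hw]; field_simp
    calc (w * ar 0) ^ 2 = |w * ar 0| ^ 2 := (sq_abs _).symm
      _ ≤ 1 ^ 2 := by gcongr
      _ = 1 := one_pow 2
  have hgram1 : (gramM (vecs ar α w 0 d) M).det ≤ 2 := by
    have hM1 : M = (5 * T + 5) + 1 := by omega
    rw [hM1]
    refine (gram_vecs_le ar α w 0 d (5 * T + 5) (fun j => if j = 0 then 2 else 1) ?_ ?_).trans ?_
    · simp only [if_true]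
      have := hb'.sum_le 0 (5 * T + 5) (by omega)
      linarith
    · intro j hj
      simp only [Nat.add_eq_zero_iff, one_ne_zero, and_false, if_false]
      have h1 := hb'.sq_le hW1 (0 + j)
      have h2 := hc'.sum_le (0 + j) (5 * T + 5) (by omega)
      have h3 : ∑ i ∈ Finset.range (5 * T + 5), dif α (dif α ar) (0 + i + j) ^ 2
          = ∑ i ∈ Finset.range (5 * T + 5), dif α (dif α ar) (0 + j + i) ^ 2 := by
        apply Finset.sum_congr rfl
        intro i _
        have : 0 + i + j = 0 + j + i := by ring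
        rw [this]
      rw [h3]
      have h4 : (w * dif α ar (0 + j)) ^ 2 ≤ dif α ar (0 + j) ^ 2 := by
        rw [mul_pow]
        have : w ^ 2 ≤ 1 := pow_le_one₀ hwpos.le hw1
        nlinarith [sq_nonneg (dif α ar (0 + j))]
      linarith
    · obtain ⟨d', rfl⟩ := Nat.exists_eq_add_of_le' hdpos
      rw [Finset.prod_range_succ']
      simp
  have hgram0 : (gramM (vecs ar α w 0 d) d).det = w ^ 2 * (hank ar 0 d).det ^ 2 :=
    gram_vecs_d ar α w 0 d hdpos
  have hDge : 1 ≤ (hank ar 0 d).det ^ 2 := by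
    rw [har, hank_det_cast]
    have h1 : 1 ≤ (hank a 0 d).det ^ 2 := by
      have : 0 < (hank a 0 d).det ^ 2 := by positivity
      omega
    exact_mod_cast h1
  have hw2 : 1 / (4 * 9 ^ T) ≤ w ^ 2 := by
    rw [hw, div_pow, one_pow]
    apply one_div_le_one_div_of_le (by positivity)
    calc ((3 : ℝ) ^ T + 1) ^ 2 ≤ (2 * 3 ^ T) ^ 2 := by gcongr; linarith
      _ = 4 * 9 ^ T := by
          rw [mul_pow, ← pow_mul, mul_comm T 2, pow_mul]; norm_num
  obtain ⟨k, hk1, hk2, t, ht1, ht2⟩ := exists_short_relation (vecs ar α w 0 d) d M hdM 1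
    zero_le_one (by rw [hgram0]; positivity) (by
      rw [hgram0]
      refine lt_of_le_of_lt hgram1 ?_
      have h1 : (2 : ℝ) ^ (4 * T + 5) ≤ (1 + 1) ^ (M - d) := by
        norm_num
        exact pow_le_pow_right₀ (by norm_num) (by omega)
      have h2 : (2 : ℝ) ^ (4 * T + 5) = 32 * 16 ^ T := by
        rw [pow_add, pow_mul]; norm_num; ring
      have h3 : (9 : ℝ) ^ T ≤ 16 ^ T := by gcongr; norm_num
      calc (2 : ℝ) < 32 * 16 ^ T * (1 / (4 * 9 ^ T)) := by
            rw [mul_one_div, lt_div_iff₀ (by positivity)]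
            nlinarith
        _ ≤ (1 + 1) ^ (M - d) * (w ^ 2 * (hank ar 0 d).det ^ 2) := by
            rw [← h2]
            have h4 : w ^ 2 ≤ w ^ 2 * (hank ar 0 d).det ^ 2 := by
              nlinarith [sq_nonneg w]
            apply mul_le_mul h1 (hw2.trans h4) (by positivity) (by positivity))
  obtain ⟨k, rfl⟩ : ∃ k', k = k' + 1 := ⟨k - 1, by omega⟩
  rw [Finset.sum_range_succ'] at ht2
  set σ : ℕ → ℝ := fun i => t (i + 1) with hσ
  set τ : ℝ := t 0 * w with hτ
  have ht0 : t 0 ^ 2 ≤ 1 := by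
    have : 0 ≤ ∑ i ∈ Finset.range k, t (i + 1) ^ 2 := Finset.sum_nonneg (fun i _ => sq_nonneg _)
    linarith
  have hσ1 : ∑ i ∈ Finset.range k, σ i ^ 2 ≤ 1 := by
    have := sq_nonneg (t 0)
    simp only [hσ]
    linarith
  have hτ1 : |τ| ≤ 1 := by
    rw [hτ, abs_mul, abs_of_pos hwpos]
    have h1 : |t 0| ≤ 1 := by
      rw [← Real.sqrt_sq_eq_abs]
      calc Real.sqrt (t 0 ^ 2) ≤ Real.sqrt 1 := Real.sqrt_le_sqrt ht0
        _ = 1 := Real.sqrt_one
    calc |t 0| * w ≤ 1 * 1 := by gcongr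
      _ = 1 := one_mul 1
  have hUact : ∀ r, r < d → act (Upoly α τ k σ) ar (0 + r) = 0 := by
    intro r hr
    rw [act_Upoly]
    have h1 := ht1 ⟨r, hr⟩
    rw [Finset.sum_range_succ'] at h1
    simp only [vecs] at h1
    have h2 : dif α ar (0 + r + k) = dif α ar (0 + k + r) := by
      have : 0 + r + k = 0 + k + r := by ring
      rw [this]
    have h3 : ∑ i ∈ Finset.range k, σ i * dif α ar (0 + r + i)
        = ∑ i ∈ Finset.range k, t (i + 1) * dif α ar (0 + i + r) := by
      apply Finset.sum_congr rfl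
      intro i _
      have : 0 + r + i = 0 + i + r := by ring
      rw [this]
    rw [h2, h3, h1, hτ]
    ring
  obtain ⟨hUm, hUn⟩ := Upoly_spec α τ k σ
  have hdvd : Pr ∣ Upoly α τ k σ :=
    dvd_of_act ar 0 d M hDr Pr hPrm hPrd hPra _ (by rw [hUn]; omega) hUact
  -- propagation
  have hsmall : (3 + 2 * α) * Real.sqrt ((1 + α) ^ 2 * η) < 1 := by
    have h1 : Real.sqrt ((1 + α) ^ 2 * η) ≤ Real.sqrt (1 / (1000 * (1 + A) ^ 2)) :=
      Real.sqrt_le_sqrt hs1
    have h2 : Real.sqrt (1 / (1000 * (1 + A) ^ 2)) ≤ 1 / (30 * (1 + A)) := by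
      rw [Real.sqrt_le_left (by positivity)]
      rw [div_pow, one_pow, mul_pow]
      apply one_div_le_one_div_of_le (by positivity)
      nlinarith [sq_nonneg (1 + A)]
    calc (3 + 2 * α) * Real.sqrt ((1 + α) ^ 2 * η) ≤ (3 + 2 * A) * (1 / (30 * (1 + A))) := by
          apply mul_le_mul (by linarith) (h1.trans h2) (Real.sqrt_nonneg _) (by linarith)
      _ < 1 := by
          rw [mul_one_div, div_lt_one (by positivity)]
          linarith
  refine ⟨P, hPm, ?_⟩
  intro n
  induction n using Nat.strong_induction_on with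
  | _ n ih =>
    rcases lt_or_ge n M with h1 | h1
    · exact hPa n h1
    · exact ext_step P hPm a α hα k W (by omega) hW1 σ τ hτ1 hσ1 ((1 + α) ^ 2 * η) hb hsmall
        hdvd n (by omega) ih

/-- A bounded perturbation of `ξ α^n` satisfying a recurrence forces `P(α) = 0`. -/
theorem root_of_act (P : ℤ[X]) (hP : P.Monic) (a : ℕ → ℤ) (α ξ : ℝ) (hα : 1 < α) (hξ : ξ ≠ 0)
    (B : ℝ) (hB : ∀ n, |(a n : ℝ) - ξ * α ^ n| ≤ B) (h : ∀ n, act P a n = 0) :
    IsIntegral ℤ α := by
  refine ⟨P, hP, ?_⟩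
  set Pr := P.map (Int.castRingHom ℝ) with hPr
  have heval : eval₂ (algebraMap ℤ ℝ) α P = Pr.eval α := by
    rw [hPr, eval_map]; rfl
  rw [heval]
  by_contra hne
  -- act Pr of the geometric sequence
  have hgeo : ∀ n, act Pr (fun k => ξ * α ^ k) n = ξ * α ^ n * Pr.eval α := by
    intro n
    rw [act_apply, eval_eq_sum_range, Finset.mul_sum]
    apply Finset.sum_congr rfl
    intro i _
    rw [pow_add]; ring
  set S : ℝ := ∑ i ∈ Finset.range (Pr.natDegree + 1), |Pr.coeff i| with hS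
  have hbd : ∀ n, |ξ| * α ^ n * |Pr.eval α| ≤ S * B := by
    intro n
    have h1 : act Pr (fun k => (a k : ℝ)) n = 0 := by
      rw [hPr, act_cast P hP a n, h n, Int.cast_zero]
    have h2 : act Pr (fun k => ξ * α ^ k) n = - act Pr (fun k => (a k : ℝ) - ξ * α ^ k) n := by
      have : act Pr (fun k => (a k : ℝ) - ξ * α ^ k)
          = act Pr (fun k => (a k : ℝ)) - act Pr (fun k => ξ * α ^ k) := by
        unfold act
        rw [← map_sub]
        rfl
      rw [this, Pi.sub_apply, h1]; ring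
    rw [hgeo] at h2
    have h3 : |ξ| * α ^ n * |Pr.eval α| = |ξ * α ^ n * Pr.eval α| := by
      rw [abs_mul, abs_mul, abs_of_pos (by positivity : (0 : ℝ) < α ^ n)]
    rw [h3, h2, abs_neg, act_apply, hS, Finset.sum_mul]
    refine (Finset.abs_sum_le_sum_abs _ _).trans (Finset.sum_le_sum ?_)
    intro i _
    rw [abs_mul]
    exact mul_le_mul_of_nonneg_left (hB _) (abs_nonneg _)
  have hpos : 0 < |ξ| * |Pr.eval α| := mul_pos (abs_pos.mpr hξ) (abs_pos.mpr hne)
  obtain ⟨n, hn⟩ := pow_unbounded_of_one_lt (S * B / (|ξ| * |Pr.eval α|)) hα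
  rw [div_lt_iff₀ hpos] at hn
  have := hbd n
  nlinarith

end Har
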