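import Mathlib
import Pool.Agent.Lib_helper62.Har.Core

/-!
Local energies, and the existence of good scales when the energy of `(N, N^3]` is a small
multiple of `log N`.
-/

set_option autoImplicit false

namespace Har

/-- The local energy `b_n^2 + c_n^2`. -/
noncomputable def gg (α : ℝ) (a : ℕ → ℤ) (n : ℕ) : ℝ :=
  (dif α (fun k => (a k : ℝ)) n) ^ 2 + (dif α (dif α (fun k => (a k : ℝ))) n) ^ 2

/-- The energy of the window `[m, n)`. -/
noncomputable def GG (α : ℝ) (a : ℕ → ℤ) (m n : ℕ) : ℝ := ∑ k ∈ Finset.Ico m n, gg α a k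

theorem gg_nonneg (α : ℝ) (a : ℕ → ℤ) (n : ℕ) : 0 ≤ gg α a n := by unfold gg; positivity

theorem GG_nonneg (α : ℝ) (a : ℕ → ℤ) (m n : ℕ) : 0 ≤ GG α a m n :=
  Finset.sum_nonneg (fun i _ => gg_nonneg α a i)

theorem GG_add (α : ℝ) (a : ℕ → ℤ) {l m n : ℕ} (h1 : l ≤ m) (h2 : m ≤ n) :
    GG α a l m + GG α a m n = GG α a l n :=
  Finset.sum_Ico_consecutive _ h1 h2

theorem GG_mono (α : ℝ) (a : ℕ → ℤ) {m m' n n' : ℕ} (h1 : m' ≤ m) (h2 : n ≤ n') :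
    GG α a m n ≤ GG α a m' n' :=
  Finset.sum_le_sum_of_subset_of_nonneg (Finset.Ico_subset_Ico h1 h2)
    (fun i _ _ => gg_nonneg α a i)

theorem GG_self (α : ℝ) (a : ℕ → ℤ) (m : ℕ) : GG α a m m = 0 := by
  unfold GG; simp

theorem sq_dif_le (α : ℝ) (hα : 0 ≤ α) (f : ℕ → ℝ) (n : ℕ) :
    dif α f n ^ 2 ≤ (1 + α) ^ 2 * (f n ^ 2 + f (n + 1) ^ 2) := by
  unfold dif
  nlinarith [mul_nonneg hα (sq_nonneg (f n + f (n + 1))), sq_nonneg (f n), sq_nonneg (f (n + 1)),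
    mul_nonneg hα (sq_nonneg (f n)), mul_nonneg hα (sq_nonneg (f (n + 1))),
    mul_nonneg (mul_nonneg hα hα) (sq_nonneg (f (n + 1)))]

theorem gg_le (α ξ : ℝ) (hα : 0 ≤ α) (a : ℕ → ℤ) (n : ℕ) :
    gg α a n ≤ 3 * (1 + α) ^ 4 * (((a n : ℝ) - ξ * α ^ n) ^ 2
      + ((a (n + 1) : ℝ) - ξ * α ^ (n + 1)) ^ 2 + ((a (n + 2) : ℝ) - ξ * α ^ (n + 2)) ^ 2) := by
  set e : ℕ → ℝ := fun k => (a k : ℝ) - ξ * α ^ k with he
  unfold gg
  rw [← dif_err (fun k => (a k : ℝ)) ξ α, ← he]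
  have h1 := sq_dif_le α hα e n
  have h2 := sq_dif_le α hα e (n + 1)
  have h3 := sq_dif_le α hα (dif α e) n
  have h4 : (1 + α) ^ 2 * (dif α e n ^ 2 + dif α e (n + 1) ^ 2)
      ≤ (1 + α) ^ 2 * ((1 + α) ^ 2 * (e n ^ 2 + e (n + 1) ^ 2)
        + (1 + α) ^ 2 * (e (n + 1) ^ 2 + e (n + 2) ^ 2)) := by
    gcongr
  have h5 : (1 : ℝ) ≤ (1 + α) ^ 2 := one_le_pow₀ (by linarith)
  have h6 : (1 + α) ^ 2 * (e n ^ 2 + e (n + 1) ^ 2)
      ≤ (1 + α) ^ 4 * (e n ^ 2 + e (n + 1) ^ 2) := by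
    have : (1 + α) ^ 4 = (1 + α) ^ 2 * (1 + α) ^ 2 := by ring
    rw [this]
    have : (1 + α) ^ 2 ≤ (1 + α) ^ 2 * (1 + α) ^ 2 := by nlinarith
    gcongr
  have h7 : 0 ≤ (1 + α) ^ 4 * e n ^ 2 := by positivity
  have h8 : 0 ≤ (1 + α) ^ 4 * e (n + 2) ^ 2 := by positivity
  calc dif α e n ^ 2 + dif α (dif α e) n ^ 2
      ≤ (1 + α) ^ 4 * (e n ^ 2 + e (n + 1) ^ 2)
        + (1 + α) ^ 2 * ((1 + α) ^ 2 * (e n ^ 2 + e (n + 1) ^ 2)
        + (1 + α) ^ 2 * (e (n + 1) ^ 2 + e (n + 2) ^ 2)) := by linarith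
    _ ≤ 3 * (1 + α) ^ 4 * (e n ^ 2 + e (n + 1) ^ 2 + e (n + 2) ^ 2) := by nlinarith

/-- Pliss lemma: some `i ≥ q` has all backward averages at most `δ`. -/
theorem pliss (γ : ℕ → ℝ) (hγ : ∀ l, 0 ≤ γ l) (δ : ℝ) (p q L : ℕ) (hpq : p ≤ q)
    (hqL : q ≤ L) (hsum : ∑ l ∈ Finset.Ico p L, γ l < δ * ((L : ℝ) - q)) (hδ : 0 ≤ δ) :
    ∃ i, q ≤ i ∧ i < L ∧ ∀ s, p ≤ s → s ≤ i →
      ∑ l ∈ Finset.Ico s (i + 1), γ l ≤ δ * ((i : ℝ) + 1 - s) := by
  let Φ : ℕ → ℝ := fun n => ∑ l ∈ Finset.Ico p n, γ l - δ * ((n : ℝ) - p)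
  obtain ⟨n, hn1, hn2⟩ := Finset.exists_min_image (Finset.Icc p L) Φ ⟨p, by simp; omega⟩
  rw [Finset.mem_Icc] at hn1
  have hqn : q < n := by
    by_contra hcon
    push Not at hcon
    have h1 := hn2 L (by rw [Finset.mem_Icc]; omega)
    simp only [Φ] at h1
    have h2 : 0 ≤ ∑ l ∈ Finset.Ico p n, γ l := Finset.sum_nonneg (fun i _ => hγ i)
    have h3 : δ * ((n : ℝ) - p) ≤ δ * ((q : ℝ) - p) := by
      apply mul_le_mul_of_nonneg_left _ hδ
      have : (n : ℝ) ≤ q := by exact_mod_cast hcon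
      linarith
    nlinarith
  obtain ⟨i, rfl⟩ := Nat.exists_eq_add_of_le' (show 1 ≤ n by omega)
  refine ⟨i, by omega, by omega, ?_⟩
  intro s hs1 hs2
  have h1 := hn2 s (by rw [Finset.mem_Icc]; omega)
  simp only [Φ] at h1
  have h2 := Finset.sum_Ico_consecutive γ hs1 (show s ≤ i + 1 by omega)
  push_cast at h1
  linarith

/-- The windows `[2^l, 2^(l+r))` cover with multiplicity at most `r`. -/
theorem sum_windows_le (α : ℝ) (a : ℕ → ℤ) (p L r : ℕ) (hpL : p ≤ L) :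
    ∑ l ∈ Finset.Ico p L, GG α a (2 ^ l) (2 ^ (l + r)) ≤ r * GG α a (2 ^ p) (2 ^ (L + r)) := by
  induction r with
  | zero =>
    simp [GG_self]
  | succ r ih =>
    have h1 : ∀ l, GG α a (2 ^ l) (2 ^ (l + (r + 1)))
        = GG α a (2 ^ l) (2 ^ (l + r)) + GG α a (2 ^ (l + r)) (2 ^ (l + r + 1)) := by
      intro l
      rw [GG_add α a (Nat.pow_le_pow_right (by norm_num) (by omega))
        (Nat.pow_le_pow_right (by norm_num) (by omega))]
      rfl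
    simp_rw [h1]
    rw [Finset.sum_add_distrib]
    have h2 : ∀ L', p ≤ L' → ∑ l ∈ Finset.Ico p L', GG α a (2 ^ (l + r)) (2 ^ (l + r + 1))
        = GG α a (2 ^ (p + r)) (2 ^ (L' + r)) := by
      intro L' hL'
      induction L', hL' using Nat.le_induction with
      | base => simp [GG_self]
      | succ L' hL' ih' =>
        rw [Finset.sum_Ico_succ_top hL', ih', GG_add α a
          (Nat.pow_le_pow_right (by norm_num) (by omega))
          (Nat.pow_le_pow_right (by norm_num) (by omega))]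
        congr 2
        ring
    rw [h2 L hpL]
    have h3 : GG α a (2 ^ (p + r)) (2 ^ (L + r)) ≤ GG α a (2 ^ p) (2 ^ (L + (r + 1))) :=
      GG_mono α a (Nat.pow_le_pow_right (by norm_num) (by omega))
        (Nat.pow_le_pow_right (by norm_num) (by omega))
    have h4 : (r : ℝ) * GG α a (2 ^ p) (2 ^ (L + r))
        ≤ (r : ℝ) * GG α a (2 ^ p) (2 ^ (L + (r + 1))) := by
      apply mul_le_mul_of_nonneg_left _ (Nat.cast_nonneg r)
      exact GG_mono α a le_rfl (Nat.pow_le_pow_right (by norm_num) (by omega))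
    push_cast
    linarith

theorem le_sum_windows (α : ℝ) (a : ℕ → ℤ) (s i r : ℕ) (hr : 1 ≤ r) (hsi : s ≤ i) :
    GG α a (2 ^ s) (2 ^ (i + r)) ≤ ∑ l ∈ Finset.Ico s (i + 1), GG α a (2 ^ l) (2 ^ (l + r)) := by
  induction i, hsi using Nat.le_induction with
  | base => simp
  | succ i hi ih =>
    rw [Finset.sum_Ico_succ_top (by omega)]
    have h1 : GG α a (2 ^ s) (2 ^ (i + 1 + r))
        = GG α a (2 ^ s) (2 ^ (i + 1)) + GG α a (2 ^ (i + 1)) (2 ^ (i + 1 + r)) :=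
      (GG_add α a (Nat.pow_le_pow_right (by norm_num) (by omega))
        (Nat.pow_le_pow_right (by norm_num) (by omega))).symm
    have h2 : GG α a (2 ^ s) (2 ^ (i + 1)) ≤ GG α a (2 ^ s) (2 ^ (i + r)) :=
      GG_mono α a le_rfl (Nat.pow_le_pow_right (by norm_num) (by omega))
    linarith

/-- The energy of `[2^(log N + 1), 2^(e-1))` in terms of the errors on `(N, X]`. -/
theorem GG_le_S (α ξ : ℝ) (hα : 0 ≤ α) (a : ℕ → ℤ) (N X e : ℕ) (he : 2 ≤ e) (hX : 2 ^ e ≤ X) :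
    GG α a (2 ^ (Nat.log 2 N + 1)) (2 ^ (e - 1)) ≤
      9 * (1 + α) ^ 4 * ∑ n ∈ Finset.Ioc N X, ((a n : ℝ) - ξ * α ^ n) ^ 2 := by
  set p := Nat.log 2 N with hp
  have hN1 : N < 2 ^ (p + 1) := Nat.lt_pow_succ_log_self (by norm_num) N
  have hN3 : 2 ^ (e - 1) + 2 ≤ X := by
    have h2 : 2 ^ e = 2 * 2 ^ (e - 1) := by
      rw [← pow_succ']
      congr 1
      omega
    have h3 : 2 ≤ 2 ^ (e - 1) := by
      calc 2 = 2 ^ 1 := by norm_num
        _ ≤ 2 ^ (e - 1) := Nat.pow_le_pow_right (by norm_num) (by omega)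
    omega
  set f : ℕ → ℝ := fun n => ((a n : ℝ) - ξ * α ^ n) ^ 2 with hf
  have hshift : ∀ t, t ≤ 2 → ∑ k ∈ Finset.Ico (2 ^ (p + 1)) (2 ^ (e - 1)), f (k + t)
      ≤ ∑ n ∈ Finset.Ioc N X, f n := by
    intro t ht
    rw [Finset.sum_Ico_add' f]
    apply Finset.sum_le_sum_of_subset_of_nonneg
    · intro x hx
      rw [Finset.mem_Ico] at hx
      rw [Finset.mem_Ioc]
      omega
    · intro i _ _
      simp only [hf]
      positivity
  calc GG α a (2 ^ (p + 1)) (2 ^ (e - 1))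
      ≤ ∑ k ∈ Finset.Ico (2 ^ (p + 1)) (2 ^ (e - 1)),
          3 * (1 + α) ^ 4 * (f (k + 0) + f (k + 1) + f (k + 2)) :=
        Finset.sum_le_sum (fun k _ => gg_le α ξ hα a k)
    _ = 3 * (1 + α) ^ 4 * (∑ k ∈ Finset.Ico (2 ^ (p + 1)) (2 ^ (e - 1)), f (k + 0)
          + ∑ k ∈ Finset.Ico (2 ^ (p + 1)) (2 ^ (e - 1)), f (k + 1)
          + ∑ k ∈ Finset.Ico (2 ^ (p + 1)) (2 ^ (e - 1)), f (k + 2)) := by
        rw [← Finset.mul_sum, Finset.sum_add_distrib, Finset.sum_add_distrib]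
    _ ≤ 3 * (1 + α) ^ 4 * (∑ n ∈ Finset.Ioc N X, f n + ∑ n ∈ Finset.Ioc N X, f n
          + ∑ n ∈ Finset.Ioc N X, f n) := by
        have h0 := hshift 0 (by norm_num)
        have h1 := hshift 1 (by norm_num)
        have h2 := hshift 2 (by norm_num)
        gcongr
    _ = _ := by ring

/-- Good scales. -/
theorem good_scale (α ξ : ℝ) (hα : 1 < α) (a : ℕ → ℤ) (κ : ℝ) (hκ : 2 < κ) (t : ℕ)
    (ht : 2 ≤ (κ - 2) * t)
    (hS : ∀ c : ℝ, 0 < c → ∀ N₀ : ℕ, ∃ N, N₀ ≤ N ∧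
      ∑ n ∈ Finset.Ioc N ⌊(N : ℝ) ^ κ⌋₊, ((a n : ℝ) - ξ * α ^ n) ^ 2 < c * Real.log N)
    (r : ℕ) (hr : 1 ≤ r) (δ : ℝ) (hδ : 0 < δ) (i₀ : ℕ) :
    ∃ i p : ℕ, i₀ ≤ i ∧ 1 ≤ p ∧ (2 * t + 1) * p ≤ t * i ∧
      ∀ l, 2 ^ p ≤ l → GG α a l (2 ^ (i + r)) ≤ δ * (((i - Nat.log 2 l : ℕ) : ℝ) + 1) := by
  set c : ℝ := δ * (κ - 2) / (100 * (1 + α) ^ 4 * r) with hc
  have hrpos : (0 : ℝ) < r := by exact_mod_cast (by omega : 0 < r)
  have hκ2 : 0 < κ - 2 := by linarith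
  have hcpos : 0 < c := by positivity
  have htpos : 0 < t := by
    rcases Nat.eq_zero_or_pos t with h | h
    · rw [h] at ht; norm_num at ht
    · exact h
  have htr : (0 : ℝ) < t := by exact_mod_cast htpos
  obtain ⟨Z, hZ⟩ := exists_nat_gt (((r : ℝ) + 8) * 4 / (κ - 2))
  obtain ⟨N, hN0, hNS⟩ := hS c hcpos (2 ^ (Z + 3 + i₀))
  have hN2 : 2 ≤ N := by
    calc 2 = 2 ^ 1 := by norm_num
      _ ≤ 2 ^ (Z + 3 + i₀) := Nat.pow_le_pow_right (by norm_num) (by omega)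
      _ ≤ N := hN0
  set p' := Nat.log 2 N with hp'
  have hp'big : Z + 3 + i₀ ≤ p' := by
    rw [hp']
    exact Nat.le_log_of_pow_le (by norm_num) hN0
  have hlog : Real.log N ≤ (p' : ℝ) + 1 := by
    have h1 : (N : ℝ) ≤ 2 ^ (p' + 1) := by
      exact_mod_cast (Nat.lt_pow_succ_log_self (by norm_num) N).le
    calc Real.log N ≤ Real.log (2 ^ (p' + 1)) := by
          apply Real.log_le_log _ h1
          exact_mod_cast (by omega : 0 < N)
      _ = (p' + 1 : ℕ) * Real.log 2 := Real.log_pow _ _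
      _ ≤ (p' + 1 : ℕ) * 1 := by
          apply mul_le_mul_of_nonneg_left _ (Nat.cast_nonneg _)
          have := Real.log_two_lt_d9
          linarith
      _ = _ := by push_cast; ring
  set e := ⌊κ * p'⌋₊ with he
  have hp'nn : (0 : ℝ) ≤ p' := Nat.cast_nonneg _
  have he1 : (e : ℝ) ≤ κ * p' := Nat.floor_le (by positivity)
  have he2 : κ * p' < (e : ℝ) + 1 := Nat.lt_floor_add_one _
  have heX : 2 ^ e ≤ ⌊(N : ℝ) ^ κ⌋₊ := by
    apply Nat.le_floor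
    push_cast
    have h1 : (2 : ℝ) ^ p' ≤ N := by
      exact_mod_cast Nat.pow_log_le_self 2 (by omega : N ≠ 0)
    calc (2 : ℝ) ^ e = (2 : ℝ) ^ (e : ℝ) := (Real.rpow_natCast 2 e).symm
      _ ≤ (2 : ℝ) ^ (κ * p') := Real.rpow_le_rpow_of_exponent_le (by norm_num) he1
      _ = ((2 : ℝ) ^ (p' : ℝ)) ^ κ := by
          rw [← Real.rpow_mul (by norm_num)]
          congr 1
          ring
      _ ≤ (N : ℝ) ^ κ := by
          apply Real.rpow_le_rpow (by positivity) _ (by linarith)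
          rw [Real.rpow_natCast]
          exact h1
  set p := p' + 1 with hpdef
  set L := e - 1 - r with hL
  set q := (2 * t + 1) * p / t + 1 with hq
  -- size of q
  have hq1 : (2 * t + 1) * p ≤ t * q := by
    have := Nat.lt_div_mul_add (a := (2 * t + 1) * p) (b := t) htpos
    rw [hq]
    nlinarith
  have hq2 : (q : ℝ) ≤ (2 + 1 / (t : ℝ)) * ((p' : ℝ) + 1) + 1 := by
    have h1 : (((2 * t + 1) * p / t : ℕ) : ℝ) ≤ (((2 * t + 1) * p : ℕ) : ℝ) / t :=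
      Nat.cast_div_le
    rw [hq]
    push_cast at h1 ⊢
    have h2 : (2 * (t : ℝ) + 1) * ((p : ℕ) : ℝ) / t = (2 + 1 / (t : ℝ)) * ((p' : ℝ) + 1) := by
      rw [hpdef]
      push_cast
      field_simp
    rw [h2] at h1
    linarith
  have h1t : 1 / (t : ℝ) ≤ (κ - 2) / 2 := by
    rw [div_le_iff₀ htr]
    linarith
  have hZ' : ((r : ℝ) + 8) * 4 + 3 * (κ - 2) ≤ (κ - 2) * p' := by
    rw [div_lt_iff₀ hκ2] at hZ
    have h1 : (Z : ℝ) + 3 ≤ p' := by exact_mod_cast (by omega : Z + 3 ≤ p')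
    have h2 := mul_le_mul_of_nonneg_left h1 hκ2.le
    linarith
  have hZ1 : (1 : ℝ) ≤ p' := by exact_mod_cast (by omega : 1 ≤ p')
  have hgap : (κ - 2) / 4 * ((p' : ℝ) + 1) ≤ (e : ℝ) - 1 - r - q - 1 := by
    have h1 : (2 + 1 / (t : ℝ)) * ((p' : ℝ) + 1) ≤ (2 + (κ - 2) / 2) * ((p' : ℝ) + 1) := by
      gcongr
    have h2 : (2 + (κ - 2) / 2) * ((p' : ℝ) + 1)
        = 2 * p' + 2 + ((κ - 2) * p') / 2 + (κ - 2) / 2 := by ring
    have h3 : κ * (p' : ℝ) = (κ - 2) * p' + 2 * p' := by ring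
    have h4 : (κ - 2) / 4 * ((p' : ℝ) + 1) = ((κ - 2) * p') / 4 + (κ - 2) / 4 := by ring
    rw [h2] at h1
    rw [h3] at he2
    rw [h4]
    linarith
  have hreq : (r : ℝ) + 1 + q + 1 ≤ e := by
    have : 0 ≤ (κ - 2) / 4 * ((p' : ℝ) + 1) := by positivity
    linarith
  have hnat : r + 1 + q + 1 ≤ e := by exact_mod_cast hreq
  have hp1q : p ≤ q := by
    have h1 : 2 * (t * p) + p ≤ t * q := by nlinarith
    have h2 : t * p ≤ t * q := by omega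
    exact Nat.le_of_mul_le_mul_left h2 htpos
  have hE := GG_le_S α ξ (by linarith) a N ⌊(N : ℝ) ^ κ⌋₊ e (by omega) heX
  rw [← hp', ← hpdef] at hE
  have hLr : L + r = e - 1 := by omega
  have hqL : q ≤ L := by omega
  have hLreal : (L : ℝ) = (e : ℝ) - 1 - r := by
    have : ((L + r + 1 : ℕ) : ℝ) = ((e : ℕ) : ℝ) := by
      congr 1
      omega
    push_cast at this
    linarith
  have hsum : ∑ l ∈ Finset.Ico p L, GG α a (2 ^ l) (2 ^ (l + r)) < δ * ((L : ℝ) - q) := by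
    have h1 := sum_windows_le α a p L r (by omega)
    rw [hLr] at h1
    have h2 : (r : ℝ) * GG α a (2 ^ p) (2 ^ (e - 1))
        ≤ r * (9 * (1 + α) ^ 4 * (c * (p' + 1))) := by
      apply mul_le_mul_of_nonneg_left _ hrpos.le
      refine hE.trans ?_
      apply mul_le_mul_of_nonneg_left _ (by positivity)
      refine hNS.le.trans ?_
      apply mul_le_mul_of_nonneg_left hlog hcpos.le
    have h3 : (r : ℝ) * (9 * (1 + α) ^ 4 * (c * (p' + 1)))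
        = 9 / 100 * δ * ((κ - 2) * (p' + 1)) := by
      rw [hc]
      have : (0 : ℝ) < (1 + α) ^ 4 := by positivity
      field_simp
    have h4 : (κ - 2) * ((p' : ℝ) + 1) ≤ 4 * ((L : ℝ) - q) := by
      rw [hLreal]
      linarith
    have h7 : (0 : ℝ) < (L : ℝ) - q := by
      have : 0 < (κ - 2) * ((p' : ℝ) + 1) := by positivity
      linarith
    calc _ ≤ _ := h1
      _ ≤ _ := h2
      _ = _ := h3
      _ ≤ 9 / 100 * δ * (4 * ((L : ℝ) - q)) := by gcongr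
      _ < δ * ((L : ℝ) - q) := by nlinarith [mul_pos hδ h7]
  obtain ⟨i, hi1, hi2, hi3⟩ := pliss (fun l => GG α a (2 ^ l) (2 ^ (l + r)))
    (fun l => GG_nonneg α a _ _) δ p q L hp1q hqL hsum hδ.le
  refine ⟨i, p, by omega, by omega, hq1.trans (Nat.mul_le_mul_left t hi1), ?_⟩
  intro l hl
  have hlpos : l ≠ 0 := by
    intro h
    rw [h] at hl
    have := Nat.pos_of_ne_zero (pow_ne_zero p (two_ne_zero (α := ℕ)))
    omega
  have hpl : p ≤ Nat.log 2 l := Nat.le_log_of_pow_le (by norm_num) hl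
  rcases le_or_gt (Nat.log 2 l) i with h1 | h1
  · have h2 : GG α a l (2 ^ (i + r)) ≤ GG α a (2 ^ (Nat.log 2 l)) (2 ^ (i + r)) :=
      GG_mono α a (Nat.pow_log_le_self 2 hlpos) le_rfl
    have h3 := le_sum_windows α a (Nat.log 2 l) i r hr h1
    have h4 := hi3 (Nat.log 2 l) hpl h1
    have h5 : ((i - Nat.log 2 l : ℕ) : ℝ) = (i : ℝ) - (Nat.log 2 l : ℕ) := by
      rw [Nat.cast_sub h1]
    rw [h5]
    calc _ ≤ _ := h2
      _ ≤ _ := h3
      _ ≤ _ := h4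
      _ = _ := by ring
  · have h2 : GG α a l (2 ^ (i + r)) ≤ GG α a (2 ^ i) (2 ^ (i + r)) := by
      apply GG_mono α a _ le_rfl
      exact (Nat.pow_le_pow_right (by norm_num) h1.le).trans (Nat.pow_log_le_self 2 hlpos)
    have h3 := le_sum_windows α a i i r hr le_rfl
    have h4 := hi3 i (by omega) le_rfl
    have h5 : ((i - Nat.log 2 l : ℕ) : ℝ) = 0 := by
      rw [Nat.sub_eq_zero_of_le h1.le, Nat.cast_zero]
    rw [h5]
    calc _ ≤ _ := h2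
      _ ≤ _ := h3
      _ ≤ _ := h4
      _ = _ := by ring

end Har
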