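import Mathlib
import Pool.Agent.Lib_helper62.Har.Scale

/-!
Products of the column bounds at a good scale.
-/

set_option autoImplicit false

namespace Har

/-- `(i - log₂ l) + 1`. -/
noncomputable def UU (i l : ℕ) : ℝ := ((i - Nat.log 2 l : ℕ) : ℝ) + 1

theorem one_le_UU (i l : ℕ) : 1 ≤ UU i l := by
  unfold UU
  have : (0 : ℝ) ≤ ((i - Nat.log 2 l : ℕ) : ℝ) := Nat.cast_nonneg _
  linarith

theorem UU_le (i l : ℕ) : UU i l ≤ i + 1 := by
  unfold UU
  have : ((i - Nat.log 2 l : ℕ) : ℝ) ≤ i := by exact_mod_cast Nat.sub_le _ _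
  linarith

theorem prod_UU_pow (i q : ℕ) (hq : q ≤ i) :
    ∏ l ∈ Finset.Ico 1 (2 ^ q), UU i l ≤ 2 ^ (2 ^ q * (i - q + 2)) := by
  induction q with
  | zero => simp; exact one_le_pow₀ (by norm_num)
  | succ q ih =>
    have ih := ih (by omega)
    rw [← Finset.prod_Ico_consecutive _ (show 1 ≤ 2 ^ q from Nat.one_le_two_pow)
      (show 2 ^ q ≤ 2 ^ (q + 1) from Nat.pow_le_pow_right (by norm_num) (by omega))]
    have h1 : ∏ l ∈ Finset.Ico (2 ^ q) (2 ^ (q + 1)), UU i l ≤ (2 ^ (i - q)) ^ (2 ^ q) := by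
      have h2 : ∀ l ∈ Finset.Ico (2 ^ q) (2 ^ (q + 1)), UU i l ≤ 2 ^ (i - q) := by
        intro l hl
        rw [Finset.mem_Ico] at hl
        have h3 : Nat.log 2 l = q := by
          apply Nat.log_eq_of_pow_le_of_lt_pow hl.1 hl.2
        unfold UU
        rw [h3]
        have h4 : i - q + 1 ≤ 2 ^ (i - q) := Nat.lt_two_pow_self
        exact_mod_cast h4
      calc ∏ l ∈ Finset.Ico (2 ^ q) (2 ^ (q + 1)), UU i l
          ≤ ∏ l ∈ Finset.Ico (2 ^ q) (2 ^ (q + 1)), (2 : ℝ) ^ (i - q) :=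
            Finset.prod_le_prod (fun l _ => zero_le_one.trans (one_le_UU i l)) h2
        _ = _ := by
            rw [Finset.prod_const, Nat.card_Ico]
            congr 1
            rw [pow_succ]; omega
    calc _ ≤ (2 : ℝ) ^ (2 ^ q * (i - q + 2)) * (2 ^ (i - q)) ^ (2 ^ q) := by
          apply mul_le_mul ih h1 _ (by positivity)
          exact Finset.prod_nonneg (fun l _ => zero_le_one.trans (one_le_UU i l))
      _ = _ := by
          rw [← pow_mul, ← pow_add]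
          congr 1
          obtain ⟨t, rfl⟩ := Nat.exists_eq_add_of_le hq
          have h5 : q + 1 + t - q = t + 1 := by omega
          have h6 : q + 1 + t - (q + 1) = t := by omega
          rw [h5, h6, pow_succ]
          ring

theorem prod_UU_le (i e : ℕ) : ∏ l ∈ Finset.Ico 1 e, UU i l ≤ 2 ^ (2 ^ (i + 1)) := by
  have h0 := prod_UU_pow i i le_rfl
  have h1 : 2 ^ i * (i - i + 2) = 2 ^ (i + 1) := by
    rw [Nat.sub_self, zero_add, pow_succ]
  rw [h1] at h0
  rcases le_total e (2 ^ i) with h2 | h2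
  · refine le_trans ?_ h0
    apply Finset.prod_le_prod_of_subset_of_one_le (Finset.Ico_subset_Ico le_rfl h2)
    · intro l _; exact zero_le_one.trans (one_le_UU i l)
    · intro l _ _; exact one_le_UU i l
  · rw [← Finset.prod_Ico_consecutive _ (show 1 ≤ 2 ^ i from Nat.one_le_two_pow) h2]
    have h3 : ∏ l ∈ Finset.Ico (2 ^ i) e, UU i l = 1 := by
      apply Finset.prod_eq_one
      intro l hl
      rw [Finset.mem_Ico] at hl
      have h4 : i ≤ Nat.log 2 l := Nat.le_log_of_pow_le (by norm_num) hl.1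
      unfold UU
      rw [Nat.sub_eq_zero_of_le h4]
      simp
    rw [h3, mul_one]
    exact h0

/-- The column bound. -/
noncomputable def FF (h : ℝ) (p i : ℕ) (δ : ℝ) (l : ℕ) : ℝ := if l < 2 ^ p then h else δ * UU i l

theorem FF_nonneg (h : ℝ) (hh : 0 ≤ h) (p i : ℕ) (δ : ℝ) (hδ : 0 ≤ δ) (l : ℕ) :
    0 ≤ FF h p i δ l := by
  unfold FF
  split_ifs
  · exact hh
  · exact mul_nonneg hδ (zero_le_one.trans (one_le_UU i l))

/-- Products over `[s, s+k)` contained in `[0, 2^q)`. -/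
theorem prod_FF_le (h : ℝ) (hh : 1 ≤ h) (p i q s k : ℕ) (hq : q ≤ i) (hsk : s + k ≤ 2 ^ q) :
    ∏ j ∈ Finset.range k, FF h p i 1 (s + j) ≤ h ^ (2 ^ p) * 2 ^ (2 ^ q * (i - q + 2)) := by
  set A : ℕ → ℝ := fun l => if l < 2 ^ p then h else 1 with hA
  set B : ℕ → ℝ := fun l => if l = 0 then 1 else UU i l with hB
  have hA1 : ∀ l, 1 ≤ A l := by
    intro l; simp only [hA]; split_ifs
    · exact hh
    · exact le_rfl
  have hB1 : ∀ l, 1 ≤ B l := by
    intro l; simp only [hB]; split_ifs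
    · exact le_rfl
    · exact one_le_UU i l
  have hFF : ∀ l, FF h p i 1 l ≤ A l * B l := by
    intro l
    unfold FF
    simp only [hA]
    split_ifs with h1
    · nlinarith [hB1 l]
    · rw [one_mul, one_mul]
      simp only [hB]
      rw [if_neg]
      intro h2
      apply h1
      rw [h2]
      positivity
  have h1 : ∏ j ∈ Finset.range k, FF h p i 1 (s + j)
      ≤ ∏ j ∈ Finset.range k, (A (s + j) * B (s + j)) :=
    Finset.prod_le_prod (fun j _ => FF_nonneg h (zero_le_one.trans hh) p i 1 zero_le_one _)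
      (fun j _ => hFF _)
  refine h1.trans ?_
  rw [Finset.prod_mul_distrib]
  apply mul_le_mul
  · have h2 : ∏ j ∈ Finset.range k, A (s + j) = ∏ l ∈ Finset.Ico s (s + k), A l := by
      rw [Finset.prod_Ico_eq_prod_range]
      simp
    rw [h2]
    simp only [hA]
    rw [Finset.prod_ite, Finset.prod_const_one, mul_one, Finset.prod_const]
    apply pow_le_pow_right₀ hh
    calc (Finset.filter (fun l => l < 2 ^ p) (Finset.Ico s (s + k))).card
        ≤ (Finset.range (2 ^ p)).card := by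
          apply Finset.card_le_card
          intro l hl
          rw [Finset.mem_filter] at hl
          exact Finset.mem_range.mpr hl.2
      _ = 2 ^ p := Finset.card_range _
  · have h2 : ∏ j ∈ Finset.range k, B (s + j) = ∏ l ∈ Finset.Ico s (s + k), B l := by
      rw [Finset.prod_Ico_eq_prod_range]
      simp
    rw [h2]
    have h3 : ∏ l ∈ Finset.Ico s (s + k), B l ≤ ∏ l ∈ Finset.Ico 0 (2 ^ q), B l := by
      apply Finset.prod_le_prod_of_subset_of_one_le (Finset.Ico_subset_Ico (Nat.zero_le _) hsk)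
      · intro l _; exact zero_le_one.trans (hB1 l)
      · intro l _ _; exact hB1 l
    refine h3.trans ?_
    rw [← Finset.prod_Ico_consecutive _ (show 0 ≤ 1 by norm_num)
      (show 1 ≤ 2 ^ q from Nat.one_le_two_pow)]
    have h4 : ∏ l ∈ Finset.Ico 0 1, B l = 1 := by simp [hB]
    rw [h4, one_mul]
    refine le_trans (le_of_eq ?_) (prod_UU_pow i q hq)
    apply Finset.prod_congr rfl
    intro l hl
    rw [Finset.mem_Ico] at hl
    simp only [hB]
    rw [if_neg (by omega)]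
  · exact Finset.prod_nonneg (fun j _ => zero_le_one.trans (hB1 _))
  · positivity

/-- Full product with a small `δ`. -/
theorem prod_FF_small (h : ℝ) (hh : 0 ≤ h) (p i k : ℕ) (δ : ℝ) (hδ : 0 ≤ δ) (hk : 2 ^ p ≤ k) :
    ∏ j ∈ Finset.range k, FF h p i δ j ≤ h ^ (2 ^ p) * (δ ^ (k - 2 ^ p) * 2 ^ (2 ^ (i + 1))) := by
  rw [Finset.range_eq_Ico, ← Finset.prod_Ico_consecutive _ (Nat.zero_le (2 ^ p)) hk]
  apply mul_le_mul
  · rw [← Finset.range_eq_Ico]
    refine le_of_eq ?_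
    rw [Finset.prod_congr rfl (g := fun _ => h), Finset.prod_const, Finset.card_range]
    intro l hl
    rw [Finset.mem_range] at hl
    unfold FF
    rw [if_pos hl]
  · have h1 : ∏ l ∈ Finset.Ico (2 ^ p) k, FF h p i δ l
        = ∏ l ∈ Finset.Ico (2 ^ p) k, (δ * UU i l) := by
      apply Finset.prod_congr rfl
      intro l hl
      rw [Finset.mem_Ico] at hl
      unfold FF
      rw [if_neg (by omega)]
    rw [h1, Finset.prod_mul_distrib, Finset.prod_const, Nat.card_Ico]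
    apply mul_le_mul_of_nonneg_left _ (pow_nonneg hδ _)
    refine le_trans ?_ (prod_UU_le i k)
    apply Finset.prod_le_prod_of_subset_of_one_le
      (Finset.Ico_subset_Ico Nat.one_le_two_pow le_rfl)
    · intro l _; exact zero_le_one.trans (one_le_UU i l)
    · intro l _ _; exact one_le_UU i l
  · exact Finset.prod_nonneg (fun j _ => FF_nonneg h hh p i δ hδ _)
  · positivity

/-- A good scale. -/
def Good (α : ℝ) (a : ℕ → ℤ) (t i p r : ℕ) (δ : ℝ) : Prop :=
  1 ≤ p ∧ (2 * t + 1) * p ≤ t * i ∧ ∀ l, 2 ^ p ≤ l → GG α a l (2 ^ (i + r)) ≤ δ * UU i l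

theorem Good.p_le {α : ℝ} {a : ℕ → ℤ} {t i p r : ℕ} {δ : ℝ} (hg : Good α a t i p r δ) :
    p ≤ i := by
  obtain ⟨h1, h2, -⟩ := hg
  rcases Nat.eq_zero_or_pos t with h | h
  · rw [h] at h2; omega
  · have h3 : t * p ≤ t * i := by
      have h4 : t * p ≤ (2 * t + 1) * p := Nat.mul_le_mul_right p (by omega)
      omega
    exact Nat.le_of_mul_le_mul_left h3 h

/-- The crude bound for all windows. -/
noncomputable def Hm (α : ℝ) (i p : ℕ) : ℝ := 3 * (1 + α) ^ 4 * 2 ^ p + i + 1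

theorem one_le_Hm (α : ℝ) (i p : ℕ) : 1 ≤ Hm α i p := by
  unfold Hm
  have h1 : 0 ≤ 3 * (1 + α) ^ 4 * 2 ^ p := by positivity
  have h2 : (0 : ℝ) ≤ i := Nat.cast_nonneg _
  linarith

theorem gg_le_const (α ξ : ℝ) (hα : 0 ≤ α) (a : ℕ → ℤ)
    (ha : ∀ n, |(a n : ℝ) - ξ * α ^ n| ≤ 1 / 2) (n : ℕ) : gg α a n ≤ 3 * (1 + α) ^ 4 := by
  have h1 := gg_le α ξ hα a n
  have h2 : ∀ k, ((a k : ℝ) - ξ * α ^ k) ^ 2 ≤ 1 / 4 := by
    intro k
    rw [← sq_abs]
    calc |(a k : ℝ) - ξ * α ^ k| ^ 2 ≤ (1 / 2) ^ 2 := by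
          have := ha k
          gcongr
      _ = 1 / 4 := by norm_num
  refine h1.trans ?_
  have h3 := h2 n
  have h4 := h2 (n + 1)
  have h5 := h2 (n + 2)
  have h6 : 0 ≤ 3 * (1 + α) ^ 4 := by positivity
  nlinarith

theorem Good.le_Hm {α : ℝ} {a : ℕ → ℤ} {t i p r : ℕ} {δ : ℝ} (hg : Good α a t i p r δ) (ξ : ℝ)
    (hα : 0 ≤ α) (ha : ∀ n, |(a n : ℝ) - ξ * α ^ n| ≤ 1 / 2) (hδ1 : δ ≤ 1) (l : ℕ) :
    GG α a l (2 ^ (i + r)) ≤ Hm α i p := by
  have hpi := hg.p_le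
  obtain ⟨hp, -, hg⟩ := hg
  have hbig : ∀ l, 2 ^ p ≤ l → GG α a l (2 ^ (i + r)) ≤ i + 1 := by
    intro l hl
    calc GG α a l (2 ^ (i + r)) ≤ δ * UU i l := hg l hl
      _ ≤ 1 * UU i l := by
          apply mul_le_mul_of_nonneg_right hδ1 (zero_le_one.trans (one_le_UU i l))
      _ ≤ i + 1 := by rw [one_mul]; exact UU_le i l
  have h0 : 0 ≤ 3 * (1 + α) ^ 4 * 2 ^ p := by positivity
  rcases le_or_gt (2 ^ p) l with h1 | h1
  · have := hbig l h1
    unfold Hm
    linarith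
  · have h2 : (2 : ℕ) ^ p ≤ 2 ^ (i + r) := Nat.pow_le_pow_right (by norm_num) (by omega)
    rw [← GG_add α a h1.le h2]
    have h3 := hbig (2 ^ p) le_rfl
    have h4 : GG α a l (2 ^ p) ≤ 3 * (1 + α) ^ 4 * 2 ^ p := by
      calc GG α a l (2 ^ p) ≤ GG α a 0 (2 ^ p) := GG_mono α a (Nat.zero_le _) le_rfl
        _ ≤ ∑ k ∈ Finset.Ico 0 (2 ^ p), 3 * (1 + α) ^ 4 :=
            Finset.sum_le_sum (fun k _ => gg_le_const α ξ hα a ha k)
        _ = _ := by
            rw [Finset.sum_const, Nat.card_Ico, nsmul_eq_mul, Nat.sub_zero]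
            push_cast
            ring
    unfold Hm
    linarith

theorem Good.le_FF {α : ℝ} {a : ℕ → ℤ} {t i p r : ℕ} {δ : ℝ} (hg : Good α a t i p r δ) (ξ : ℝ)
    (hα : 0 ≤ α) (ha : ∀ n, |(a n : ℝ) - ξ * α ^ n| ≤ 1 / 2) (hδ1 : δ ≤ 1) (l : ℕ) :
    GG α a l (2 ^ (i + r)) ≤ FF (Hm α i p) p i δ l := by
  unfold FF
  split_ifs with h
  · exact hg.le_Hm ξ hα ha hδ1 l
  · exact hg.2.2 l (by omega)

theorem FF_mono_delta (h : ℝ) (p i : ℕ) (δ δ' : ℝ) (hδ : δ ≤ δ') (l : ℕ) :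
    FF h p i δ l ≤ FF h p i δ' l := by
  unfold FF
  split_ifs
  · exact le_rfl
  · exact mul_le_mul_of_nonneg_right hδ (zero_le_one.trans (one_le_UU i l))

/-- Smallness of low powers. -/
theorem small_scale (t : ℕ) (C ε : ℝ) (hC : 0 ≤ C) (hε : 0 < ε) :
    ∃ i₀ : ℕ, ∀ i p : ℕ, i₀ ≤ i → (2 * t + 1) * p ≤ t * i →
      C * (2 : ℝ) ^ (2 * p) * ((i : ℝ) + 1) ^ 3 ≤ ε * 2 ^ i := by
  set K : ℝ := C / ε with hK
  have hK0 : 0 ≤ K := by positivity
  have h1 : ∀ᶠ i : ℕ in Filter.atTop,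
      K ^ (2 * t + 1) * ((i : ℝ) + 1) ^ (3 * (2 * t + 1)) ≤ 2 ^ i := by
    have h2 := tendsto_pow_const_div_const_pow_of_one_lt (3 * (2 * t + 1)) (one_lt_two (α := ℝ))
    have h3 := (h2.comp (Filter.tendsto_add_atTop_nat 1)).const_mul (2 * K ^ (2 * t + 1))
    rw [mul_zero] at h3
    filter_upwards [h3.eventually_lt_const zero_lt_one] with i hi
    simp only [Function.comp_apply] at hi
    rw [Nat.cast_add, Nat.cast_one, mul_div_assoc', div_lt_one (by positivity),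
      pow_succ (2 : ℝ) i] at hi
    linarith
  obtain ⟨i₀, hi₀⟩ := Filter.eventually_atTop.mp h1
  refine ⟨i₀, fun i p hi hp => ?_⟩
  have h2 := hi₀ i hi
  have h3 : (2 : ℝ) ^ (2 * p) * (K * ((i : ℝ) + 1) ^ 3) ≤ 2 ^ i := by
    apply le_of_pow_le_pow_left₀ (n := 2 * t + 1) (by omega) (by positivity)
    calc ((2 : ℝ) ^ (2 * p) * (K * ((i : ℝ) + 1) ^ 3)) ^ (2 * t + 1)
        = 2 ^ (2 * ((2 * t + 1) * p)) * (K ^ (2 * t + 1) * ((i : ℝ) + 1) ^ (3 * (2 * t + 1))) := by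
          rw [mul_pow, mul_pow, ← pow_mul, ← pow_mul]
          congr 2
          ring
      _ ≤ 2 ^ (2 * (t * i)) * 2 ^ i := by
          apply mul_le_mul _ h2 (by positivity) (by positivity)
          exact pow_le_pow_right₀ (by norm_num) (Nat.mul_le_mul_left 2 hp)
      _ = (2 ^ i) ^ (2 * t + 1) := by
          rw [← pow_add, ← pow_mul]
          congr 1
          ring
  have h4 : C = K * ε := by rw [hK]; field_simp
  calc C * (2 : ℝ) ^ (2 * p) * ((i : ℝ) + 1) ^ 3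
      = ε * (2 ^ (2 * p) * (K * ((i : ℝ) + 1) ^ 3)) := by rw [h4]; ring
    _ ≤ ε * 2 ^ i := by gcongr

end Har
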