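import Mathlib
import Pool.Agent.Lib_helper62.Har.Prod
import Pool.Agent.Lib_helper62.Har.Rigid

/-!
The recurrence carried by a good scale.
-/

set_option autoImplicit false

namespace Har

open Matrix Polynomial

section general

variable {K : Type*} [Field K]

/-- A singular Hankel matrix gives a nonzero polynomial of degree `< d`. -/
theorem exists_act_zero (a : ℕ → K) (n d : ℕ) (h : (hank a n d).det = 0) :
    ∃ R : K[X], R ≠ 0 ∧ R.degree < (d : WithBot ℕ) ∧ ∀ r, r < d → act R a (n + r) = 0 := by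
  rw [← Matrix.exists_mulVec_eq_zero_iff] at h
  obtain ⟨v, hv0, hv⟩ := h
  let V : K[X] := ∑ i : Fin d, C (v i) * X ^ (i : ℕ)
  have hVdeg : V.degree < ((d : ℕ) : WithBot ℕ) := degree_sum_fin_lt v
  have hVcoeff : ∀ i : Fin d, V.coeff i = v i := by
    intro i
    simp only [V, finsetSum_coeff, coeff_C_mul, coeff_X_pow]
    rw [Finset.sum_eq_single i]
    · simp
    · intro b _ hb
      rw [if_neg (by intro h; exact hb (Fin.ext h.symm)), mul_zero]
    · intro h; exact absurd (Finset.mem_univ i) h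
  have hVne : V ≠ 0 := by
    intro h
    apply hv0
    funext i
    rw [← hVcoeff i, h]
    simp
  have hVnat : V.natDegree < d := (natDegree_lt_iff_degree_lt hVne).mpr hVdeg
  refine ⟨V, hVne, hVdeg, ?_⟩
  intro r' hr'
  rw [act_apply_of_lt V a (n + r') d hVnat, Finset.sum_range]
  have h1 := congrFun hv ⟨r', hr'⟩
  simp only [Matrix.mulVec, dotProduct, hank, Matrix.of_apply, Pi.zero_apply] at h1
  rw [← h1]
  apply Finset.sum_congr rfl
  intro i _
  rw [hVcoeff]
  ring

/-- Forward propagation of zeros. -/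
theorem forward_zero (P : K[X]) (hP : P.Monic) (y : ℕ → K) (n S : ℕ)
    (h0 : ∀ r, r < P.natDegree → y (n + r) = 0) (hS : ∀ s, s < S → act P y (n + s) = 0) :
    ∀ r, r < S + P.natDegree → y (n + r) = 0 := by
  intro r
  induction r using Nat.strong_induction_on with
  | _ r ih =>
    intro hr
    rcases lt_or_ge r P.natDegree with h1 | h1
    · exact h0 r h1
    · obtain ⟨s, rfl⟩ := Nat.exists_eq_add_of_le' h1
      have h2 := hS s (by omega)
      rw [act_apply, Finset.sum_range_succ, Finset.sum_eq_zero, zero_add, hP.coeff_natDegree,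
        one_mul] at h2
      · rw [← h2]; congr 1; ring
      · intro u hu
        have hu' : u < P.natDegree := by simpa using hu
        rw [add_assoc, ih (s + u) (by omega) (by omega), mul_zero]

/-- Backward propagation of zeros. -/
theorem backward_zero (P : K[X]) (hP0 : P.coeff 0 ≠ 0) (y : ℕ → K) (n L : ℕ)
    (h0 : ∀ r, r < P.natDegree → y (n + L + r) = 0)
    (hS : ∀ s, s < L → act P y (n + s) = 0) :
    ∀ r, r < L + P.natDegree → y (n + r) = 0 := by
  induction L with
  | zero => intro r hr; have := h0 r (by omega); simpa using this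
  | succ L ih =>
    have h1 : y (n + L) = 0 := by
      have h2 := hS L (by omega)
      rw [act_apply, Finset.sum_range_succ', Finset.sum_eq_zero, zero_add, add_zero] at h2
      · exact (mul_eq_zero.mp h2).resolve_left hP0
      · intro u hu
        have hu' : u < P.natDegree := by simpa using hu
        have h3 : n + L + (u + 1) = n + (L + 1) + u := by ring
        rw [h3, h0 u hu', mul_zero]
    have h4 := ih (fun r hr => by
      rcases Nat.eq_zero_or_pos r with h5 | h5
      · rw [h5, add_zero]; exact h1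
      · have h6 : n + L + r = n + (L + 1) + (r - 1) := by omega
        rw [h6]
        exact h0 (r - 1) (by omega)) (fun s hs => hS s (by omega))
    intro r hr
    rcases lt_or_ge r (L + P.natDegree) with h5 | h5
    · exact h4 r h5
    · rcases Nat.eq_zero_or_pos P.natDegree with h7 | h7
      · have h6 : r = L := by omega
        rw [h6]; exact h1
      · have h6 : n + r = n + (L + 1) + (P.natDegree - 1) := by omega
        rw [h6]
        exact h0 _ (by omega)

/-- The Hankel determinant of order `deg P` stays nonzero. -/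
theorem hank_ne_zero_of_le (P : K[X]) (hP0 : P.coeff 0 ≠ 0) (a : ℕ → K)
    (j L M : ℕ) (hd : (hank a j P.natDegree).det ≠ 0)
    (hPa : ∀ n, j ≤ n → n < j + M → act P a n = 0) (hL : L + P.natDegree ≤ M) :
    (hank a (j + L) P.natDegree).det ≠ 0 := by
  intro hcon
  obtain ⟨R, hR0, hRdeg, hRa⟩ := exists_act_zero a (j + L) P.natDegree hcon
  have hRn : R.natDegree < P.natDegree := (natDegree_lt_iff_degree_lt hR0).mpr hRdeg
  have h1 : ∀ s, s < L → act P (act R a) (j + s) = 0 := by
    intro s hs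
    rw [act_comm]
    apply act_eq_zero_of
    intro u hu
    apply hPa _ (by omega) (by omega)
  have h2 := backward_zero P hP0 (act R a) j L hRa h1
  exact hR0 (eq_zero_of_act a j P.natDegree hd R hRdeg (fun r hr => h2 r (by omega)))

end general

/-- Uniqueness forces the order to tend to infinity. -/
theorem degree_large (α ξ : ℝ) (hα : 1 < α) (hξ : ξ ≠ 0) (htr : ¬ IsIntegral ℤ α) (a : ℕ → ℤ)
    (ha : ∀ n, |(a n : ℝ) - ξ * α ^ n| ≤ 1 / 2) (D₀ : ℕ) :
    ∃ R₀ : ℕ, ∀ (P : ℤ[X]) (j M : ℕ), R₀ ≤ M → P.Monic →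
      (∀ n, j ≤ n → n < j + M → act P a n = 0) → (hank a j P.natDegree).det ≠ 0 →
      D₀ < j + P.natDegree := by
  have key : ∀ j d : ℕ, ∃ R : ℕ, ∀ (P : ℤ[X]) (M : ℕ), R ≤ M → P.Monic → P.natDegree = d →
      (∀ n, j ≤ n → n < j + M → act P a n = 0) → (hank a j d).det ≠ 0 → False := by
    intro j d
    by_contra hcon
    push Not at hcon
    obtain ⟨P, M, hM, hPm, hPd, hPa, hdet, -⟩ := hcon d
    -- `P` annihilates everything from `j`
    have hall : ∀ n, act P a (j + n) = 0 := by
      intro n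
      obtain ⟨Q, M', hM', hQm, hQd, hQa, -⟩ := hcon (d + n + 1)
      have hPQ : P.map (Int.castRingHom ℚ) - Q.map (Int.castRingHom ℚ) = 0 := by
        apply eq_zero_of_act (fun k => (a k : ℚ)) j d
        · rw [hank_det_castQ]; exact_mod_cast hdet
        · have h1 := degree_sub_lt_left (p := P.map (Int.castRingHom ℚ))
            (q := Q.map (Int.castRingHom ℚ)) (by
              rw [degree_eq_natDegree (hPm.map _).ne_zero,
                degree_eq_natDegree (hQm.map _).ne_zero, hPm.natDegree_map, hQm.natDegree_map,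
                hPd, hQd]) (hPm.map _).ne_zero (by
              rw [(hPm.map _).leadingCoeff, (hQm.map _).leadingCoeff])
          rwa [degree_eq_natDegree (hPm.map _).ne_zero, hPm.natDegree_map, hPd] at h1
        · intro r hr
          rw [act_sub, Pi.sub_apply, act_cast P hPm, act_cast Q hQm, hPa _ (by omega) (by omega),
            hQa _ (by omega) (by omega)]
          simp
      have hPQ' : P = Q := by
        apply Polynomial.map_injective (Int.castRingHom ℚ) Int.cast_injective
        exact sub_eq_zero.mp hPQ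
      rw [hPQ']
      exact hQa _ (by omega) (by omega)
    apply htr
    apply root_of_act P hPm (fun n => a (j + n)) α (ξ * α ^ j) hα (by positivity) (1 / 2)
    · intro n
      have := ha (j + n)
      rw [pow_add] at this
      rw [mul_assoc]
      exact this
    · intro n
      have h1 := hall n
      rw [act_apply] at h1 ⊢
      rw [← h1]
      apply Finset.sum_congr rfl
      intro i _
      rw [add_assoc]
  choose R hR using key
  refine ⟨∑ j ∈ Finset.range (D₀ + 1), ∑ d ∈ Finset.range (D₀ + 1), R j d, ?_⟩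
  intro P j M hM hPm hPa hdet
  by_contra hcon
  push Not at hcon
  apply hR j P.natDegree P M _ hPm rfl hPa hdet
  calc R j P.natDegree ≤ ∑ d ∈ Finset.range (D₀ + 1), R j d := by
        apply Finset.single_le_sum (f := fun d => R j d) (fun _ _ => Nat.zero_le _)
        rw [Finset.mem_range]; omega
    _ ≤ ∑ j ∈ Finset.range (D₀ + 1), ∑ d ∈ Finset.range (D₀ + 1), R j d := by
        apply Finset.single_le_sum (f := fun j => ∑ d ∈ Finset.range (D₀ + 1), R j d)
          (fun _ _ => Nat.zero_le _)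
        rw [Finset.mem_range]; omega
    _ ≤ M := hM

theorem sum_b_le (α : ℝ) (a : ℕ → ℤ) (n L : ℕ) :
    ∑ i ∈ Finset.range L, dif α (fun k => (a k : ℝ)) (n + i) ^ 2 ≤ GG α a n (n + L) := by
  unfold GG
  rw [Finset.sum_Ico_eq_sum_range, Nat.add_sub_cancel_left]
  apply Finset.sum_le_sum
  intro i _
  unfold gg
  have := sq_nonneg (dif α (dif α (fun k => (a k : ℝ))) (n + i))
  linarith

theorem sum_c_le (α : ℝ) (a : ℕ → ℤ) (n L : ℕ) :
    dif α (fun k => (a k : ℝ)) n ^ 2
      + ∑ i ∈ Finset.range L, dif α (dif α (fun k => (a k : ℝ))) (n + i) ^ 2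
      ≤ GG α a n (n + L + 1) := by
  have h1 : GG α a n (n + L + 1) = gg α a n + GG α a (n + 1) (n + L + 1) := by
    rw [← GG_add α a (Nat.le_succ n) (by omega)]
    congr 1
    unfold GG
    simp
  have h2 : ∑ i ∈ Finset.range L, dif α (dif α (fun k => (a k : ℝ))) (n + i) ^ 2
      ≤ dif α (dif α (fun k => (a k : ℝ))) n ^ 2 + GG α a (n + 1) (n + L + 1) := by
    rcases L with _ | L
    · simp only [Finset.range_zero, Finset.sum_empty]
      have := GG_nonneg α a (n + 1) (n + 0 + 1)
      positivity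
    · rw [Finset.sum_range_succ', add_zero, add_comm]
      gcongr
      calc ∑ i ∈ Finset.range L, dif α (dif α (fun k => (a k : ℝ))) (n + (i + 1)) ^ 2
          ≤ ∑ i ∈ Finset.range L, gg α a (n + 1 + i) := by
            apply Finset.sum_le_sum
            intro i _
            unfold gg
            have h3 : n + (i + 1) = n + 1 + i := by ring
            rw [h3]
            have := sq_nonneg (dif α (fun k => (a k : ℝ)) (n + 1 + i))
            linarith
        _ = GG α a (n + 1) (n + 1 + L) := by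
            unfold GG
            rw [Finset.sum_Ico_eq_sum_range, Nat.add_sub_cancel_left]
        _ ≤ _ := GG_mono α a le_rfl (by omega)
  rw [h1]
  unfold gg
  linarith

/-- Bound for the Hankel determinants at `0`. -/
theorem det_zero_bound (α ξ : ℝ) (hα : 0 ≤ α) (a : ℕ → ℤ)
    (ha : ∀ n, |(a n : ℝ) - ξ * α ^ n| ≤ 1 / 2) (t i p r' : ℕ) (δ : ℝ) (hδ1 : δ ≤ 1)
    (hg : Good α a t i p (r' + 1) δ) (m : ℕ) (hm : m + 1 ≤ 2 ^ (i + r')) :
    (((hank a 0 (m + 1)).det : ℤ) : ℝ) ^ 2 ≤ ((a 0 : ℝ) ^ 2 + Hm α i p)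
      * ∏ j ∈ Finset.range m, FF (Hm α i p) p i δ j := by
  rw [← hank_det_cast]
  have hpow : 2 * (m + 1) ≤ 2 ^ (i + (r' + 1)) := by
    rw [← add_assoc, pow_succ]
    omega
  refine (hank_det_sq_le (fun k => (a k : ℝ)) α 0 (m + 1)
    (fun j => if j = 0 then (a 0 : ℝ) ^ 2 + Hm α i p else FF (Hm α i p) p i δ (j - 1))
    ?_ ?_).trans ?_
  · simp only [if_true, Nat.add_sub_cancel]
    have h1 := sum_b_le α a 0 m
    have h2 : GG α a 0 (0 + m) ≤ GG α a 0 (2 ^ (i + (r' + 1))) := GG_mono α a le_rfl (by omega)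
    have h3 := hg.le_Hm ξ hα ha hδ1 0
    linarith
  · intro j hj
    simp only [Nat.add_eq_zero_iff, one_ne_zero, and_false, if_false, Nat.add_sub_cancel]
    have h1 := sum_c_le α a (0 + j) m
    have h2 : GG α a (0 + j) (0 + j + m + 1) ≤ GG α a (0 + j) (2 ^ (i + (r' + 1))) :=
      GG_mono α a le_rfl (by omega)
    have h3 := hg.le_FF ξ hα ha hδ1 (0 + j)
    rw [zero_add] at h1 h2 h3 ⊢
    linarith
  · rw [Finset.prod_range_succ']
    simp only [if_true, Nat.add_eq_zero_iff, one_ne_zero, and_false, if_false,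
      Nat.add_sub_cancel]
    rw [mul_comm]

theorem natAbs_lt_of_sq_lt (D : ℤ) (N : ℕ) (h : (D : ℝ) ^ 2 < 2 ^ (2 * N)) :
    D.natAbs < 2 ^ N := by
  have h1 : (D.natAbs : ℝ) ^ 2 < (2 ^ N) ^ 2 := by
    have h2 : (D.natAbs : ℝ) ^ 2 = (D : ℝ) ^ 2 := by
      rw [Nat.cast_natAbs, Int.cast_abs, sq_abs]
    rw [h2, ← pow_mul, mul_comm N 2]
    exact h
  have h3 : (D.natAbs : ℝ) < 2 ^ N := lt_of_pow_lt_pow_left₀ 2 (by positivity) h1
  exact_mod_cast h3

/-- A uniform power of two above `Hm`. -/
theorem Hm_le_pow (α : ℝ) (B : ℕ) (hα : 0 ≤ α) (hB : 3 * (1 + α) ^ 4 + 1 ≤ 2 ^ B) (i p : ℕ) :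
    Hm α i p ≤ 2 ^ (p + i + B) := by
  unfold Hm
  have h1 : (i : ℝ) + 1 ≤ 2 ^ i := by
    have : i + 1 ≤ 2 ^ i := Nat.lt_two_pow_self
    exact_mod_cast this
  have h2 : (1 : ℝ) ≤ 2 ^ i := one_le_pow₀ (by norm_num)
  have h3 : (1 : ℝ) ≤ 2 ^ p := one_le_pow₀ (by norm_num)
  have h4 : 0 ≤ 3 * (1 + α) ^ 4 := by positivity
  calc 3 * (1 + α) ^ 4 * 2 ^ p + i + 1 ≤ 3 * (1 + α) ^ 4 * 2 ^ p * 2 ^ i + 2 ^ p * 2 ^ i := by
        have h5 : 3 * (1 + α) ^ 4 * 2 ^ p ≤ 3 * (1 + α) ^ 4 * 2 ^ p * 2 ^ i :=
          le_mul_of_one_le_right (by positivity) h2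
        have h6 : (2 : ℝ) ^ i ≤ 2 ^ p * 2 ^ i := le_mul_of_one_le_left (by positivity) h3
        linarith
    _ = (3 * (1 + α) ^ 4 + 1) * (2 ^ p * 2 ^ i) := by ring
    _ ≤ 2 ^ B * (2 ^ p * 2 ^ i) := by gcongr
    _ = 2 ^ (p + i + B) := by rw [← pow_add, ← pow_add]; congr 1; ring

end Har
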