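import Mathlib
import Pool.Agent.Lib_helper62.Har.Core

/-!
A form of Pisot's theorem for integer sequences `φ` with `Σ (φ_{n+1} - α φ_n)^2 < ∞`.
-/

set_option autoImplicit false

namespace Har

open Matrix Polynomial

theorem act_tendsto_zero (Q : ℝ[X]) (b : ℕ → ℝ)
    (hb : Filter.Tendsto b Filter.atTop (nhds 0)) :
    Filter.Tendsto (act Q b) Filter.atTop (nhds 0) := by
  have h : act Q b = fun n => ∑ i ∈ Finset.range (Q.natDegree + 1), Q.coeff i * b (n + i) := by
    funext n; exact act_apply Q b n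
  rw [h]
  have h0 : (0 : ℝ) = ∑ i ∈ Finset.range (Q.natDegree + 1), Q.coeff i * 0 := by simp
  rw [h0]
  apply tendsto_finsetSum
  intro i _
  apply Filter.Tendsto.const_mul
  exact hb.comp (Filter.tendsto_add_atTop_nat i)

/-- Pisot's theorem in the form needed: an integer sequence with square summable
`φ_{n+1} - α φ_n` is eventually zero unless `α` is algebraic. -/
theorem pisot_type (α : ℝ) (hα : 1 < α) (φ : ℕ → ℤ) (B : ℝ)
    (h : ∀ N, (φ 0 : ℝ) ^ 2
      + ∑ n ∈ Finset.range N, (dif α (fun k => (φ k : ℝ)) n) ^ 2 ≤ B) :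
    IsAlgebraic ℚ α ∨ ∃ D, ∀ n, D ≤ n → φ n = 0 := by
  set φr : ℕ → ℝ := fun k => (φ k : ℝ) with hφr
  set b := dif α φr with hb
  set c := dif α b with hc
  have hsum : ∀ N, ∑ n ∈ Finset.range N, b n ^ 2 ≤ B := by
    intro N
    have := h N
    have := sq_nonneg (φ 0 : ℝ)
    linarith
  have hB : 0 ≤ B := le_trans (by simp) (hsum 0)
  have hsummable : Summable (fun n => b n ^ 2) :=
    summable_of_sum_range_le (fun n => sq_nonneg _) hsum
  have hb0 : Filter.Tendsto b Filter.atTop (nhds 0) := by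
    have h1 := hsummable.tendsto_atTop_zero
    have h2 : Filter.Tendsto (fun n => Real.sqrt (b n ^ 2)) Filter.atTop (nhds (Real.sqrt 0)) :=
      (Real.continuous_sqrt.tendsto 0).comp h1
    rw [Real.sqrt_zero] at h2
    simp_rw [Real.sqrt_sq_eq_abs] at h2
    exact (tendsto_zero_iff_abs_tendsto_zero b).mpr h2
  -- tails
  let t : ℕ → ℝ := fun j => ∑' k, b (k + j) ^ 2
  have ht0 : Filter.Tendsto t Filter.atTop (nhds 0) :=
    tendsto_sum_nat_add (fun n => b n ^ 2)
  have hshift : ∀ j, Summable (fun k => b (k + j) ^ 2) := fun j =>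
    (summable_nat_add_iff j).mpr hsummable
  have htail : ∀ j L, ∑ i ∈ Finset.range L, b (j + i) ^ 2 ≤ t j := by
    intro j L
    have h1 := (hshift j).sum_le_tsum (Finset.range L) (fun i _ => sq_nonneg _)
    refine le_trans (le_of_eq ?_) h1
    apply Finset.sum_congr rfl
    intro i _
    rw [add_comm]
  have htnn : ∀ j, 0 ≤ t j := fun j => tsum_nonneg (fun k => sq_nonneg _)
  have htmono : ∀ j, t (j + 1) ≤ t j := by
    intro j
    have h1 : t j = b j ^ 2 + t (j + 1) := by
      have h2 := (hshift j).tsum_eq_zero_add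
      simp only [t]
      rw [h2]
      congr 1
      · simp
      · apply tsum_congr
        intro k
        have : k + 1 + j = k + (j + 1) := by ring
        rw [this]
    have := sq_nonneg (b j)
    linarith
  set Cc : ℝ := 1 + 2 * (1 + α) ^ 2 with hC
  have hCpos : 0 < Cc := by positivity
  have hcol : ∀ j L, b j ^ 2 + ∑ i ∈ Finset.range L, c (j + i) ^ 2 ≤ Cc * t j := by
    intro j L
    have h1 : b j ^ 2 ≤ t j := by
      have := htail j 1
      simpa using this
    have h2 : ∀ k, c k ^ 2 ≤ (1 + α) ^ 2 * (b (k + 1) ^ 2 + b k ^ 2) := by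
      intro k
      simp only [hc, dif]
      nlinarith [sq_nonneg (b (k + 1) + b k), sq_nonneg (b (k + 1)), sq_nonneg (b k),
        mul_nonneg (by linarith : (0 : ℝ) ≤ α) (sq_nonneg (b (k + 1) + b k)),
        mul_nonneg (by linarith : (0 : ℝ) ≤ α) (sq_nonneg (b (k + 1))),
        mul_nonneg (by linarith : (0 : ℝ) ≤ α) (sq_nonneg (b k)),
        mul_nonneg (mul_nonneg (by linarith : (0 : ℝ) ≤ α) (by linarith : (0 : ℝ) ≤ α))
          (sq_nonneg (b (k + 1)))]
    have h3 : ∑ i ∈ Finset.range L, c (j + i) ^ 2 ≤ (1 + α) ^ 2 * (t (j + 1) + t j) := by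
      calc ∑ i ∈ Finset.range L, c (j + i) ^ 2
          ≤ ∑ i ∈ Finset.range L, (1 + α) ^ 2 * (b (j + i + 1) ^ 2 + b (j + i) ^ 2) :=
            Finset.sum_le_sum (fun i _ => h2 (j + i))
        _ = (1 + α) ^ 2 * (∑ i ∈ Finset.range L, b (j + 1 + i) ^ 2
            + ∑ i ∈ Finset.range L, b (j + i) ^ 2) := by
            rw [← Finset.mul_sum, Finset.sum_add_distrib]
            congr 2
            apply Finset.sum_congr rfl
            intro i _
            have : j + i + 1 = j + 1 + i := by ring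
            rw [this]
        _ ≤ _ := by
            have := htail (j + 1) L
            have := htail j L
            gcongr
    have h4 := htmono j
    have h5 : (1 + α) ^ 2 * (t (j + 1) + t j) ≤ (1 + α) ^ 2 * (t j + t j) := by gcongr
    rw [hC]
    nlinarith
  have hdet : ∀ m, (hank φr 0 (m + 1)).det ^ 2 ≤ B * ∏ j ∈ Finset.range m, Cc * t j := by
    intro m
    refine (hank_det_sq_le φr α 0 (m + 1)
      (fun j => if j = 0 then B else Cc * t (j - 1)) ?_ ?_).trans ?_
    · simp only [if_true]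
      have := h (m + 1 - 1)
      simpa using this
    · intro j _
      simp only [Nat.add_eq_zero_iff, one_ne_zero, and_false, if_false, Nat.add_sub_cancel]
      have := hcol (0 + j) (m + 1 - 1)
      simpa using this
    · rw [Finset.prod_range_succ']
      simp only [if_true, Nat.add_eq_zero_iff, one_ne_zero, and_false, if_false,
        Nat.add_sub_cancel]
      rw [mul_comm]
  -- the product tends to zero
  have hprod : Filter.Tendsto (fun m => B * ∏ j ∈ Finset.range m, Cc * t j) Filter.atTop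
      (nhds 0) := by
    have h1 : ∀ᶠ j in Filter.atTop, Cc * t j ≤ 1 / 2 := by
      have h2 : Filter.Tendsto (fun j => Cc * t j) Filter.atTop (nhds 0) := by
        have := ht0.const_mul Cc
        simpa using this
      exact h2.eventually_le_const (by norm_num)
    obtain ⟨J, hJ⟩ := Filter.eventually_atTop.mp h1
    set Z : ℝ := B * ∏ j ∈ Finset.range J, Cc * t j with hZ
    have hZnn : 0 ≤ Z := mul_nonneg hB (Finset.prod_nonneg (fun j _ => by
      have := htnn j; positivity))
    rw [← Filter.tendsto_add_atTop_iff_nat J]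
    have h3 : ∀ m, B * ∏ j ∈ Finset.range (m + J), Cc * t j ≤ Z * (1 / 2) ^ m := by
      intro m
      induction m with
      | zero => simp [hZ]
      | succ m ih =>
        have h4 : m + 1 + J = (m + J) + 1 := by ring
        rw [h4, Finset.prod_range_succ, ← mul_assoc]
        calc (B * ∏ j ∈ Finset.range (m + J), Cc * t j) * (Cc * t (m + J))
            ≤ (Z * (1 / 2) ^ m) * (1 / 2) := by
              apply mul_le_mul ih (hJ (m + J) (by omega)) (by have := htnn (m + J); positivity)
                (by positivity)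
          _ = _ := by ring
    refine squeeze_zero (fun m => ?_) h3 ?_
    · exact mul_nonneg hB (Finset.prod_nonneg (fun j _ => by
        have := htnn j; positivity))
    · have := (tendsto_pow_atTop_nhds_zero_of_lt_one (r := (1 / 2 : ℝ)) (by norm_num)
        (by norm_num)).const_mul Z
      simpa using this
  obtain ⟨m₀, hm₀⟩ := Filter.eventually_atTop.mp (hprod.eventually_lt_const zero_lt_one)
  have hvanish : ∀ m, m₀ + 1 ≤ m → (hank φ 0 m).det = 0 := by
    intro m hm
    obtain ⟨m', rfl⟩ := Nat.exists_eq_add_of_le' (show 1 ≤ m by omega)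
    have h1 := lt_of_le_of_lt (hdet m') (hm₀ m' (by omega))
    have h3 : (((hank φ 0 (m' + 1)).det : ℤ) : ℝ) ^ 2 < 1 := by
      rw [← hank_det_cast]
      exact h1
    have h4 : (hank φ 0 (m' + 1)).det ^ 2 < 1 := by exact_mod_cast h3
    have h5 : (hank φ 0 (m' + 1)).det ^ 2 = 0 := by
      have := sq_nonneg (hank φ 0 (m' + 1)).det
      omega
    exact pow_eq_zero_iff (two_ne_zero) |>.mp h5
  obtain ⟨d, hd0, hdmax⟩ : ∃ d, (hank φ 0 d).det ≠ 0 ∧ ∀ m, d < m → (hank φ 0 m).det = 0 := by
    classical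
    let p : ℕ → Prop := fun m => (hank φ 0 m).det ≠ 0
    have hp0 : p 0 := by simp [p]
    refine ⟨Nat.findGreatest p m₀, ?_, ?_⟩
    · exact Nat.findGreatest_spec (P := p) (Nat.zero_le _) hp0
    · intro m hm1
      rcases le_or_gt m m₀ with h1 | h1
      · by_contra hne
        exact Nat.findGreatest_is_greatest hm1 h1 hne
      · exact hvanish m (by omega)
  have hd0q : (hank (fun k => (φ k : ℚ)) 0 d).det ≠ 0 := by
    rw [hank_det_castQ]; exact_mod_cast hd0
  obtain ⟨P, hPm, hPd, hP0⟩ := exists_gen (fun k => (φ k : ℚ)) 0 d hd0q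
  have hPa : ∀ r, act P (fun k => (φ k : ℚ)) r = 0 := by
    intro r
    have := kronecker_of_gen (fun k => (φ k : ℚ)) 0 d (r + 1) hd0q (fun m hm1 _ => by
      rw [hank_det_castQ, hdmax m hm1, Int.cast_zero]) P hPm hPd hP0 r (by omega)
    simpa using this
  set Pr : ℝ[X] := P.map (algebraMap ℚ ℝ) with hPr
  have hPrm : Pr.Monic := hPm.map _
  have hPra : ∀ r, act Pr φr r = 0 := by
    intro r
    have h1 := hPa r
    rw [act_apply] at h1 ⊢
    rw [hPr, hPm.natDegree_map]
    have h2 := congrArg (algebraMap ℚ ℝ) h1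
    rw [map_zero, map_sum] at h2
    rw [← h2]
    apply Finset.sum_congr rfl
    intro i _
    rw [coeff_map, map_mul]
    simp [hφr]
  by_cases hroot : Pr.eval α = 0
  · left
    refine ⟨P, hPm.ne_zero, ?_⟩
    rw [aeval_def, eval₂_eq_eval_map]
    exact hroot
  · right
    set Q := Pr /ₘ (X - C α) with hQ
    have hdiv : C (Pr.eval α) + (X - C α) * Q = Pr := by
      have := modByMonic_add_div Pr (X - C α)
      rwa [modByMonic_X_sub_C_eq_C_eval] at this
    have hφ : ∀ n, φr n = - act Q b n / Pr.eval α := by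
      intro n
      have h1 := hPra n
      rw [← hdiv, act_add, Pi.add_apply, act_C, mul_comm (X - C α), act_mul, act_sub_C] at h1
      field_simp
      linarith
    have hφ0 : Filter.Tendsto φr Filter.atTop (nhds 0) := by
      have h1 := ((act_tendsto_zero Q b hb0).neg).div_const (Pr.eval α)
      rw [neg_zero, zero_div] at h1
      exact h1.congr (fun n => (hφ n).symm)
    have h1 : ∀ᶠ n in Filter.atTop, |φr n| < 1 := by
      have := (tendsto_zero_iff_abs_tendsto_zero φr).mp hφ0
      exact this.eventually_lt_const zero_lt_one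
    obtain ⟨D, hD⟩ := Filter.eventually_atTop.mp h1
    refine ⟨D, fun n hn => ?_⟩
    have h2 := hD n hn
    have h3 : |φ n| < 1 := by
      simp only [hφr] at h2
      exact_mod_cast h2
    exact Int.abs_lt_one_iff.mp h3

/-- Sharp form: with the bound `1 + α²` only `±1` is excluded. -/
theorem pisot_sharp (α : ℝ) (hα : 1 < α) (φ : ℕ → ℤ) (h0 : φ 0 ≠ 0)
    (hne : ¬ (φ 0 ^ 2 = 1 ∧ φ 1 = 0))
    (h : ∀ N, (φ 0 : ℝ) ^ 2
      + ∑ n ∈ Finset.range N, (dif α (fun k => (φ k : ℝ)) n) ^ 2 ≤ 1 + α ^ 2) :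
    IsAlgebraic ℚ α := by
  rcases pisot_type α hα φ (1 + α ^ 2) h with h1 | ⟨D, hD⟩
  · exact h1
  exfalso
  classical
  -- last nonzero index
  let p : ℕ → Prop := fun n => φ n ≠ 0
  set N := Nat.findGreatest p D with hN
  have hN1 : φ N ≠ 0 := Nat.findGreatest_spec (P := p) (Nat.zero_le D) h0
  have hN2 : ∀ n, N < n → φ n = 0 := by
    intro n hn
    rcases le_or_gt n D with h1 | h1
    · by_contra hne
      exact Nat.findGreatest_is_greatest hn h1 hne
    · exact hD n h1.le
  have h2 := h (N + 1)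
  rw [Finset.sum_range_succ] at h2
  have h3 : dif α (fun k => (φ k : ℝ)) N = - α * φ N := by
    simp only [dif]
    rw [hN2 (N + 1) (by omega)]
    simp
  rw [h3] at h2
  have h4 : (1 : ℝ) ≤ (φ N : ℝ) ^ 2 := by
    have : 1 ≤ φ N ^ 2 := by
      have : 0 < φ N ^ 2 := by positivity
      omega
    exact_mod_cast this
  have h5 : (1 : ℝ) ≤ (φ 0 : ℝ) ^ 2 := by
    have : 1 ≤ φ 0 ^ 2 := by
      have : 0 < φ 0 ^ 2 := by positivity
      omega
    exact_mod_cast this
  have h6 : 0 ≤ ∑ n ∈ Finset.range N, dif α (fun k => (φ k : ℝ)) n ^ 2 :=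
    Finset.sum_nonneg (fun i _ => sq_nonneg _)
  have hα2 : 1 < α ^ 2 := by nlinarith
  have h7 : (-α * (φ N : ℝ)) ^ 2 = α ^ 2 * (φ N : ℝ) ^ 2 := by ring
  rw [h7] at h2
  have h8 : (φ 0 : ℝ) ^ 2 = 1 := by nlinarith
  have h9 : (φ N : ℝ) ^ 2 = 1 := by nlinarith
  have h10 : ∑ n ∈ Finset.range N, dif α (fun k => (φ k : ℝ)) n ^ 2 = 0 := by
    rw [h8, h9] at h2
    linarith
  have h11 : ∀ n, n < N → dif α (fun k => (φ k : ℝ)) n = 0 := by
    intro n hn
    have := (Finset.sum_eq_zero_iff_of_nonneg (fun i _ => sq_nonneg _)).mp h10 n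
      (Finset.mem_range.mpr hn)
    exact pow_eq_zero_iff (two_ne_zero) |>.mp this
  have h12 : ∀ n, n ≤ N → (φ n : ℝ) = α ^ n * φ 0 := by
    intro n
    induction n with
    | zero => intro _; simp
    | succ n ih =>
      intro hn
      have h13 := h11 n (by omega)
      simp only [dif] at h13
      have h14 := ih (by omega)
      rw [pow_succ]
      have : (φ (n + 1) : ℝ) = α * φ n := by linarith
      rw [this, h14]
      ring
  have h13 := h12 N le_rfl
  have h14 : (α ^ N) ^ 2 = 1 := by
    have : (φ N : ℝ) ^ 2 = (α ^ N) ^ 2 * (φ 0 : ℝ) ^ 2 := by rw [h13]; ring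
    rw [h9, h8, mul_one] at this
    exact this.symm
  have hNz : N = 0 := by
    by_contra hNe
    have h15 : 1 < α ^ N := one_lt_pow₀ hα hNe
    nlinarith
  apply hne
  constructor
  · exact_mod_cast h8
  · exact hN2 1 (by omega)

end Har
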