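import Mathlib
import Pool.Agent.Lib_helper62.Har.Pisot

/-!
Compactness: integer power series which nearly satisfy the extremal inequality do not exist
when `α` is transcendental.
-/

set_option autoImplicit false

namespace Har

/-- The data extracted from a short multiple of a non-reciprocal polynomial. -/
def Bad (α θ : ℝ) (φ : ℕ → ℤ) : Prop :=
  ∃ W e : ℕ → ℝ,
    (∀ n, W n = (φ n : ℝ) - (if n = 0 then 0 else α * (φ (n - 1) : ℝ))
      + ∑ m ∈ Finset.range (n + 1), e m * (φ (n - m) : ℝ)) ∧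
    (∀ N, ∑ n ∈ Finset.range N, W n ^ 2 ≤ 1 + α ^ 2 + 2 * α * θ + θ ^ 2) ∧
    (∀ m, |e m| ≤ θ) ∧ e 0 = 0 ∧ φ 0 ≠ 0 ∧ ¬ (φ 0 ^ 2 = 1 ∧ φ 1 = 0)

theorem geom_aux (R : ℝ) (hR : 2 ≤ R) (n : ℕ) :
    ∑ k ∈ Finset.range n, R ^ (k + 1) ≤ 2 * R ^ n := by
  have key : ∑ k ∈ Finset.range n, R ^ (k + 1) ≤ 2 * R ^ n - 2 := by
    induction n with
    | zero => simp
    | succ n ih =>
      rw [Finset.sum_range_succ]
      have h1 : 0 < R ^ n := by positivity
      have h2 : R ^ (n + 1) = R * R ^ n := by rw [pow_succ]; ring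
      nlinarith
  linarith

theorem Bad.bound {α θ : ℝ} {φ : ℕ → ℤ} (hα : 1 < α) (hθ0 : 0 ≤ θ) (hθ : θ ≤ 1 / 2)
    (h : Bad α θ φ) : ∀ n, |(φ n : ℝ)| ≤ (3 + α) ^ (n + 1) := by
  obtain ⟨W, e, hW, hsum, he, he0, -, -⟩ := h
  have hWle : ∀ n, |W n| ≤ 2 + α := by
    intro n
    have h1 := hsum (n + 1)
    rw [Finset.sum_range_succ] at h1
    have h2 : 0 ≤ ∑ n ∈ Finset.range n, W n ^ 2 := Finset.sum_nonneg (fun i _ => sq_nonneg _)
    have h3 : W n ^ 2 ≤ (2 + α) ^ 2 := by nlinarith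
    exact abs_le_of_sq_le_sq' h3 (by linarith) |> abs_le.mpr
  intro n
  induction n using Nat.strong_induction_on with
  | _ n ih =>
    rcases Nat.eq_zero_or_pos n with h0 | h0
    · have h1 := hW 0
      rw [zero_add, Finset.sum_range_one, he0] at h1
      simp only [if_true, zero_mul, add_zero, sub_zero] at h1
      rw [h0, ← h1]
      have := hWle 0
      rw [zero_add, pow_one]
      linarith
    · obtain ⟨n, rfl⟩ := Nat.exists_eq_add_of_le' h0
      have h1 := hW (n + 1)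
      rw [if_neg (by omega), Nat.add_sub_cancel, Finset.sum_range_succ', he0, zero_mul,
        add_zero] at h1
      have h2 : |∑ m ∈ Finset.range (n + 1), e (m + 1) * (φ (n + 1 - (m + 1)) : ℝ)|
          ≤ (3 + α) ^ (n + 1) := by
        calc _ ≤ ∑ m ∈ Finset.range (n + 1), |e (m + 1) * (φ (n + 1 - (m + 1)) : ℝ)| :=
              Finset.abs_sum_le_sum_abs _ _
          _ ≤ ∑ m ∈ Finset.range (n + 1), 1 / 2 * (3 + α) ^ (n + 1 - 1 - m + 1) := by
              apply Finset.sum_le_sum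
              intro m hm
              rw [Finset.mem_range] at hm
              rw [abs_mul]
              have h3 : n + 1 - (m + 1) = n + 1 - 1 - m := by omega
              rw [h3]
              apply mul_le_mul ((he _).trans hθ) (ih _ (by omega)) (abs_nonneg _) (by norm_num)
          _ = 1 / 2 * ∑ m ∈ Finset.range (n + 1), (3 + α) ^ (m + 1) := by
              rw [← Finset.mul_sum, Finset.sum_range_reflect (fun m => (3 + α) ^ (m + 1)) (n + 1)]
          _ ≤ 1 / 2 * (2 * (3 + α) ^ (n + 1)) := by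
              have := geom_aux (3 + α) (by linarith) (n + 1)
              linarith
          _ = _ := by ring
      have h3 : (φ (n + 1) : ℝ) = W (n + 1) + α * φ n
          - ∑ m ∈ Finset.range (n + 1), e (m + 1) * (φ (n + 1 - (m + 1)) : ℝ) := by linarith
      have h4 : |α * (φ n : ℝ)| ≤ α * (3 + α) ^ (n + 1) := by
        rw [abs_mul, abs_of_pos (by linarith : (0 : ℝ) < α)]
        exact mul_le_mul_of_nonneg_left (ih n (by omega)) (by linarith)
      have h5 : 2 + α ≤ (3 + α) ^ (n + 1) := by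
        calc 2 + α ≤ (3 + α) ^ 1 := by rw [pow_one]; linarith
          _ ≤ (3 + α) ^ (n + 1) := pow_le_pow_right₀ (by linarith) (by omega)
      rw [h3]
      calc _ ≤ |W (n + 1) + α * φ n|
            + |∑ m ∈ Finset.range (n + 1), e (m + 1) * (φ (n + 1 - (m + 1)) : ℝ)| := abs_sub _ _
        _ ≤ (|W (n + 1)| + |α * (φ n : ℝ)|)
            + |∑ m ∈ Finset.range (n + 1), e (m + 1) * (φ (n + 1 - (m + 1)) : ℝ)| := by
            gcongr
            exact abs_add_le _ _
        _ ≤ ((3 + α) ^ (n + 1) + α * (3 + α) ^ (n + 1)) + (3 + α) ^ (n + 1) := by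
            have := hWle (n + 1)
            gcongr
            linarith
        _ ≤ (3 + α) ^ (n + 1 + 1) := by
            rw [pow_succ (3 + α) (n + 1)]
            have : 0 < (3 + α) ^ (n + 1) := by positivity
            nlinarith

open Filter in
theorem no_bad (α : ℝ) (hα : 1 < α) (halg : ¬ IsAlgebraic ℚ α) :
    ∃ θ₀ : ℝ, 0 < θ₀ ∧ θ₀ ≤ 1 / 3 ∧ ∀ φ, ¬ Bad α θ₀ φ := by
  by_contra hcon
  push Not at hcon
  have hθpos : ∀ k : ℕ, (0 : ℝ) < 1 / ((k : ℝ) + 3) := fun k => by positivity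
  have hθle : ∀ k : ℕ, 1 / ((k : ℝ) + 3) ≤ 1 / 3 := fun k => by
    apply one_div_le_one_div_of_le (by norm_num)
    have : (0 : ℝ) ≤ k := Nat.cast_nonneg _
    linarith
  have hex : ∀ k : ℕ, ∃ φ : ℕ → ℤ, Bad α (1 / ((k : ℝ) + 3)) φ := fun k =>
    hcon _ (hθpos k) (hθle k)
  choose φ hφ using hex
  have hbd : ∀ k n, |(φ k n : ℝ)| ≤ (3 + α) ^ (n + 1) := fun k n =>
    (hφ k).bound hα (hθpos k).le ((hθle k).trans (by norm_num)) n
  choose W e hW hsum he he0 hφ0 hφne using hφ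
  -- ultrafilter limit
  set 𝒰 : Ultrafilter ℕ := hyperfilter ℕ with h𝒰
  have hlim : ∀ n, ∃ c : ℤ, ∀ᶠ k in (𝒰 : Filter ℕ), φ k n = c := by
    intro n
    obtain ⟨M, hM⟩ := exists_nat_gt ((3 + α) ^ (n + 1))
    have h1 : ∀ᶠ k in (𝒰 : Filter ℕ), ∃ c ∈ Set.Icc (-(M : ℤ)) M, φ k n = c := by
      apply Eventually.of_forall
      intro k
      refine ⟨φ k n, ?_, rfl⟩
      have h2 := (hbd k n).trans hM.le
      rw [abs_le] at h2
      constructor
      · have : (-(M : ℝ)) ≤ (φ k n : ℝ) := h2.1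
        exact_mod_cast this
      · exact_mod_cast h2.2
    rw [Ultrafilter.eventually_exists_mem_iff (Set.finite_Icc _ _)] at h1
    obtain ⟨c, -, hc⟩ := h1
    exact ⟨c, hc⟩
  choose c hc using hlim
  have hθ0 : Tendsto (fun k : ℕ => 1 / ((k : ℝ) + 3)) (𝒰 : Filter ℕ) (nhds 0) := by
    have h1 : Tendsto (fun k : ℕ => 1 / ((k : ℝ) + 3)) atTop (nhds 0) := by
      have h2 := (tendsto_one_div_add_atTop_nhds_zero_nat (𝕜 := ℝ)).comp (tendsto_add_atTop_nat 2)
      refine h2.congr (fun k => ?_)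
      simp only [Function.comp_apply]
      push_cast
      congr 1
      ring
    exact h1.mono_left Nat.hyperfilter_le_atTop
  have hφlim : ∀ n, Tendsto (fun k => (φ k n : ℝ)) (𝒰 : Filter ℕ) (nhds (c n : ℝ)) := by
    intro n
    apply (tendsto_const_nhds (x := (c n : ℝ))).congr'
    filter_upwards [hc n] with k hk
    rw [hk]
  have helim : ∀ m, Tendsto (fun k => e k m) (𝒰 : Filter ℕ) (nhds 0) := by
    intro m
    apply squeeze_zero_norm (fun k => ?_) hθ0
    rw [Real.norm_eq_abs]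
    exact he k m
  have hWlim : ∀ n, Tendsto (fun k => W k n) (𝒰 : Filter ℕ)
      (nhds ((c n : ℝ) - (if n = 0 then 0 else α * (c (n - 1) : ℝ)))) := by
    intro n
    have h1 : Tendsto (fun k => (φ k n : ℝ) - (if n = 0 then 0 else α * (φ k (n - 1) : ℝ))
        + ∑ m ∈ Finset.range (n + 1), e k m * (φ k (n - m) : ℝ)) (𝒰 : Filter ℕ)
        (nhds ((c n : ℝ) - (if n = 0 then 0 else α * (c (n - 1) : ℝ))
          + ∑ m ∈ Finset.range (n + 1), 0 * (c (n - m) : ℝ))) := by
      apply Tendsto.add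
      · apply Tendsto.sub (hφlim n)
        split_ifs
        · exact tendsto_const_nhds
        · exact (hφlim (n - 1)).const_mul α
      · apply tendsto_finsetSum
        intro m _
        exact (helim m).mul (hφlim (n - m))
    simp only [zero_mul, Finset.sum_const_zero, add_zero] at h1
    exact h1.congr (fun k => (hW k n).symm)
  have hsumlim : ∀ N, ∑ n ∈ Finset.range N,
      ((c n : ℝ) - (if n = 0 then 0 else α * (c (n - 1) : ℝ))) ^ 2 ≤ 1 + α ^ 2 := by
    intro N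
    have h1 : Tendsto (fun k => ∑ n ∈ Finset.range N, W k n ^ 2) (𝒰 : Filter ℕ)
        (nhds (∑ n ∈ Finset.range N,
          ((c n : ℝ) - (if n = 0 then 0 else α * (c (n - 1) : ℝ))) ^ 2)) := by
      apply tendsto_finsetSum
      intro n _
      exact (hWlim n).pow 2
    have h2 : Tendsto (fun k : ℕ => 1 + α ^ 2 + 2 * α * (1 / ((k : ℝ) + 3))
        + (1 / ((k : ℝ) + 3)) ^ 2) (𝒰 : Filter ℕ) (nhds (1 + α ^ 2 + 2 * α * 0 + 0 ^ 2)) :=
      (((hθ0.const_mul (2 * α)).const_add (1 + α ^ 2))).add (hθ0.pow 2)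
    have h3 : (1 + α ^ 2 + 2 * α * 0 + 0 ^ 2 : ℝ) = 1 + α ^ 2 := by ring
    rw [h3] at h2
    exact le_of_tendsto_of_tendsto h1 h2 (Eventually.of_forall (fun k => hsum k N))
  have hc0 : c 0 ≠ 0 := by
    obtain ⟨k, hk⟩ := (hc 0).exists
    rw [← hk]
    exact hφ0 k
  have hcne : ¬ (c 0 ^ 2 = 1 ∧ c 1 = 0) := by
    obtain ⟨k, hk0, hk1⟩ := ((hc 0).and (hc 1)).exists
    rw [← hk0, ← hk1]
    exact hφne k
  apply halg
  apply pisot_sharp α hα c hc0 hcne
  intro N
  have h1 := hsumlim (N + 1)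
  rw [Finset.sum_range_succ'] at h1
  simp only [if_true, sub_zero, Nat.add_eq_zero_iff, one_ne_zero, and_false, if_false,
    Nat.add_sub_cancel] at h1
  have h2 : ∑ n ∈ Finset.range N, dif α (fun k => (c k : ℝ)) n ^ 2
      = ∑ n ∈ Finset.range N, ((c (n + 1) : ℝ) - α * (c n : ℝ)) ^ 2 := rfl
  rw [h2]
  linarith

end Har
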