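import Mathlib
import Pool.Agent.Lib_helper62.Har.Compact

/-!
A short monic multiple of an integer polynomial which is not self-reciprocal up to sign
produces the data `Bad`.
-/

set_option autoImplicit false

namespace Har

open Polynomial

/-- The sum `∑_{i<k} σ_i x^i`. -/
noncomputable def Spoly (k : ℕ) (σ : ℕ → ℝ) : ℝ[X] := ∑ i ∈ Finset.range k, C (σ i) * X ^ i

theorem Spoly_coeff (k : ℕ) (σ : ℕ → ℝ) (l : ℕ) :
    (Spoly k σ).coeff l = if l < k then σ l else 0 := by
  unfold Spoly
  rw [finsetSum_coeff]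
  simp only [coeff_C_mul, coeff_X_pow]
  split_ifs with h
  · rw [Finset.sum_eq_single l]
    · simp
    · intro b _ hb
      rw [if_neg (fun h => hb h.symm), mul_zero]
    · intro h'; exact absurd (Finset.mem_range.mpr h) h'
  · apply Finset.sum_eq_zero
    intro b hb
    rw [Finset.mem_range] at hb
    rw [if_neg (by omega), mul_zero]

/-- The small part of `U`. -/
noncomputable def Epoly (α τ : ℝ) (k : ℕ) (σ : ℕ → ℝ) : ℝ[X] :=
  C α * Spoly k σ - X * Spoly k σ - C τ

theorem Upoly_eq (α τ : ℝ) (k : ℕ) (σ : ℕ → ℝ) :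
    Upoly α τ k σ = X ^ (k + 1) - C α * X ^ k + Epoly α τ k σ := by
  unfold Upoly Epoly
  rw [show (∑ i ∈ Finset.range k, C (σ i) * X ^ i) = Spoly k σ from rfl]
  ring

theorem Epoly_coeff (α τ : ℝ) (k : ℕ) (σ : ℕ → ℝ) (l : ℕ) :
    (Epoly α τ k σ).coeff l = α * (Spoly k σ).coeff l
      - (if l = 0 then 0 else (Spoly k σ).coeff (l - 1)) - (if l = 0 then τ else 0) := by
  unfold Epoly
  rw [coeff_sub, coeff_sub, coeff_C_mul, coeff_C]
  rcases l with _ | l
  · simp
  · rw [coeff_X_mul]
    simp

theorem Epoly_coeff_zero (α τ : ℝ) (k : ℕ) (σ : ℕ → ℝ) (l : ℕ) (hl : k + 1 ≤ l) :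
    (Epoly α τ k σ).coeff l = 0 := by
  rw [Epoly_coeff, Spoly_coeff, Spoly_coeff, if_neg (by omega), if_neg (by omega),
    if_neg (by omega), if_neg (by omega)]
  ring

theorem Epoly_sum (α τ : ℝ) (k : ℕ) (σ : ℕ → ℝ) :
    ∑ l ∈ Finset.range (k + 1), (Epoly α τ k σ).coeff l ^ 2
      ≤ 3 * (1 + α ^ 2) * (∑ i ∈ Finset.range k, σ i ^ 2 + τ ^ 2) := by
  have h1 : ∀ l, (Epoly α τ k σ).coeff l ^ 2 ≤ 3 * (α ^ 2 * (Spoly k σ).coeff l ^ 2
      + (if l = 0 then 0 else (Spoly k σ).coeff (l - 1)) ^ 2 + (if l = 0 then τ else 0) ^ 2) := by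
    intro l
    rw [Epoly_coeff]
    set x := α * (Spoly k σ).coeff l
    set y := (if l = 0 then 0 else (Spoly k σ).coeff (l - 1))
    set z := (if l = 0 then τ else 0)
    have hx : α ^ 2 * (Spoly k σ).coeff l ^ 2 = x ^ 2 := by
      simp only [x]; ring
    rw [hx]
    nlinarith [sq_nonneg (x + y), sq_nonneg (x + z), sq_nonneg (y - z)]
  have hS1 : ∑ l ∈ Finset.range (k + 1), (Spoly k σ).coeff l ^ 2
      = ∑ i ∈ Finset.range k, σ i ^ 2 := by
    rw [Finset.sum_range_succ, Spoly_coeff k σ k, if_neg (lt_irrefl k)]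
    rw [show (0 : ℝ) ^ 2 = 0 by norm_num, add_zero]
    apply Finset.sum_congr rfl
    intro l hl
    rw [Spoly_coeff, if_pos (Finset.mem_range.mp hl)]
  have hS2 : ∑ l ∈ Finset.range (k + 1), (if l = 0 then 0 else (Spoly k σ).coeff (l - 1)) ^ 2
      = ∑ i ∈ Finset.range k, σ i ^ 2 := by
    rw [Finset.sum_range_succ']
    simp only [if_true, Nat.add_eq_zero_iff, one_ne_zero, and_false, if_false,
      Nat.add_sub_cancel]
    rw [show (0 : ℝ) ^ 2 = 0 by norm_num, add_zero]
    apply Finset.sum_congr rfl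
    intro l hl
    rw [Spoly_coeff, if_pos (Finset.mem_range.mp hl)]
  have hS3 : ∑ l ∈ Finset.range (k + 1), (if l = 0 then τ else 0) ^ 2 = τ ^ 2 := by
    rw [Finset.sum_range_succ']
    simp
  calc ∑ l ∈ Finset.range (k + 1), (Epoly α τ k σ).coeff l ^ 2
      ≤ ∑ l ∈ Finset.range (k + 1), 3 * (α ^ 2 * (Spoly k σ).coeff l ^ 2
      + (if l = 0 then 0 else (Spoly k σ).coeff (l - 1)) ^ 2 + (if l = 0 then τ else 0) ^ 2) :=
        Finset.sum_le_sum (fun l _ => h1 l)
    _ = 3 * (α ^ 2 * ∑ i ∈ Finset.range k, σ i ^ 2 + ∑ i ∈ Finset.range k, σ i ^ 2 + τ ^ 2) := by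
        rw [← Finset.mul_sum, Finset.sum_add_distrib, Finset.sum_add_distrib, ← Finset.mul_sum,
          hS1, hS2, hS3]
    _ ≤ _ := by nlinarith [sq_nonneg τ, sq_nonneg α, mul_nonneg (sq_nonneg α) (sq_nonneg τ)]

theorem coeff_mul_reflect (p : ℝ[X]) (N : ℕ) :
    (p * reflect N p).coeff N = ∑ l ∈ Finset.range (N + 1), p.coeff l ^ 2 := by
  rw [coeff_mul, Finset.Nat.sum_antidiagonal_eq_sum_range_succ
    (fun i j => p.coeff i * (reflect N p).coeff j) N]
  apply Finset.sum_congr rfl
  intro l hl
  rw [Finset.mem_range] at hl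
  rw [coeff_reflect, revAt_le (by omega), show N - (N - l) = l by omega]
  ring

/-- Replacing `V` by its reflection does not change the sum of squares. -/
theorem sum_sq_reflect (Q V : ℝ[X]) (d v : ℕ) (hQ : Q.natDegree ≤ d) (hV : V.natDegree ≤ v) :
    ∑ l ∈ Finset.range (d + v + 1), (Q * reflect v V).coeff l ^ 2
      = ∑ l ∈ Finset.range (d + v + 1), (Q * V).coeff l ^ 2 := by
  have hV' : (reflect v V).natDegree ≤ v := by
    refine natDegree_reflect_le.trans ?_
    rw [max_eq_left hV]
  rw [← coeff_mul_reflect, ← coeff_mul_reflect, reflect_mul Q (reflect v V) hQ hV',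
    reflect_mul Q V hQ hV, reflect_reflect]
  congr 1
  ring

theorem nr_bad (α θ : ℝ) (hα : 1 < α) (hθ0 : 0 ≤ θ)
    (P : ℤ[X]) (hPm : P.Monic) (hP0 : P.coeff 0 ≠ 0) (hne1 : P ≠ P.reverse)
    (hne2 : P ≠ -P.reverse) (k : ℕ) (σ : ℕ → ℝ) (τ : ℝ)
    (hdvd : P.map (Int.castRingHom ℝ) ∣ Upoly α τ k σ)
    (hκ : 3 * (1 + α ^ 2) * (∑ i ∈ Finset.range k, σ i ^ 2 + τ ^ 2) ≤ θ ^ 2)
    (hθ4 : 4 * θ ^ 2 < 1) :
    ∃ φ, Bad α θ φ := by
  obtain ⟨V, hV⟩ := hdvd
  set Pr := P.map (Int.castRingHom ℝ) with hPr
  have hPrm : Pr.Monic := hPm.map _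
  have hPrd : Pr.natDegree = P.natDegree := hPm.natDegree_map _
  obtain ⟨hUm, hUn⟩ := Upoly_spec α τ k σ
  have hVm : V.Monic := by
    rw [hV] at hUm
    exact hPrm.of_mul_monic_left hUm
  set U := Upoly α τ k σ with hU
  set E := Epoly α τ k σ with hE
  set v := V.natDegree with hv
  set d := P.natDegree with hd
  have hdv : d + v = k + 1 := by
    rw [← hUn, hV, hPrm.natDegree_mul hVm, hPrd]
  have hUE : U = X ^ (k + 1) - C α * X ^ k + E := Upoly_eq α τ k σ
  have hEsum : ∑ l ∈ Finset.range (k + 1), E.coeff l ^ 2 ≤ θ ^ 2 :=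
    (Epoly_sum α τ k σ).trans hκ
  have hE0 : ∀ l, k + 1 ≤ l → E.coeff l = 0 := Epoly_coeff_zero α τ k σ
  have hEabs : ∀ l, |E.coeff l| ≤ θ := by
    intro l
    rcases Nat.lt_or_ge l (k + 1) with h | h
    · have h1 : E.coeff l ^ 2 ≤ θ ^ 2 := by
        refine le_trans ?_ hEsum
        exact Finset.single_le_sum (f := fun l => E.coeff l ^ 2) (fun _ _ => sq_nonneg _)
          (Finset.mem_range.mpr h)
      exact abs_le_of_sq_le_sq h1 hθ0
    · rw [hE0 l h, abs_zero]; exact hθ0
  -- the sum of squares of the coefficients of `U`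
  have hUcoeff : ∀ l, U.coeff l = (if l = k + 1 then 1 else 0) - α * (if l = k then 1 else 0)
      + E.coeff l := by
    intro l
    rw [hUE, coeff_add, coeff_sub, coeff_X_pow, coeff_C_mul, coeff_X_pow]
  have hUsum : ∑ l ∈ Finset.range (k + 2), U.coeff l ^ 2
      ≤ 1 + α ^ 2 + 2 * α * θ + θ ^ 2 := by
    rw [Finset.sum_range_succ, Finset.sum_range_succ]
    have h1 : U.coeff (k + 1) = 1 := by
      rw [hUcoeff, if_pos rfl, if_neg (by omega), hE0 _ le_rfl]; ring
    have h2 : U.coeff k = E.coeff k - α := by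
      rw [hUcoeff, if_neg (by omega), if_pos rfl]; ring
    have h3 : ∑ l ∈ Finset.range k, U.coeff l ^ 2 = ∑ l ∈ Finset.range k, E.coeff l ^ 2 := by
      apply Finset.sum_congr rfl
      intro l hl
      rw [Finset.mem_range] at hl
      rw [hUcoeff, if_neg (by omega), if_neg (by omega)]
      ring
    rw [Finset.sum_range_succ] at hEsum
    rw [h1, h2, h3]
    have h4 : -θ ≤ E.coeff k := (abs_le.mp (hEabs k)).1
    nlinarith
  -- the reflected polynomial
  set Us := reflect (k + 1) U with hUs
  set Es := reflect (k + 1) E with hEs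
  have hUsE : Us = 1 - C α * X + Es := by
    rw [hUs, hUE, reflect_add, reflect_sub, reflect_monomial, reflect_C_mul_X_pow,
      revAt_le le_rfl, revAt_le (by omega), Nat.sub_self, pow_zero,
      show k + 1 - k = 1 by omega, pow_one]
  have hEs0 : Es.coeff 0 = 0 := by
    rw [hEs, coeff_reflect, revAt_le (by omega), Nat.sub_zero]
    exact hE0 _ le_rfl
  have hEsabs : ∀ m, |Es.coeff m| ≤ θ := by
    intro m
    rw [hEs, coeff_reflect]
    exact hEabs _
  set W := Pr * reflect v V with hW
  have hWsum : ∑ l ∈ Finset.range (k + 2), W.coeff l ^ 2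
      = ∑ l ∈ Finset.range (k + 2), U.coeff l ^ 2 := by
    have h1 := sum_sq_reflect Pr V d v hPrd.le le_rfl
    rw [hdv] at h1
    rw [hW, h1, hV]
  have hWdeg : W.natDegree ≤ k + 1 := by
    rw [hW]
    refine natDegree_mul_le.trans ?_
    have h1 : (reflect v V).natDegree ≤ v := by
      refine natDegree_reflect_le.trans ?_
      rw [← hv, max_self]
    rw [hPrd]
    omega
  have hW0 : ∀ n, k + 2 ≤ n → W.coeff n = 0 := fun n hn =>
    coeff_eq_zero_of_natDegree_lt (by omega)
  -- the power series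
  set Rs : PowerSeries ℤ := (P.reverse : PowerSeries ℤ) with hRs
  have hRs1 : PowerSeries.constantCoeff Rs = ((1 : ℤˣ) : ℤ) := by
    rw [hRs, ← PowerSeries.coeff_zero_eq_constantCoeff_apply, Polynomial.coeff_coe,
      coeff_zero_reverse, hPm.leadingCoeff]
    rfl
  set φ : PowerSeries ℤ := (P : PowerSeries ℤ) * PowerSeries.invOfUnit Rs 1 with hφ
  have hφR : φ * Rs = (P : PowerSeries ℤ) := by
    rw [hφ, mul_assoc, PowerSeries.invOfUnit_mul Rs 1 hRs1, mul_one]
  set f : ℕ → ℤ := fun n => PowerSeries.coeff n φ with hf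
  set φr : PowerSeries ℝ := PowerSeries.map (Int.castRingHom ℝ) φ with hφr
  have hφrc : ∀ n, PowerSeries.coeff n φr = (f n : ℝ) := by
    intro n
    rw [hφr, PowerSeries.coeff_map]
    rfl
  have hrefl : reflect d Pr = P.reverse.map (Int.castRingHom ℝ) := by
    rw [hPr, reflect_map]
    rfl
  have hφPr : φr * ((reflect d Pr : ℝ[X]) : PowerSeries ℝ) = (Pr : PowerSeries ℝ) := by
    have h1 := congrArg (PowerSeries.map (Int.castRingHom ℝ)) hφR
    rw [map_mul, hRs, ← Polynomial.polynomial_map_coe, ← Polynomial.polynomial_map_coe] at h1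
    rw [hrefl]
    exact h1
  have hUs2 : Us = reflect d Pr * reflect v V := by
    rw [hUs, hV, ← hdv, reflect_mul Pr V hPrd.le le_rfl]
  have hφU : φr * (Us : PowerSeries ℝ) = (W : PowerSeries ℝ) := by
    rw [hUs2, hW, Polynomial.coe_mul, Polynomial.coe_mul, ← mul_assoc, hφPr]
  -- coefficients
  have hcoef : ∀ n, W.coeff n = (f n : ℝ)
      - (if n = 0 then 0 else α * (f (n - 1) : ℝ))
      + ∑ m ∈ Finset.range (n + 1), Es.coeff m * (f (n - m) : ℝ) := by
    intro n
    have h1 : (W : PowerSeries ℝ) = φr - PowerSeries.C α * (φr * PowerSeries.X)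
        + (Es : PowerSeries ℝ) * φr := by
      rw [← hφU, hUsE, Polynomial.coe_add, Polynomial.coe_sub, Polynomial.coe_mul,
        Polynomial.coe_one, Polynomial.coe_C, Polynomial.coe_X]
      ring
    have h2 := congrArg (PowerSeries.coeff n) h1
    rw [Polynomial.coeff_coe, map_add, map_sub, PowerSeries.coeff_C_mul,
      PowerSeries.coeff_mul n (Es : PowerSeries ℝ) φr,
      Finset.Nat.sum_antidiagonal_eq_sum_range_succ
        (fun i j => PowerSeries.coeff i (Es : PowerSeries ℝ) * PowerSeries.coeff j φr) n] at h2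
    rw [h2, hφrc]
    congr 1
    · congr 1
      rcases n with _ | n
      · simp
      · rw [PowerSeries.coeff_succ_mul_X, hφrc]
        simp
    · apply Finset.sum_congr rfl
      intro m _
      rw [Polynomial.coeff_coe, hφrc]
  have hcoefU : ∀ n, W.coeff n = ∑ m ∈ Finset.range (n + 1),
      (f m : ℝ) * Us.coeff (n - m) := by
    intro n
    have h2 := congrArg (PowerSeries.coeff n) hφU
    rw [Polynomial.coeff_coe, PowerSeries.coeff_mul,
      Finset.Nat.sum_antidiagonal_eq_sum_range_succ
        (fun i j => PowerSeries.coeff i φr * PowerSeries.coeff j (Us : PowerSeries ℝ)) n] at h2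
    rw [← h2]
    apply Finset.sum_congr rfl
    intro m _
    rw [Polynomial.coeff_coe, hφrc]
  refine ⟨f, fun n => W.coeff n, fun m => Es.coeff m, hcoef, ?_,
    hEsabs, hEs0, ?_, ?_⟩
  · intro N
    have h1 : ∑ n ∈ Finset.range N, W.coeff n ^ 2 ≤ ∑ n ∈ Finset.range (k + 2), W.coeff n ^ 2 := by
      rcases le_total N (k + 2) with h | h
      · apply Finset.sum_le_sum_of_subset_of_nonneg (Finset.range_subset_range.mpr h)
        intro i _ _
        positivity
      · rw [← Finset.sum_range_add_sum_Ico _ h]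
        have h2 : ∑ n ∈ Finset.Ico (k + 2) N, W.coeff n ^ 2 = 0 := by
          apply Finset.sum_eq_zero
          intro n hn
          rw [Finset.mem_Ico] at hn
          rw [hW0 n hn.1]
          norm_num
        rw [h2, add_zero]
    rw [hWsum] at h1
    exact h1.trans hUsum
  · intro h0
    apply hP0
    have h1 := congrArg (PowerSeries.coeff 0) hφR
    rw [Polynomial.coeff_coe, PowerSeries.coeff_zero_eq_constantCoeff_apply, map_mul,
      ← PowerSeries.coeff_zero_eq_constantCoeff_apply, show PowerSeries.coeff 0 φ = f 0 from rfl,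
      h0, zero_mul] at h1
    exact h1.symm
  · rintro ⟨h0, h1⟩
    -- `φ` is constant
    have hφc0 : (f 0 : ℝ) ^ 2 = 1 := by exact_mod_cast h0
    have hall : ∀ n, 1 ≤ n → f n = 0 := by
      by_contra hcon
      push Not at hcon
      classical
      have hex : ∃ n, 1 ≤ n ∧ f n ≠ 0 := hcon
      set n := Nat.find hex with hn
      obtain ⟨hn1, hn2⟩ := Nat.find_spec hex
      rw [← hn] at hn1 hn2
      have hn3 : ∀ m, 1 ≤ m → m < n → f m = 0 := by
        intro m hm1 hm2
        have := Nat.find_min hex hm2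
        push Not at this
        exact this hm1
      have hn4 : 2 ≤ n := by
        rcases Nat.lt_or_ge n 2 with h | h
        · have : n = 1 := by omega
          rw [this] at hn2
          exact absurd h1 hn2
        · exact h
      have hWlt : ∀ m, m < n → W.coeff m = (f 0 : ℝ) * Us.coeff m := by
        intro m hm
        rw [hcoefU, Finset.sum_range_succ', Finset.sum_eq_zero, zero_add, Nat.sub_zero]
        intro l hl
        rw [Finset.mem_range] at hl
        rw [hn3 (l + 1) (by omega) (by omega)]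
        simp
      have hWn : W.coeff n = (f 0 : ℝ) * Us.coeff n
          + (f n : ℝ) := by
        rw [hcoefU, Finset.sum_range_succ', Nat.sub_zero]
        obtain ⟨n', hn'⟩ := Nat.exists_eq_add_of_le' hn1
        rw [hn', Finset.sum_range_succ, Finset.sum_eq_zero, zero_add, Nat.sub_self, ← hn']
        · have h5 : Us.coeff 0 = 1 := by
            rw [hUsE, coeff_add, coeff_sub, hEs0]
            simp
          rw [h5]
          ring
        · intro l hl
          rw [Finset.mem_range] at hl
          rw [hn3 (l + 1) (by omega) (by omega)]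
          simp
      have hUs0 : ∀ m, k + 2 ≤ m → Us.coeff m = 0 := by
        intro m hm
        rw [hUs, coeff_reflect, revAt_eq_self_of_lt (by omega)]
        apply coeff_eq_zero_of_natDegree_lt
        rw [hUn]
        omega
      rcases Nat.lt_or_ge n (k + 2) with hcase | hcase
      · have hUssum : ∑ l ∈ Finset.range (k + 2), Us.coeff l ^ 2
            = ∑ l ∈ Finset.range (k + 2), U.coeff l ^ 2 := by
          rw [← Finset.sum_range_reflect (fun l => U.coeff l ^ 2) (k + 2)]
          apply Finset.sum_congr rfl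
          intro l hl
          rw [Finset.mem_range] at hl
          rw [hUs, coeff_reflect, revAt_le (by omega), show k + 2 - 1 - l = k + 1 - l by omega]
        have h6 : ∑ l ∈ Finset.Ico n (k + 2), W.coeff l ^ 2
            = ∑ l ∈ Finset.Ico n (k + 2), Us.coeff l ^ 2 := by
          have h7 := Finset.sum_range_add_sum_Ico (fun l => W.coeff l ^ 2) hcase.le
          have h8 := Finset.sum_range_add_sum_Ico (fun l => Us.coeff l ^ 2) hcase.le
          have h9 : ∑ l ∈ Finset.range n, W.coeff l ^ 2 = ∑ l ∈ Finset.range n, Us.coeff l ^ 2 := by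
            apply Finset.sum_congr rfl
            intro l hl
            rw [hWlt l (Finset.mem_range.mp hl), mul_pow, hφc0, one_mul]
          linarith
        have h7 : ∑ l ∈ Finset.Ico n (k + 2), Us.coeff l ^ 2 ≤ θ ^ 2 := by
          calc ∑ l ∈ Finset.Ico n (k + 2), Us.coeff l ^ 2
              ≤ ∑ l ∈ Finset.Ico 1 (k + 2), E.coeff (k + 1 - l) ^ 2 := by
                have h8 : ∑ l ∈ Finset.Ico n (k + 2), Us.coeff l ^ 2
                    = ∑ l ∈ Finset.Ico n (k + 2), E.coeff (k + 1 - l) ^ 2 := by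
                  apply Finset.sum_congr rfl
                  intro l hl
                  rw [Finset.mem_Ico] at hl
                  rw [hUsE, coeff_add, coeff_sub, hEs, coeff_reflect, revAt_le (by omega),
                    coeff_one, if_neg (by omega), coeff_C_mul, coeff_X, if_neg (by omega)]
                  ring
                rw [h8]
                apply Finset.sum_le_sum_of_subset_of_nonneg
                · exact Finset.Ico_subset_Ico hn1 le_rfl
                · intro i _ _
                  positivity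
            _ = ∑ l ∈ Finset.range (k + 1), E.coeff l ^ 2 := by
                rw [Finset.sum_Ico_eq_sum_range, ← Finset.sum_range_reflect]
                apply Finset.sum_congr (by congr 1)
                intro l hl
                rw [Finset.mem_range] at hl
                have : k + 1 - (1 + (k + 2 - 1 - 1 - l)) = l := by omega
                rw [this]
            _ ≤ θ ^ 2 := hEsum
        have h8 : W.coeff n ^ 2 ≤ θ ^ 2 := by
          rw [h6.symm.trans rfl] at h7
          refine le_trans ?_ h7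
          exact Finset.single_le_sum (f := fun l => W.coeff l ^ 2) (fun _ _ => sq_nonneg _)
            (Finset.mem_Ico.mpr ⟨le_rfl, hcase⟩)
        have h9 : Us.coeff n ^ 2 ≤ θ ^ 2 := by
          refine le_trans ?_ h7
          exact Finset.single_le_sum (f := fun l => Us.coeff l ^ 2) (fun _ _ => sq_nonneg _)
            (Finset.mem_Ico.mpr ⟨le_rfl, hcase⟩)
        have h10 : (f n : ℝ) ^ 2 < 1 := by
          have h11 : (f n : ℝ)
              = W.coeff n - (f 0 : ℝ) * Us.coeff n := by
            rw [hWn]; ring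
          have h12 : ((f 0 : ℝ) * Us.coeff n) ^ 2 ≤ θ ^ 2 := by
            rw [mul_pow, hφc0, one_mul]; exact h9
          rw [h11]
          nlinarith [sq_nonneg (W.coeff n + (f 0 : ℝ) * Us.coeff n)]
        have h13 : f n ^ 2 < 1 := by exact_mod_cast h10
        have h14 : f n ^ 2 = 0 := by
          have := sq_nonneg (f n)
          omega
        exact hn2 (pow_eq_zero_iff (two_ne_zero) |>.mp h14)
      · rw [hW0 n hcase, hUs0 n hcase, mul_zero, zero_add] at hWn
        apply hn2
        exact_mod_cast hWn.symm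
    have hφC : φ = PowerSeries.C (f 0) := by
      ext n
      rw [PowerSeries.coeff_C]
      split_ifs with h
      · rw [h]
      · exact hall n (by omega)
    have h2 : f 0 = 1 ∨ f 0 = -1 := by
      exact mul_self_eq_one_iff.mp (by rw [← sq]; exact h0)
    rcases h2 with h2 | h2
    · apply hne1
      rw [hφC, h2] at hφR
      simp only [map_one, one_mul] at hφR
      exact Polynomial.coe_injective ℤ hφR.symm
    · apply hne2
      rw [hφC, h2] at hφR
      simp only [map_neg, map_one, neg_mul, one_mul] at hφR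
      apply Polynomial.coe_injective ℤ
      rw [Polynomial.coe_neg]
      exact hφR.symm

end Har
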