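import Mathlib
import Pool.Agent.Lib_helper62.Har.Window

/-!
The recurrence carried by a good scale, continued.
-/

set_option autoImplicit false

namespace Har

open Matrix Polynomial

theorem int_eq_zero_of_sq_lt (D : ℤ) (h : (D : ℝ) ^ 2 < 1) : D = 0 := by
  have h4 : D ^ 2 < 1 := by exact_mod_cast h
  have h5 : D ^ 2 = 0 := by
    have := sq_nonneg D
    omega
  exact pow_eq_zero_iff (two_ne_zero) |>.mp h5

theorem window (α ξ : ℝ) (hα : 1 < α) (a : ℕ → ℤ)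
    (ha : ∀ n, |(a n : ℝ) - ξ * α ^ n| ≤ 1 / 2) (t r' : ℕ) (hr' : 2 ≤ r') (δ : ℝ) (hδ0 : 0 < δ)
    (hδ : δ ≤ (1 / 2) ^ (2 ^ (r' + 3))) :
    ∃ i₀ : ℕ, ∀ i p : ℕ, i₀ ≤ i → Good α a t i p (r' + 1) δ →
      ∃ (P : ℤ[X]) (j : ℕ), P.Monic ∧ P.coeff 0 ≠ 0 ∧ j + P.natDegree < 2 ^ (i - r') ∧
        (∀ n, j ≤ n → n < j + 2 ^ (i + r') → act P a n = 0) ∧
        (1 ≤ j → act P a (j - 1) ≠ 0) ∧ (hank a j P.natDegree).det ≠ 0 := by
  obtain ⟨B, hB⟩ : ∃ B : ℕ, 3 * (1 + α) ^ 4 + 1 + (a 0 : ℝ) ^ 2 ≤ 2 ^ B := by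
    obtain ⟨B, hB⟩ := pow_unbounded_of_one_lt (3 * (1 + α) ^ 4 + 1 + (a 0 : ℝ) ^ 2)
      (one_lt_two (α := ℝ))
    exact ⟨B, hB.le⟩
  have hB1 : 3 * (1 + α) ^ 4 + 1 ≤ 2 ^ B := by
    have := sq_nonneg (a 0 : ℝ)
    linarith
  have hB2 : (a 0 : ℝ) ^ 2 ≤ 2 ^ B := by
    have : 0 ≤ 3 * (1 + α) ^ 4 + 1 := by positivity
    linarith
  obtain ⟨i₁, hi₁⟩ := small_scale t (4 * (B + 2)) ((1 / 2) ^ (r' + 1)) (by positivity)
    (by positivity)
  refine ⟨max i₁ (r' + 1), ?_⟩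
  intro i p hi hg
  have hi1 : i₁ ≤ i := le_trans (le_max_left _ _) hi
  have hi2 : r' + 1 ≤ i := le_trans (le_max_right _ _) hi
  have hp1 := hg.1
  have hpi' := hg.p_le
  have hsm := hi₁ i p hi1 hg.2.1
  have hδ1 : δ ≤ 1 := hδ.trans (pow_le_one₀ (by norm_num) (by norm_num))
  set h := p + i + B with hh
  have hHm : Hm α i p ≤ 2 ^ h := Hm_le_pow α B (by linarith) hB1 i p
  have hHm1 := one_le_Hm α i p
  -- elementary inequalities
  have hx1 : (1 : ℝ) ≤ (i : ℝ) + 1 := by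
    have : (0 : ℝ) ≤ i := Nat.cast_nonneg _
    linarith
  have hx3 : (i : ℝ) + 1 ≤ ((i : ℝ) + 1) ^ 3 := by
    have h1 : (1 : ℝ) ≤ ((i : ℝ) + 1) ^ 2 := one_le_pow₀ hx1
    nlinarith
  have hy1 : (1 : ℝ) ≤ 2 ^ p := one_le_pow₀ (by norm_num)
  have hy2 : (2 : ℝ) ^ (2 * p) = 2 ^ p * 2 ^ p := by rw [two_mul, pow_add]
  have hy3 : (2 : ℝ) ^ p ≤ 2 ^ (2 * p) := by rw [hy2]; nlinarith
  have hprodge : (2 : ℝ) ^ p * ((i : ℝ) + 1) ≤ 2 ^ (2 * p) * ((i : ℝ) + 1) ^ 3 := by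
    gcongr
  have hprod1 : (1 : ℝ) ≤ 2 ^ p * ((i : ℝ) + 1) := by nlinarith
  have hBnn : (0 : ℝ) ≤ B := Nat.cast_nonneg _
  have hε : ((1 : ℝ) / 2) ^ (r' + 1) * 2 ^ i = 2 ^ (i - r' - 1) := by
    obtain ⟨w, rfl⟩ := Nat.exists_eq_add_of_le hi2
    have h1 : r' + 1 + w - r' - 1 = w := by omega
    rw [h1, pow_add (2 : ℝ) (r' + 1) w, ← mul_assoc, ← mul_pow]
    norm_num
  have hN2 : 2 ^ p + 1 ≤ 2 ^ (i - r' - 1) := by
    have h1 : (2 : ℝ) ^ p + 1 ≤ 2 ^ (i - r' - 1) := by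
      rw [← hε]
      refine le_trans ?_ hsm
      have h2 : 4 * ((B : ℝ) + 2) * 2 ^ (2 * p) * ((i : ℝ) + 1) ^ 3
          = 4 * ((B : ℝ) + 2) * (2 ^ (2 * p) * ((i : ℝ) + 1) ^ 3) := by ring
      rw [h2]
      have h3 : (2 : ℝ) ^ p ≤ 2 ^ p * ((i : ℝ) + 1) := le_mul_of_one_le_right (by positivity) hx1
      nlinarith
    exact_mod_cast h1
  have hN3 : h * (2 ^ p + 1) + 1 < 2 ^ (i + 1) := by
    have h1 : (h : ℝ) * (2 ^ p + 1) + 1 < 2 ^ (i + 1) := by
      have h2 : (h : ℝ) ≤ (B + 2) * ((i : ℝ) + 1) := by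
        have hpi : (p : ℝ) ≤ i := by exact_mod_cast (show p ≤ i by omega)
        rw [hh]
        push_cast
        nlinarith [mul_nonneg hBnn (Nat.cast_nonneg (α := ℝ) i)]
      have h3 : (2 : ℝ) ^ p + 1 ≤ 2 * 2 ^ p := by linarith
      have h4 : (h : ℝ) * (2 ^ p + 1) ≤ ((B + 2) * ((i : ℝ) + 1)) * (2 * 2 ^ p) := by
        gcongr
      have h5 : (1 : ℝ) ≤ (B + 2) * ((i : ℝ) + 1) * (2 * 2 ^ p) := by nlinarith
      have h6 : ((B + 2) * ((i : ℝ) + 1)) * (2 * 2 ^ p) * 2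
          ≤ 4 * ((B : ℝ) + 2) * 2 ^ (2 * p) * ((i : ℝ) + 1) ^ 3 := by
        have h7 : 4 * ((B : ℝ) + 2) * 2 ^ (2 * p) * ((i : ℝ) + 1) ^ 3
            = 4 * ((B : ℝ) + 2) * (2 ^ (2 * p) * ((i : ℝ) + 1) ^ 3) := by ring
        rw [h7]
        nlinarith
      have h8 : ((1 : ℝ) / 2) ^ (r' + 1) * 2 ^ i ≤ 1 * 2 ^ i := by
        apply mul_le_mul_of_nonneg_right _ (by positivity)
        exact pow_le_one₀ (by norm_num) (by norm_num)
      have h9 : (2 : ℝ) ^ (i + 1) = 2 * 2 ^ i := by rw [pow_succ]; ring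
      have h10 : (0 : ℝ) < 2 ^ i := by positivity
      rw [h9]
      linarith
    exact_mod_cast h1
  have hsplit : 2 ^ (i - r') = 2 * 2 ^ (i - r' - 1) := by
    rw [← pow_succ']
    congr 1
    omega
  have hfirst : (a 0 : ℝ) ^ 2 + Hm α i p ≤ 2 ^ (h + 1) := by
    have h1 : (2 : ℝ) ^ B ≤ 2 ^ h := pow_le_pow_right₀ (by norm_num) (by omega)
    rw [pow_succ (2 : ℝ) h]
    linarith
  have hfirst0 : 0 ≤ (a 0 : ℝ) ^ 2 + Hm α i p := by positivity
  -- vanishing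
  have hvanish : ∀ m, 2 ^ (i - r') ≤ m → m ≤ 2 ^ (i + r') → (hank a 0 m).det = 0 := by
    intro m hm1 hm2
    have hpos : 0 < 2 ^ (i - r' - 1) := by positivity
    obtain ⟨m, rfl⟩ := Nat.exists_eq_add_of_le' (show 1 ≤ m by omega)
    apply int_eq_zero_of_sq_lt
    refine lt_of_le_of_lt (det_zero_bound α ξ (by linarith) a ha t i p r' δ hδ1 hg m hm2) ?_
    have hpm : 2 ^ p ≤ m := by omega
    have h1 := prod_FF_small (Hm α i p) (by linarith) p i m δ hδ0.le hpm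
    have h2 : δ ^ (m - 2 ^ p) ≤ (1 / 2) ^ (2 ^ (i + 2)) := by
      calc δ ^ (m - 2 ^ p) ≤ ((1 / 2) ^ (2 ^ (r' + 3))) ^ (m - 2 ^ p) := by gcongr
        _ = (1 / 2) ^ (2 ^ (r' + 3) * (m - 2 ^ p)) := by rw [← pow_mul]
        _ ≤ (1 / 2) ^ (2 ^ (i + 2)) := by
            apply pow_le_pow_of_le_one (by norm_num) (by norm_num)
            have h3 : 2 ^ (i - r' - 1) ≤ m - 2 ^ p := by omega
            calc 2 ^ (i + 2) = 2 ^ (r' + 3) * 2 ^ (i - r' - 1) := by
                  rw [← pow_add]; congr 1; omega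
              _ ≤ 2 ^ (r' + 3) * (m - 2 ^ p) := Nat.mul_le_mul_left _ h3
    have h4 : ((a 0 : ℝ) ^ 2 + Hm α i p) * ∏ j ∈ Finset.range m, FF (Hm α i p) p i δ j
        ≤ 2 ^ (h + 1) * ((2 ^ h) ^ (2 ^ p) * ((1 / 2) ^ (2 ^ (i + 2)) * 2 ^ (2 ^ (i + 1)))) := by
      apply mul_le_mul hfirst _ (Finset.prod_nonneg (fun j _ =>
        FF_nonneg _ (by linarith) p i δ hδ0.le j)) (by positivity)
      refine h1.trans ?_
      gcongr
    refine lt_of_le_of_lt h4 ?_
    have h5 : (2 : ℝ) ^ (h + 1) * ((2 ^ h) ^ (2 ^ p) * ((1 / 2) ^ (2 ^ (i + 2))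
        * 2 ^ (2 ^ (i + 1)))) = 2 ^ (h + 1 + h * 2 ^ p + 2 ^ (i + 1)) / 2 ^ (2 ^ (i + 2)) := by
      rw [← pow_mul, one_div, inv_pow, pow_add (2 : ℝ) (h + 1 + h * 2 ^ p),
        pow_add (2 : ℝ) (h + 1)]
      ring
    rw [h5, div_lt_one (by positivity)]
    apply pow_lt_pow_right₀ (by norm_num)
    have h6 : 2 ^ (i + 2) = 2 * 2 ^ (i + 1) := by rw [pow_succ]; ring
    have h7 : h * (2 ^ p + 1) = h * 2 ^ p + h := by ring
    rw [h6]
    omega
  -- the order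
  set p' : ℕ → Prop := fun m => (hank a 0 m).det ≠ 0 with hp'
  classical
  have hp0 : p' 0 := by simp [p']
  set d := Nat.findGreatest p' (2 ^ (i - r') - 1) with hd
  have hd0 : (hank a 0 d).det ≠ 0 := Nat.findGreatest_spec (P := p') (Nat.zero_le _) hp0
  have hdlt : d < 2 ^ (i - r') := by
    have := Nat.findGreatest_le (P := p') (2 ^ (i - r') - 1)
    have h2 : 0 < 2 ^ (i - r') := by positivity
    omega
  have hdmax : ∀ m, d < m → m ≤ 2 ^ (i + r') → (hank a 0 m).det = 0 := by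
    intro m hm1 hm2
    rcases lt_or_ge m (2 ^ (i - r')) with h1 | h1
    · by_contra hne
      exact Nat.findGreatest_is_greatest (P := p') hm1 (by omega) hne
    · exact hvanish m h1 hm2
  have hMbig : 2 ^ (i - r') + 2 ^ (i + r' - 1) ≤ 2 ^ (i + r') := by
    have h1 : 2 ^ (i + r') = 2 * 2 ^ (i + r' - 1) := by
      rw [← pow_succ']; congr 1; omega
    have h2 : 2 ^ (i - r') ≤ 2 ^ (i + r' - 1) := Nat.pow_le_pow_right (by norm_num) (by omega)
    omega
  have hMge : 2 ^ (i + 1) ≤ 2 ^ (i + r' - 1) := Nat.pow_le_pow_right (by norm_num) (by omega)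
  have hd0q : (hank (fun k => (a k : ℚ)) 0 d).det ≠ 0 := by
    rw [hank_det_castQ]; exact_mod_cast hd0
  obtain ⟨Pq, hPqm, hPqd, -, hPqa⟩ := kronecker (fun k => (a k : ℚ)) 0 d (2 ^ (i + r')) hd0q
    (fun m hm1 hm2 => by rw [hank_det_castQ, hdmax m hm1 hm2, Int.cast_zero])
  have hbig : (hank a 0 d).det.natAbs < 2 ^ (2 ^ (i + r') + 1 - d) := by
    apply natAbs_lt_of_sq_lt
    rcases Nat.eq_zero_or_pos d with h1 | h1
    · rw [h1]
      simp only [Matrix.det_fin_zero, Int.cast_one, one_pow, Nat.sub_zero]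
      exact one_lt_pow₀ (by norm_num) (by omega)
    · obtain ⟨d', hd'⟩ := Nat.exists_eq_add_of_le' h1
      have h2 := det_zero_bound α ξ (by linarith) a ha t i p r' δ hδ1 hg d' (by omega)
      rw [← hd'] at h2
      refine lt_of_le_of_lt h2 ?_
      have h3 : ∏ j ∈ Finset.range d', FF (Hm α i p) p i δ j
          ≤ ∏ j ∈ Finset.range d', FF (Hm α i p) p i 1 (0 + j) := by
        apply Finset.prod_le_prod
        · intro j _; exact FF_nonneg _ (by linarith) p i δ hδ0.le j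
        · intro j _; rw [zero_add]; exact FF_mono_delta _ p i δ 1 hδ1 j
      have h4 : d' ≤ 2 ^ i := by
        have : 2 ^ (i - r') ≤ 2 ^ i := Nat.pow_le_pow_right (by norm_num) (by omega)
        omega
      have h5 := prod_FF_le (Hm α i p) hHm1 p i i 0 d' le_rfl (by omega)
      have h6 : 2 ^ i * (i - i + 2) = 2 ^ (i + 1) := by
        rw [Nat.sub_self, zero_add, pow_succ]
      rw [h6] at h5
      have h7 : ((a 0 : ℝ) ^ 2 + Hm α i p) * ∏ j ∈ Finset.range d', FF (Hm α i p) p i δ j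
          ≤ 2 ^ (h + 1) * ((2 ^ h) ^ (2 ^ p) * 2 ^ (2 ^ (i + 1))) := by
        apply mul_le_mul hfirst _ (Finset.prod_nonneg (fun j _ =>
          FF_nonneg _ (by linarith) p i δ hδ0.le j)) (by positivity)
        refine (h3.trans h5).trans ?_
        gcongr
      refine lt_of_le_of_lt h7 ?_
      rw [← pow_mul, ← pow_add, ← pow_add]
      apply pow_lt_pow_right₀ (by norm_num)
      have h8 : h * (2 ^ p + 1) = h * 2 ^ p + h := by ring
      omega
  obtain ⟨P₀, hP₀m, hP₀⟩ := integral_of_window a 0 d (2 ^ (i + r')) hd0 Pq hPqm hPqd hPqa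
    (by omega) hbig
  have hP₀d : P₀.natDegree = d := by
    rw [← hPqd, ← hP₀]
    exact (hP₀m.natDegree_map (Int.castRingHom ℚ)).symm
  have hP₀a : ∀ n, n < 2 ^ (i + r') → act P₀ a n = 0 := by
    intro n hn
    have h1 := hPqa n hn
    rw [← hP₀, act_cast P₀ hP₀m, zero_add] at h1
    exact_mod_cast h1
  -- factor out the power of `X`
  obtain ⟨P, hPfac, hPX⟩ := Polynomial.exists_eq_pow_rootMultiplicity_mul_and_not_dvd P₀
    hP₀m.ne_zero 0
  rw [map_zero, sub_zero] at hPfac hPX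
  rw [X_dvd_iff] at hPX
  set j := rootMultiplicity 0 P₀ with hj
  have hPm : P.Monic := by
    rw [hPfac] at hP₀m
    exact (monic_X_pow j).of_mul_monic_left hP₀m
  have hjd : j + P.natDegree = d := by
    rw [← hP₀d, hPfac, (monic_X_pow j).natDegree_mul hPm, natDegree_X_pow]
  have hPa : ∀ n, j ≤ n → n < j + 2 ^ (i + r') → act P a n = 0 := by
    intro n hn1 hn2
    obtain ⟨w, rfl⟩ := Nat.exists_eq_add_of_le' hn1
    have h1 := hP₀a w (by omega)
    rw [hPfac, act_X_pow_mul] at h1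
    exact h1
  -- integer version of `eq_zero_of_act`
  have hint : ∀ R : ℤ[X], R.Monic → R.natDegree < d → (∀ r, r < d → act R a r = 0) → False := by
    intro R hRm hRd hRa
    have h1 := eq_zero_of_act (fun k => (a k : ℚ)) 0 d hd0q (R.map (Int.castRingHom ℚ)) (by
      rw [degree_eq_natDegree (hRm.map _).ne_zero, hRm.natDegree_map]
      exact_mod_cast hRd) (fun r hr => by
      rw [act_cast R hRm, zero_add, hRa r hr, Int.cast_zero])
    exact (hRm.map (Int.castRingHom ℚ)).ne_zero h1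
  refine ⟨P, j, hPm, hPX, by omega, hPa, ?_, ?_⟩
  · intro hj1 hcon
    apply hint (X ^ (j - 1) * P) ((monic_X_pow _).mul hPm)
    · rw [(monic_X_pow (j - 1)).natDegree_mul hPm, natDegree_X_pow]
      omega
    · intro r hr
      rw [act_X_pow_mul]
      rcases Nat.eq_zero_or_pos r with h1 | h1
      · rw [h1, zero_add]; exact hcon
      · exact hPa _ (by omega) (by omega)
  · intro hcon
    have hconq : (hank (fun k => (a k : ℚ)) j P.natDegree).det = 0 := by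
      rw [hank_det_castQ, hcon, Int.cast_zero]
    obtain ⟨R, hR0, hRdeg, hRa⟩ := exists_act_zero (fun k => (a k : ℚ)) j P.natDegree hconq
    have hRn : R.natDegree < P.natDegree := (natDegree_lt_iff_degree_lt hR0).mpr hRdeg
    have hPqm' : (P.map (Int.castRingHom ℚ)).Monic := hPm.map _
    have hPqn : (P.map (Int.castRingHom ℚ)).natDegree = P.natDegree := hPm.natDegree_map _
    have h1 : ∀ s, s < 2 ^ (i + r') - d →
        act (P.map (Int.castRingHom ℚ)) (act R (fun k => (a k : ℚ))) (j + s) = 0 := by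
      intro s hs
      rw [act_comm]
      apply act_eq_zero_of
      intro u hu
      rw [act_cast P hPm, hPa _ (by omega) (by omega), Int.cast_zero]
    have h2 := forward_zero (P.map (Int.castRingHom ℚ)) hPqm' (act R (fun k => (a k : ℚ))) j
      (2 ^ (i + r') - d) (fun r hr => hRa r (by rw [hPqn] at hr; exact hr)) h1
    have h3 : X ^ j * R = 0 := by
      apply eq_zero_of_act (fun k => (a k : ℚ)) 0 d hd0q
      · have h4 : (X ^ j * R).natDegree = j + R.natDegree := by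
          rw [natDegree_mul (pow_ne_zero _ X_ne_zero) hR0, natDegree_X_pow]
        rw [degree_eq_natDegree (mul_ne_zero (pow_ne_zero _ X_ne_zero) hR0), h4]
        have h5 : j + R.natDegree < d := by omega
        exact_mod_cast h5
      · intro r hr
        rw [act_X_pow_mul, zero_add, add_comm]
        have h6 : 2 ^ (i - r') ≤ 2 ^ (i + r' - 1) :=
          Nat.pow_le_pow_right (by norm_num) (by omega)
        rw [hPqn] at h2
        exact h2 r (by omega)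
    exact (mul_ne_zero (pow_ne_zero _ X_ne_zero) hR0) h3

end Har
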