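import Mathlib
import Pool.Agent.Lib_helper62.Har.Poly
import Pool.Agent.Lib_helper62.Har.Window2

/-!
The self-reciprocal case.
-/

set_option autoImplicit false

namespace Har

open Polynomial

theorem Upoly_sum (α θ : ℝ) (hα : 0 ≤ α) (hθ0 : 0 ≤ θ) (k : ℕ) (σ : ℕ → ℝ) (τ : ℝ)
    (hκ : 3 * (1 + α ^ 2) * (∑ i ∈ Finset.range k, σ i ^ 2 + τ ^ 2) ≤ θ ^ 2) :
    ∑ l ∈ Finset.range (k + 2), (Upoly α τ k σ).coeff l ^ 2
      ≤ 1 + α ^ 2 + 2 * α * θ + θ ^ 2 := by
  set U := Upoly α τ k σ with hU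
  set E := Epoly α τ k σ with hE
  have hUE : U = X ^ (k + 1) - C α * X ^ k + E := Upoly_eq α τ k σ
  have hEsum : ∑ l ∈ Finset.range (k + 1), E.coeff l ^ 2 ≤ θ ^ 2 :=
    (Epoly_sum α τ k σ).trans hκ
  have hE0 : ∀ l, k + 1 ≤ l → E.coeff l = 0 := Epoly_coeff_zero α τ k σ
  have hEk : |E.coeff k| ≤ θ := by
    have h1 : E.coeff k ^ 2 ≤ θ ^ 2 := by
      refine le_trans ?_ hEsum
      exact Finset.single_le_sum (f := fun l => E.coeff l ^ 2) (fun _ _ => sq_nonneg _)
        (Finset.mem_range.mpr (Nat.lt_succ_self k))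
    exact abs_le_of_sq_le_sq h1 hθ0
  have hUcoeff : ∀ l, U.coeff l = (if l = k + 1 then 1 else 0) - α * (if l = k then 1 else 0)
      + E.coeff l := by
    intro l
    rw [hUE, coeff_add, coeff_sub, coeff_X_pow, coeff_C_mul, coeff_X_pow]
  rw [Finset.sum_range_succ, Finset.sum_range_succ]
  have h1 : U.coeff (k + 1) = 1 := by
    rw [hUcoeff, if_pos rfl, if_neg (by omega), hE0 _ le_rfl]; ring
  have h2 : U.coeff k = E.coeff k - α := by
    rw [hUcoeff, if_neg (by omega), if_pos rfl]; ring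
  have h3 : ∑ l ∈ Finset.range k, U.coeff l ^ 2 = ∑ l ∈ Finset.range k, E.coeff l ^ 2 := by
    apply Finset.sum_congr rfl
    intro l hl
    rw [Finset.mem_range] at hl
    rw [hUcoeff, if_neg (by omega), if_neg (by omega)]
    ring
  rw [Finset.sum_range_succ] at hEsum
  rw [h1, h2, h3]
  have h4 : -θ ≤ E.coeff k := (abs_le.mp hEk).1
  nlinarith

/-- The `ℓ¹` norm of `P` (Landau and Mignotte). -/
theorem coeff_sum_le (α : ℝ) (hα : 0 ≤ α) (P : ℤ[X]) (hPm : P.Monic) (k : ℕ) (σ : ℕ → ℝ)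
    (τ : ℝ) (hdvd : P.map (Int.castRingHom ℝ) ∣ Upoly α τ k σ)
    (hκ : 3 * (1 + α ^ 2) * (∑ i ∈ Finset.range k, σ i ^ 2 + τ ^ 2) ≤ 1) :
    ∑ l ∈ Finset.range (P.natDegree + 1), |(P.coeff l : ℝ)| ≤ 2 ^ P.natDegree * (2 + α) := by
  obtain ⟨V, hV⟩ := hdvd
  set Pr := P.map (Int.castRingHom ℝ) with hPr
  have hPrm : Pr.Monic := hPm.map _
  have hPrd : Pr.natDegree = P.natDegree := hPm.natDegree_map _
  obtain ⟨hUm, hUn⟩ := Upoly_spec α τ k σ
  have hVm : V.Monic := by
    rw [hV] at hUm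
    exact hPrm.of_mul_monic_left hUm
  set U := Upoly α τ k σ with hU
  set Pc := Pr.map Complex.ofRealHom with hPc
  set Vc := V.map Complex.ofRealHom with hVc
  have hPcm : Pc.Monic := hPrm.map _
  have hPcd : Pc.natDegree = P.natDegree := by rw [hPc, hPrm.natDegree_map, hPrd]
  have hVcm : Vc.Monic := hVm.map _
  have hUc : U.map Complex.ofRealHom = Pc * Vc := by rw [hV, Polynomial.map_mul]
  have hM : (Pc * Vc).mahlerMeasure ≤ 2 + α := by
    refine (mahlerMeasure_le_sqrt_sum_sq_norm_coeff _).trans ?_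
    rw [Real.sqrt_le_left (by linarith), ← hUc]
    calc ∑ i ∈ (U.map Complex.ofRealHom).support, ‖(U.map Complex.ofRealHom).coeff i‖ ^ 2
        ≤ ∑ i ∈ Finset.range (k + 2), ‖(U.map Complex.ofRealHom).coeff i‖ ^ 2 := by
          apply Finset.sum_le_sum_of_subset_of_nonneg
          · intro i hi
            rw [Finset.mem_range]
            have h1 := le_natDegree_of_mem_supp i hi
            rw [hUm.natDegree_map, hUn] at h1
            omega
          · intro i _ _; positivity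
      _ = ∑ i ∈ Finset.range (k + 2), U.coeff i ^ 2 := by
          apply Finset.sum_congr rfl
          intro i _
          rw [coeff_map]
          simp
      _ ≤ 1 + α ^ 2 + 2 * α * 1 + 1 ^ 2 :=
          Upoly_sum α 1 hα zero_le_one k σ τ (by rw [one_pow]; exact hκ)
      _ ≤ (2 + α) ^ 2 := by nlinarith
  have hcoef : ∀ l, |(P.coeff l : ℝ)| ≤ (P.natDegree.choose l : ℝ) * (2 + α) := by
    intro l
    have h1 := norm_coeff_le_choose_mul_mahlerMeasure_of_one_le_mahlerMeasure l Pc Vc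
      (one_le_mahlerMeasure_of_one_le_norm_leadingCoeff (by rw [hVcm.leadingCoeff]; simp))
    rw [hPcd] at h1
    have h2 : ‖Pc.coeff l‖ = |(P.coeff l : ℝ)| := by
      rw [hPc, coeff_map, hPr, coeff_map]
      simp
    rw [h2] at h1
    refine h1.trans ?_
    gcongr
  calc ∑ l ∈ Finset.range (P.natDegree + 1), |(P.coeff l : ℝ)|
      ≤ ∑ l ∈ Finset.range (P.natDegree + 1), (P.natDegree.choose l : ℝ) * (2 + α) :=
        Finset.sum_le_sum (fun l _ => hcoef l)
    _ = 2 ^ P.natDegree * (2 + α) := by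
        rw [← Finset.sum_mul]
        congr 1
        have := Nat.sum_range_choose P.natDegree
        exact_mod_cast this

/-- Reflection of a self-reciprocal polynomial. -/
theorem reflect_eq_of_reciprocal (P : ℤ[X]) (ε : ℝ)
    (hP : (ε = 1 ∧ P = P.reverse) ∨ (ε = -1 ∧ P = -P.reverse)) :
    reflect P.natDegree (P.map (Int.castRingHom ℝ)) = C ε * P.map (Int.castRingHom ℝ) := by
  have h0 : reflect P.natDegree (P.map (Int.castRingHom ℝ))
      = P.reverse.map (Int.castRingHom ℝ) := by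
    rw [reflect_map]
    rfl
  rw [h0]
  rcases hP with ⟨h1, h2⟩ | ⟨h1, h2⟩
  · rw [h1, map_one, one_mul, ← h2]
  · have h3 : P.reverse = -P := (neg_eq_iff_eq_neg.mpr h2).symm
    rw [h1, h3]
    simp

/-- Case `deg P < j`. -/
theorem r2_bound (α ξ : ℝ) (hα : 1 < α) (a : ℕ → ℤ) (ρ : ℝ) (j M k N : ℕ) (hj : 1 ≤ j)
    (hρ : ∀ n, j - 1 ≤ n → |(a n : ℝ) - ξ * α ^ n| ≤ ρ) (P : ℤ[X]) (hPm : P.Monic)
    (ε : ℝ) (hP : (ε = 1 ∧ P = P.reverse) ∨ (ε = -1 ∧ P = -P.reverse))
    (hPa : ∀ n, j ≤ n → n < j + M → act P a n = 0) (hy : act P a (j - 1) ≠ 0)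
    (σ : ℕ → ℝ) (τ κ : ℝ) (hkM : k + 2 ≤ M) (hN : j + k + 1 ≤ N)
    (hdvd : P.map (Int.castRingHom ℝ) ∣ Upoly α τ k σ)
    (hσ : ∑ i ∈ Finset.range k, σ i ^ 2 + τ ^ 2 ≤ κ) :
    α ≤ (1 + α) ^ 2 * ρ + Real.sqrt (3 * (1 + α ^ 2) * κ * GG α a (j - 1) N) := by
  obtain ⟨V, hV⟩ := hdvd
  set Pr := P.map (Int.castRingHom ℝ) with hPr
  have hPrm : Pr.Monic := hPm.map _
  have hPrd : Pr.natDegree = P.natDegree := hPm.natDegree_map _
  obtain ⟨hUm, hUn⟩ := Upoly_spec α τ k σ
  have hVm : V.Monic := by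
    rw [hV] at hUm
    exact hPrm.of_mul_monic_left hUm
  set U := Upoly α τ k σ with hU
  set E := Epoly α τ k σ with hE
  set v := V.natDegree with hv
  set d := P.natDegree with hd
  have hdv : d + v = k + 1 := by
    rw [← hUn, hV, hPrm.natDegree_mul hVm, hPrd]
  have hUE : U = X ^ (k + 1) - C α * X ^ k + E := Upoly_eq α τ k σ
  have hE0 : ∀ l, k + 1 ≤ l → E.coeff l = 0 := Epoly_coeff_zero α τ k σ
  set Us := reflect (k + 1) U with hUs
  set Es := reflect (k + 1) E with hEs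
  have hUsE : Us = 1 - C α * X + Es := by
    rw [hUs, hUE, reflect_add, reflect_sub, reflect_monomial, reflect_C_mul_X_pow,
      revAt_le le_rfl, revAt_le (by omega), Nat.sub_self, pow_zero,
      show k + 1 - k = 1 by omega, pow_one]
  have hUs2 : Us = C ε * (reflect v V * Pr) := by
    rw [hUs, hV, ← hdv, reflect_mul Pr V hPrd.le le_rfl, hPr, reflect_eq_of_reciprocal P ε hP]
    ring
  have hεabs : |ε| = 1 := by
    rcases hP with ⟨h, -⟩ | ⟨h, -⟩ <;> rw [h] <;> simp
  set ar : ℕ → ℝ := fun n => (a n : ℝ) with har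
  set b := dif α ar with hb
  set y : ℤ := act P a (j - 1) with hydef
  set z : ℕ → ℝ := dif α (act Pr ar) with hz
  have hPrb : act Pr b = z := by
    rw [hb, ← act_sub_C, act_comm, act_sub_C]
  have hPra : ∀ n, act Pr ar n = ((act P a n : ℤ) : ℝ) := fun n => by
    rw [hPr, har, act_cast P hPm]
  have hz0 : z (j - 1) = -α * (y : ℝ) := by
    rw [hz]
    simp only [dif]
    rw [hPra, hPra, show j - 1 + 1 = j by omega, hPa j le_rfl (by omega)]
    rw [← hydef]
    simp
  have hz1 : ∀ i, 1 ≤ i → i ≤ v → z (j - 1 + i) = 0 := by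
    intro i hi1 hi2
    rw [hz]
    simp only [dif]
    rw [hPra, hPra, hPa _ (by omega) (by omega), hPa _ (by omega) (by omega)]
    simp
  have hVs0 : (reflect v V).coeff 0 = 1 := by
    rw [coeff_reflect, revAt_zero, hv, hVm.coeff_natDegree]
  have hVsn : (reflect v V).natDegree ≤ v := by
    refine natDegree_reflect_le.trans ?_
    rw [← hv, max_self]
  have hact1 : act Us b (j - 1) = ε * (-α * y) := by
    rw [hUs2, act_mul, act_C, act_mul, hPrb]
    congr 1
    rw [act_apply_of_lt (reflect v V) z (j - 1) (v + 1) (by omega), Finset.sum_range_succ',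
      Finset.sum_eq_zero, zero_add, hVs0, one_mul, add_zero, hz0]
    intro i hi
    rw [Finset.mem_range] at hi
    rw [hz1 (i + 1) (by omega) (by omega), mul_zero]
  have hact2 : act Us b (j - 1) = b (j - 1) - α * b (j - 1 + 1) + act Es b (j - 1) := by
    rw [hUsE, act_add, act_sub, Pi.add_apply, Pi.sub_apply, act_one, act_mul, act_C, act_X]
  -- the main term
  set er : ℕ → ℝ := fun n => ar n - ξ * α ^ n with her
  have hber : b = dif α er := by rw [hb, her, dif_err]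
  have hmain : |b (j - 1) - α * b (j - 1 + 1)| ≤ (1 + α) ^ 2 * ρ := by
    have h1 : b (j - 1) - α * b (j - 1 + 1)
        = (1 + α ^ 2) * er (j - 1 + 1) - α * er (j - 1) - α * er (j - 1 + 1 + 1) := by
      rw [hber]
      simp only [dif]
      ring
    rw [h1]
    have h2 := hρ (j - 1) le_rfl
    have h3 := hρ (j - 1 + 1) (by omega)
    have h4 := hρ (j - 1 + 1 + 1) (by omega)
    have h5 : |(1 + α ^ 2) * er (j - 1 + 1)| ≤ (1 + α ^ 2) * ρ := by
      rw [abs_mul, abs_of_pos (by positivity : (0 : ℝ) < 1 + α ^ 2)]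
      exact mul_le_mul_of_nonneg_left h3 (by positivity)
    have h6 : |α * er (j - 1)| ≤ α * ρ := by
      rw [abs_mul, abs_of_pos (by linarith : (0 : ℝ) < α)]
      exact mul_le_mul_of_nonneg_left h2 (by linarith)
    have h7 : |α * er (j - 1 + 1 + 1)| ≤ α * ρ := by
      rw [abs_mul, abs_of_pos (by linarith : (0 : ℝ) < α)]
      exact mul_le_mul_of_nonneg_left h4 (by linarith)
    calc _ ≤ |(1 + α ^ 2) * er (j - 1 + 1) - α * er (j - 1)| + |α * er (j - 1 + 1 + 1)| :=
          abs_sub _ _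
      _ ≤ (|(1 + α ^ 2) * er (j - 1 + 1)| + |α * er (j - 1)|) + |α * er (j - 1 + 1 + 1)| := by
          gcongr
          exact abs_sub _ _
      _ ≤ ((1 + α ^ 2) * ρ + α * ρ) + α * ρ := by gcongr
      _ = (1 + α) ^ 2 * ρ := by ring
  -- the error term
  have hEsn : Es.natDegree ≤ k + 1 := by
    refine natDegree_reflect_le.trans ?_
    apply max_le le_rfl
    rw [natDegree_le_iff_coeff_eq_zero]
    intro N' hN'
    exact hE0 N' (by omega)
  have hEsum : ∑ l ∈ Finset.range (k + 2), Es.coeff l ^ 2 ≤ 3 * (1 + α ^ 2) * κ := by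
    have h1 : ∑ l ∈ Finset.range (k + 2), Es.coeff l ^ 2
        = ∑ l ∈ Finset.range (k + 2), E.coeff l ^ 2 := by
      rw [← Finset.sum_range_reflect (fun l => E.coeff l ^ 2) (k + 2)]
      apply Finset.sum_congr rfl
      intro l hl
      rw [Finset.mem_range] at hl
      rw [hEs, coeff_reflect, revAt_le (by omega), show k + 2 - 1 - l = k + 1 - l by omega]
    rw [h1, Finset.sum_range_succ, hE0 (k + 1) le_rfl]
    have h2 := Epoly_sum α τ k σ
    have h3 : 3 * (1 + α ^ 2) * (∑ i ∈ Finset.range k, σ i ^ 2 + τ ^ 2)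
        ≤ 3 * (1 + α ^ 2) * κ := mul_le_mul_of_nonneg_left hσ (by positivity)
    rw [← hE] at h2
    linarith
  have hκ0 : 0 ≤ κ := by
    refine le_trans ?_ hσ
    have : 0 ≤ ∑ i ∈ Finset.range k, σ i ^ 2 := Finset.sum_nonneg (fun i _ => sq_nonneg _)
    positivity
  have herr : |act Es b (j - 1)|
      ≤ Real.sqrt (3 * (1 + α ^ 2) * κ * GG α a (j - 1) N) := by
    rw [act_apply_of_lt Es b (j - 1) (k + 2) (by omega)]
    apply comb_le _ _ _ _ _ (by positivity) hEsum
    have h1 := sum_b_le α a (j - 1) (k + 2)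
    refine h1.trans ?_
    exact GG_mono α a le_rfl (by omega)
  have hy1 : (1 : ℝ) ≤ |(y : ℝ)| := by
    have h1 : 1 ≤ |y| := Int.one_le_abs hy
    exact_mod_cast h1
  have hlow : α ≤ |act Us b (j - 1)| := by
    rw [hact1, abs_mul, hεabs, one_mul, abs_mul, abs_neg, abs_of_pos (by linarith : (0 : ℝ) < α)]
    nlinarith
  calc α ≤ |act Us b (j - 1)| := hlow
    _ ≤ |b (j - 1) - α * b (j - 1 + 1)| + |act Es b (j - 1)| := by
        rw [hact2]; exact abs_add_le _ _
    _ ≤ _ := add_le_add hmain herr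

end Har
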