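import Mathlib
import Pool.Agent.Lib_helper62.Har.CaseR

/-!
The self-reciprocal case with `j ≤ deg P`.
-/

set_option autoImplicit false

namespace Har

open Matrix Polynomial

/-- The column operations with the last column replaced by the combination given by `Y`. -/
noncomputable def opY (d : ℕ) (α : ℝ) (Y : ℝ[X]) : Matrix (Fin d) (Fin d) ℝ :=
  Matrix.of fun i j => if (j : ℕ) + 1 = d then Y.coeff i else opT d α i j

theorem opY_det (m : ℕ) (α : ℝ) (Y : ℝ[X]) (hY : Y.coeff m = 1) :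
    (opY (m + 1) α Y).det = 1 := by
  have h : (opY (m + 1) α Y).BlockTriangular id := by
    intro i j hij
    simp only [id_eq] at hij
    have hij' : (j : ℕ) < i := hij
    have hi := i.2
    have h0 : ¬ ((j : ℕ) + 1 = m + 1) := by omega
    have h1 : ¬ i = j := fun h => by rw [h] at hij'; omega
    have h2 : ¬ ((i : ℕ) + 1 = j) := by omega
    simp only [opY, opT, Matrix.of_apply, if_neg h0, if_neg h1, if_neg h2]
    ring
  rw [Matrix.det_of_upperTriangular h]
  apply Finset.prod_eq_one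
  intro i _
  have h2 : ¬ ((i : ℕ) + 1 = i) := by omega
  by_cases h0 : (i : ℕ) + 1 = m + 1
  · have h3 : (i : ℕ) = m := by omega
    simp [opY, h3, hY]
  · simp only [opY, opT, Matrix.of_apply, if_neg h0, if_neg h2]
    simp

theorem hank_opY_last (a : ℕ → ℝ) (n m : ℕ) (α : ℝ) (Y : ℝ[X]) (hY : Y.natDegree = m)
    (i : Fin (m + 1)) :
    (hank a n (m + 1) * opY (m + 1) α Y) i (Fin.last m) = act Y a (n + i) := by
  rw [Matrix.mul_apply, act_apply, hY, Finset.sum_range]
  apply Finset.sum_congr rfl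
  intro l _
  simp only [hank, opY, Matrix.of_apply, Fin.val_last, if_true]
  ring

theorem hank_opY_ne (a : ℕ → ℝ) (n d : ℕ) (α : ℝ) (Y : ℝ[X]) (i j : Fin d)
    (hj : ¬ ((j : ℕ) + 1 = d)) :
    (hank a n d * opY d α Y) i j = (hank a n d * opT d α) i j := by
  rw [Matrix.mul_apply, Matrix.mul_apply]
  apply Finset.sum_congr rfl
  intro l _
  simp only [opY, Matrix.of_apply, if_neg hj]

theorem hank_det_sq_le_Y (a : ℕ → ℝ) (α : ℝ) (n m : ℕ) (Y : ℝ[X]) (hYm : Y.Monic)
    (hYd : Y.natDegree = m + 1) (F G Z : ℝ) (hG0 : 0 ≤ G)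
    (h0 : a n ^ 2 + ∑ i ∈ Finset.range (m + 1), dif α a (n + i) ^ 2 ≤ F)
    (hG : ∀ j, j < m → dif α a (n + j) ^ 2
      + ∑ i ∈ Finset.range (m + 1), dif α (dif α a) (n + j + i) ^ 2 ≤ G)
    (hZ : act Y a n ^ 2 + ∑ i ∈ Finset.range (m + 1), dif α (act Y a) (n + i) ^ 2 ≤ Z) :
    (hank a n (m + 2)).det ^ 2 ≤ F * G ^ m * Z := by
  have hYc : Y.coeff (m + 1) = 1 := by rw [← hYd]; exact hYm.coeff_natDegree
  set B := (opT (m + 2) α)ᵀ * (hank a n (m + 2) * opY (m + 2) α Y) with hB
  have h1 : (hank a n (m + 2)).det = B.det := by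
    rw [hB, det_opT_mul, Matrix.det_mul, opY_det (m + 1) α Y hYc, mul_one]
  have hF0 : 0 ≤ F := le_trans (by positivity) h0
  have hZ0 : 0 ≤ Z := le_trans (by positivity) hZ
  -- entries of the columns other than the last one
  have hent : ∀ i j : Fin (m + 2), ¬ ((j : ℕ) + 1 = m + 2) →
      B i j = ((opT (m + 2) α)ᵀ * (hank a n (m + 2) * opT (m + 2) α)) i j := by
    intro i j hj
    rw [hB, Matrix.mul_apply, Matrix.mul_apply]
    apply Finset.sum_congr rfl
    intro l _
    rw [hank_opY_ne a n (m + 2) α Y l j hj]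
  -- column 0
  have hc0 : ∑ i, B i 0 ^ 2 ≤ F := by
    refine le_trans (le_of_eq ?_) h0
    have h2 : ∀ i : Fin (m + 2), B i 0 = if (i : ℕ) = 0 then a n else dif α a (n + i - 1) := by
      intro i
      rw [hent i 0 (by simp), hank_red]
      simp
    simp_rw [h2]
    rw [Fin.sum_univ_succ, Finset.sum_range]
    congr 1
  -- middle columns
  have hcm : ∀ j : Fin m, ∑ i, B i (Fin.succ (Fin.castSucc j)) ^ 2 ≤ G := by
    intro j
    refine le_trans (le_of_eq ?_) (hG j j.2)
    have h2 : ∀ i : Fin (m + 2), B i (Fin.succ (Fin.castSucc j))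
        = if (i : ℕ) = 0 then dif α a (n + j) else dif α (dif α a) (n + i + j - 1) := by
      intro i
      have hj := j.2
      rw [hent i _ (by simp only [Fin.val_succ, Fin.val_castSucc]; omega), hank_red]
      simp only [Fin.val_succ, Fin.val_castSucc, Nat.add_eq_zero_iff, one_ne_zero, and_false,
        if_false]
      split_ifs with h3
      · congr 1
      · congr 1
    simp_rw [h2]
    rw [Fin.sum_univ_succ, Finset.sum_range]
    congr 1
    apply Finset.sum_congr rfl
    intro i _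
    simp only [Fin.val_succ, Nat.add_eq_zero_iff, one_ne_zero, and_false, if_false]
    congr 2
    omega
  -- last column
  have hcl : ∑ i, B i (Fin.last (m + 1)) ^ 2 ≤ Z := by
    refine le_trans (le_of_eq ?_) hZ
    rw [Fin.sum_univ_succ, Finset.sum_range]
    congr 1
    · rw [hB, opT_mul_zero _ _ _ _ rfl, hank_opY_last a n (m + 1) α Y hYd]
      simp
    · apply Finset.sum_congr rfl
      intro i _
      have h3 : B (Fin.succ i) (Fin.last (m + 1)) = dif α (act Y a) (n + i) := by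
        have h4 : Fin.succ i = ⟨(i : ℕ) + 1, by omega⟩ := rfl
        rw [h4, hB, opT_mul_succ, hank_opY_last a n (m + 1) α Y hYd,
          hank_opY_last a n (m + 1) α Y hYd]
        simp only [dif]
        congr 2
      rw [h3]
  rw [h1]
  refine (det_sq_le (m + 2) B).trans ?_
  rw [Fin.prod_univ_succ, Fin.prod_univ_castSucc]
  have hlast : Fin.succ (Fin.last m) = Fin.last (m + 1) := rfl
  rw [hlast]
  have hprod : ∏ j : Fin m, ∑ i, B i (Fin.succ (Fin.castSucc j)) ^ 2 ≤ G ^ m := by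
    calc ∏ j : Fin m, ∑ i, B i (Fin.succ (Fin.castSucc j)) ^ 2 ≤ ∏ j : Fin m, G :=
          Finset.prod_le_prod (fun j _ => by positivity) (fun j _ => hcm j)
      _ = G ^ m := by simp
  calc _ ≤ F * (G ^ m * Z) := by
        apply mul_le_mul hc0 _ (by positivity) hF0
        apply mul_le_mul hprod hcl (by positivity) (by positivity)
    _ = _ := by ring

/-- Coefficients of the quotient by `X - β`. -/
theorem quot_coeff_le (Q : ℝ[X]) (β : ℝ) (hβ0 : 0 ≤ β) (hβ1 : β ≤ 1) (l : ℕ) :
    |(Q /ₘ (X - C β)).coeff l| ≤ ∑ i ∈ Finset.range (Q.natDegree + 1), |Q.coeff i| := by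
  set Y := Q /ₘ (X - C β) with hY
  set d := Q.natDegree with hd
  have hdiv : C (Q.eval β) + (X - C β) * Y = Q := by
    have := modByMonic_add_div Q (X - C β)
    rwa [modByMonic_X_sub_C_eq_C_eval] at this
  have hYd : Y.natDegree = d - 1 := by
    rw [hY, natDegree_divByMonic Q (monic_X_sub_C β), natDegree_X_sub_C]
  have hrec : ∀ l, Y.coeff l = Q.coeff (l + 1) + β * Y.coeff (l + 1) := by
    intro l
    conv_rhs => rw [← hdiv]
    rw [coeff_add, coeff_C, if_neg (by omega), sub_mul, coeff_sub, coeff_X_mul, coeff_C_mul]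
    ring
  have key : ∀ t l, l + t = d → |Y.coeff l| ≤ ∑ i ∈ Finset.Ico (l + 1) (d + 1), |Q.coeff i| := by
    intro t
    induction t with
    | zero =>
      intro l hl
      rcases Nat.eq_zero_or_pos d with h0 | h0
      · have hQc : Q = C (Q.coeff 0) := eq_C_of_natDegree_eq_zero (by omega)
        have hY0 : Y = 0 := by
          rw [hY, divByMonic_eq_zero_iff (monic_X_sub_C β), degree_X_sub_C, hQc]
          exact lt_of_le_of_lt degree_C_le zero_lt_one
        rw [hY0, coeff_zero, abs_zero]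
        exact Finset.sum_nonneg (fun _ _ => abs_nonneg _)
      · rw [coeff_eq_zero_of_natDegree_lt (by omega), abs_zero]
        exact Finset.sum_nonneg (fun _ _ => abs_nonneg _)
    | succ t ih =>
      intro l hl
      have h1 := ih (l + 1) (by omega)
      rw [hrec l, Finset.sum_eq_sum_Ico_succ_bot (by omega)]
      calc |Q.coeff (l + 1) + β * Y.coeff (l + 1)| ≤ |Q.coeff (l + 1)| + |β * Y.coeff (l + 1)| :=
            abs_add_le _ _
        _ ≤ |Q.coeff (l + 1)| + |Y.coeff (l + 1)| := by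
            rw [abs_mul, abs_of_nonneg hβ0]
            have := abs_nonneg (Y.coeff (l + 1))
            nlinarith
        _ ≤ _ := by linarith
  rcases le_or_gt l d with h1 | h1
  · refine (key (d - l) l (by omega)).trans ?_
    apply Finset.sum_le_sum_of_subset_of_nonneg
    · intro i hi
      rw [Finset.mem_Ico] at hi
      rw [Finset.mem_range]
      omega
    · intro i _ _; exact abs_nonneg _
  · rw [coeff_eq_zero_of_natDegree_lt (by omega), abs_zero]
    exact Finset.sum_nonneg (fun _ _ => abs_nonneg _)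

theorem abs_a_le (α ξ : ℝ) (hα : 1 < α) (a : ℕ → ℤ)
    (ha : ∀ n, |(a n : ℝ) - ξ * α ^ n| ≤ 1 / 2) (n : ℕ) :
    |(a n : ℝ)| ≤ (|ξ| + 1) * α ^ n := by
  have h2 : |(a n : ℝ)| ≤ |(a n : ℝ) - ξ * α ^ n| + |ξ * α ^ n| := by
    calc |(a n : ℝ)| = |((a n : ℝ) - ξ * α ^ n) + ξ * α ^ n| := by ring_nf
      _ ≤ _ := abs_add_le _ _
  have h3 : |ξ * α ^ n| = |ξ| * α ^ n := by
    rw [abs_mul, abs_of_pos (by positivity : (0 : ℝ) < α ^ n)]
  have h4 : 1 ≤ α ^ n := one_le_pow₀ hα.le
  have := ha n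
  rw [h3] at h2
  nlinarith

/-- The value at `α`. -/
theorem eval_small (α ξ : ℝ) (hα : 1 < α) (a : ℕ → ℤ)
    (ha : ∀ n, |(a n : ℝ) - ξ * α ^ n| ≤ 1 / 2) (P : ℤ[X]) (hPm : P.Monic) (n : ℕ)
    (h : act P a n = 0) :
    |ξ| * α ^ n * |(P.map (Int.castRingHom ℝ)).eval α|
      ≤ ∑ i ∈ Finset.range (P.natDegree + 1), |(P.coeff i : ℝ)| := by
  set Pr := P.map (Int.castRingHom ℝ) with hPr
  have hPrd : Pr.natDegree = P.natDegree := hPm.natDegree_map _
  have hgeo : act Pr (fun k => ξ * α ^ k) n = ξ * α ^ n * Pr.eval α := by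
    rw [act_apply, eval_eq_sum_range, Finset.mul_sum]
    apply Finset.sum_congr rfl
    intro i _
    rw [pow_add]; ring
  have h1 : act Pr (fun k => (a k : ℝ)) n = 0 := by
    rw [hPr, act_cast P hPm a n, h, Int.cast_zero]
  have h2 : act Pr (fun k => ξ * α ^ k) n = - act Pr (fun k => (a k : ℝ) - ξ * α ^ k) n := by
    have : act Pr (fun k => (a k : ℝ) - ξ * α ^ k)
        = act Pr (fun k => (a k : ℝ)) - act Pr (fun k => ξ * α ^ k) := by
      unfold act
      rw [← map_sub]
      rfl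
    rw [this, Pi.sub_apply, h1]; ring
  rw [hgeo] at h2
  have h3 : |ξ| * α ^ n * |Pr.eval α| = |ξ * α ^ n * Pr.eval α| := by
    rw [abs_mul, abs_mul, abs_of_pos (by positivity : (0 : ℝ) < α ^ n)]
  rw [h3, h2, abs_neg, act_apply, hPrd]
  refine (Finset.abs_sum_le_sum_abs _ _).trans (Finset.sum_le_sum ?_)
  intro i _
  rw [abs_mul, hPr, coeff_map]
  have h4 := ha (n + i)
  have h5 : |(Int.castRingHom ℝ) (P.coeff i)| = |(P.coeff i : ℝ)| := rfl
  rw [h5]
  have h6 := abs_nonneg (P.coeff i : ℝ)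
  nlinarith

/-- The decay of `z = act Y a`. -/
theorem z_decay (β e A α : ℝ) (hβ0 : 0 ≤ β) (hβ1 : β ≤ 1) (hα : 1 ≤ α) (hA : 0 ≤ A)
    (a z : ℕ → ℝ) (j M : ℕ) (ha : ∀ n, |a n| ≤ A * α ^ n)
    (hz : ∀ n, j ≤ n → n < j + M → z (n + 1) = β * z n - e * a n) :
    ∀ t, t ≤ M → |z (j + t)| ≤ β ^ t * |z j| + |e| * t * A * α ^ (j + t) := by
  intro t
  induction t with
  | zero => intro _; simp
  | succ t ih =>
    intro ht
    have h1 := ih (by omega)
    rw [← add_assoc, hz (j + t) (by omega) (by omega)]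
    have h2 := ha (j + t)
    have hp : 0 ≤ |e| * t * A * α ^ (j + t) := by positivity
    calc |β * z (j + t) - e * a (j + t)| ≤ |β * z (j + t)| + |e * a (j + t)| := abs_sub _ _
      _ ≤ β * (β ^ t * |z j| + |e| * t * A * α ^ (j + t)) + |e| * (A * α ^ (j + t)) := by
          rw [abs_mul, abs_mul, abs_of_nonneg hβ0]
          gcongr
      _ ≤ β * (β ^ t * |z j|) + |e| * t * A * α ^ (j + t) + |e| * (A * α ^ (j + t)) := by
          nlinarith
      _ = β ^ (t + 1) * |z j| + (|e| * ((t : ℝ) + 1) * A) * α ^ (j + t) := by ring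
      _ ≤ β ^ (t + 1) * |z j| + (|e| * ((t : ℝ) + 1) * A) * α ^ (j + t + 1) := by
          have h3 : α ^ (j + t) ≤ α ^ (j + t + 1) := pow_le_pow_right₀ hα (by omega)
          have h4 : 0 ≤ |e| * ((t : ℝ) + 1) * A := by positivity
          have h5 := mul_le_mul_of_nonneg_left h3 h4
          linarith
      _ = _ := by push_cast; ring

end Har
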