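import Mathlib
import Pool.Agent.Lib_helper62.Har.CaseR1

/-!
The determinant bound in the self-reciprocal case with `j ≤ deg P`.
-/

set_option autoImplicit false

namespace Har

open Matrix Polynomial

theorem eval_recip (α : ℝ) (hα : 1 < α) (P : ℤ[X]) (hPm : P.Monic) (ε : ℝ)
    (hP : (ε = 1 ∧ P = P.reverse) ∨ (ε = -1 ∧ P = -P.reverse)) :
    |(P.map (Int.castRingHom ℝ)).eval α⁻¹| ≤ |(P.map (Int.castRingHom ℝ)).eval α| := by
  set Pr := P.map (Int.castRingHom ℝ) with hPr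
  have hPrd : Pr.natDegree = P.natDegree := hPm.natDegree_map _
  have hεabs : |ε| = 1 := by
    rcases hP with ⟨h, -⟩ | ⟨h, -⟩ <;> rw [h] <;> simp
  have hα0 : α ≠ 0 := by positivity
  let _ : Invertible α := invertibleOfNonzero hα0
  have h1 := eval₂_reflect_mul_pow (RingHom.id ℝ) α P.natDegree Pr hPrd.le
  rw [reflect_eq_of_reciprocal P ε hP] at h1
  have h2 : (⅟α : ℝ) = α⁻¹ := invOf_eq_inv α
  rw [h2] at h1
  have h3 : ε * Pr.eval α⁻¹ * α ^ P.natDegree = Pr.eval α := by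
    have h4 : eval₂ (RingHom.id ℝ) α⁻¹ (C ε * Pr) = ε * Pr.eval α⁻¹ := by
      rw [eval₂_mul, eval₂_C]
      rfl
    rw [h4] at h1
    exact h1
  rw [← h3, abs_mul, abs_mul, hεabs, one_mul, abs_of_pos (by positivity : (0 : ℝ) < α ^ P.natDegree)]
  exact le_mul_of_one_le_right (abs_nonneg _) (one_le_pow₀ hα.le)

theorem r1_bound (α ξ : ℝ) (hα : 1 < α) (a : ℕ → ℤ)
    (ha : ∀ n, |(a n : ℝ) - ξ * α ^ n| ≤ 1 / 2) (P : ℤ[X]) (hPm : P.Monic) (ε : ℝ)
    (hP : (ε = 1 ∧ P = P.reverse) ∨ (ε = -1 ∧ P = -P.reverse)) (m : ℕ)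
    (hPd : P.natDegree = m + 2) (j M n : ℕ) (hjn : j ≤ n) (hjd : j ≤ m + 2) (hM : 4 * n ≤ M)
    (hdn : m + 3 ≤ n) (hn : (n : ℝ) ≤ |ξ| * α ^ n)
    (hPa : ∀ n', j ≤ n' → n' < j + M → act P a n' = 0) (δ : ℝ) (hδ0 : 0 ≤ δ) (hδ1 : δ ≤ 1)
    (hG : ∀ j', j' ≤ m → GG α a (n + j') (n + j' + m + 2) ≤ δ)
    (hS : ∑ l ∈ Finset.range (P.natDegree + 1), |(P.coeff l : ℝ)| ≤ 2 ^ (m + 2) * (2 + α)) :
    (hank (fun k => (a k : ℝ)) n (m + 2)).det ^ 2 ≤
      8 * (|ξ| + 1) ^ 4 * (1 + α) ^ 2 * (2 + α) ^ 2 * ((m : ℝ) + 2) ^ 3 *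
        (4 * α ^ 6) ^ (m + 2) * δ ^ m := by
  set ar : ℕ → ℝ := fun k => (a k : ℝ) with har
  set Pr := P.map (Int.castRingHom ℝ) with hPr
  have hPrm : Pr.Monic := hPm.map _
  have hPrd : Pr.natDegree = m + 2 := by rw [← hPd]; exact hPm.natDegree_map _
  set A : ℝ := |ξ| + 1 with hA
  have hξ0 : 0 ≤ |ξ| := abs_nonneg ξ
  have hA1 : 1 ≤ A := by rw [hA]; linarith
  have haA : ∀ n, |ar n| ≤ A * α ^ n := abs_a_le α ξ hα a ha
  set β : ℝ := α⁻¹ with hβ
  have hα0 : 0 < α := by linarith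
  have hβ0 : 0 < β := by positivity
  have hβ1 : β ≤ 1 := by rw [hβ]; exact inv_le_one_of_one_le₀ hα.le
  have hβα : β * α = 1 := by rw [hβ]; exact inv_mul_cancel₀ hα0.ne'
  set e := Pr.eval β with he
  set Y := Pr /ₘ (X - C β) with hY
  have hdiv : C e + (X - C β) * Y = Pr := by
    have := modByMonic_add_div Pr (X - C β)
    rwa [modByMonic_X_sub_C_eq_C_eval] at this
  have hYd : Y.natDegree = m + 1 := by
    rw [hY, natDegree_divByMonic Pr (monic_X_sub_C β), natDegree_X_sub_C, hPrd]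
    omega
  have hYm : Y.Monic := by
    unfold Polynomial.Monic
    rw [hY, leadingCoeff_divByMonic_X_sub_C]
    · exact hPrm
    · rw [degree_eq_natDegree hPrm.ne_zero, hPrd]
      exact_mod_cast (by omega : m + 2 ≠ 0)
  set S : ℝ := ∑ l ∈ Finset.range (P.natDegree + 1), |(P.coeff l : ℝ)| with hSdef
  have hS0 : 0 ≤ S := Finset.sum_nonneg (fun _ _ => abs_nonneg _)
  have hSPr : ∑ i ∈ Finset.range (Pr.natDegree + 1), |Pr.coeff i| = S := by
    rw [hSdef, hPrd, hPd]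
    apply Finset.sum_congr rfl
    intro l _
    rw [hPr, coeff_map]
    rfl
  have hYc : ∀ l, |Y.coeff l| ≤ S := by
    intro l
    rw [← hSPr]
    exact quot_coeff_le Pr β hβ0.le hβ1 l
  set z := act Y ar with hz
  have hzrec : ∀ n', j ≤ n' → n' < j + M → z (n' + 1) = β * z n' - e * ar n' := by
    intro n' h1 h2
    have h3 : act Pr ar n' = 0 := by
      rw [hPr, har, act_cast P hPm, hPa n' h1 h2, Int.cast_zero]
    rw [← hdiv, act_add, Pi.add_apply, act_C, act_mul, act_sub_C, ← hz] at h3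
    simp only [dif] at h3
    linarith
  have hdecay := z_decay β e A α hβ0.le hβ1 hα.le (by linarith) ar z j M haA hzrec
  -- the starting value
  have hzj : |z j| ≤ ((m : ℝ) + 2) * (S * (A * α ^ (j + (m + 2)))) := by
    rw [hz, act_apply, hYd]
    calc |∑ i ∈ Finset.range (m + 1 + 1), Y.coeff i * ar (j + i)|
        ≤ ∑ i ∈ Finset.range (m + 1 + 1), |Y.coeff i * ar (j + i)| :=
          Finset.abs_sum_le_sum_abs _ _
      _ ≤ ∑ i ∈ Finset.range (m + 1 + 1), S * (A * α ^ (j + (m + 2))) := by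
          apply Finset.sum_le_sum
          intro i hi
          rw [Finset.mem_range] at hi
          rw [abs_mul]
          apply mul_le_mul (hYc i) _ (abs_nonneg _) hS0
          refine (haA (j + i)).trans ?_
          apply mul_le_mul_of_nonneg_left _ (by linarith)
          exact pow_le_pow_right₀ hα.le (by omega)
      _ = _ := by
          rw [Finset.sum_const, Finset.card_range, nsmul_eq_mul]
          push_cast
          ring
  -- the value at `1/α`
  have heM : |e| * |ξ| * α ^ (M - 1) ≤ S := by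
    have h1 := eval_small α ξ hα a ha P hPm (j + M - 1) (hPa _ (by omega) (by omega))
    have h2 := eval_recip α hα P hPm ε hP
    rw [← hPr, ← hβ, ← he] at h2
    rw [← hPr] at h1
    have h3 : α ^ (M - 1) ≤ α ^ (j + M - 1) := pow_le_pow_right₀ hα.le (by omega)
    calc |e| * |ξ| * α ^ (M - 1) ≤ |Pr.eval α| * |ξ| * α ^ (j + M - 1) := by gcongr
      _ = |ξ| * α ^ (j + M - 1) * |Pr.eval α| := by ring
      _ ≤ S := h1
  -- bound of the last column
  set Z₀ : ℝ := β ^ (n - j) * |z j| + |e| * (2 * n) * A * α ^ (n + (m + 2)) with hZ₀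
  have hZ₀nn : 0 ≤ Z₀ := by positivity
  have hzn : ∀ t, t ≤ m + 1 → |z (n + t)| ≤ Z₀ := by
    intro t ht
    have h1 := hdecay (n + t - j) (by omega)
    have h2 : j + (n + t - j) = n + t := by omega
    rw [h2] at h1
    refine h1.trans ?_
    rw [hZ₀]
    have h3 : β ^ (n + t - j) ≤ β ^ (n - j) := pow_le_pow_of_le_one hβ0.le hβ1 (by omega)
    have h4 : ((n + t - j : ℕ) : ℝ) ≤ 2 * n := by
      have : n + t - j ≤ 2 * n := by omega
      exact_mod_cast this
    have h5 : α ^ (n + t) ≤ α ^ (n + (m + 2)) := pow_le_pow_right₀ hα.le (by omega)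
    gcongr
  have hαZ : α ^ n * Z₀ ≤ 2 * (((m : ℝ) + 2) * (S * (A * α ^ (3 * (m + 2))))) := by
    have h1 : α ^ n * β ^ (n - j) = α ^ j := by
      obtain ⟨t, rfl⟩ := Nat.exists_eq_add_of_le hjn
      rw [Nat.add_sub_cancel_left, pow_add, mul_assoc, ← mul_pow, mul_comm α β, hβα, one_pow,
        mul_one]
    have h2 : α ^ n * Z₀ = α ^ j * |z j| + |e| * (2 * n) * A * α ^ (2 * n + (m + 2)) := by
      rw [hZ₀, mul_add, ← mul_assoc, h1]
      have : α ^ (2 * n + (m + 2)) = α ^ n * α ^ (n + (m + 2)) := by rw [← pow_add]; congr 1; ring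
      rw [this]
      ring
    have h3 : α ^ j * |z j| ≤ ((m : ℝ) + 2) * (S * (A * α ^ (3 * (m + 2)))) := by
      calc α ^ j * |z j| ≤ α ^ j * (((m : ℝ) + 2) * (S * (A * α ^ (j + (m + 2))))) := by gcongr
        _ = ((m : ℝ) + 2) * (S * (A * α ^ (j + (j + (m + 2))))) := by
            rw [pow_add α j (j + (m + 2))]; ring
        _ ≤ ((m : ℝ) + 2) * (S * (A * α ^ (3 * (m + 2)))) := by
            have : α ^ (j + (j + (m + 2))) ≤ α ^ (3 * (m + 2)) :=
              pow_le_pow_right₀ hα.le (by omega)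
            gcongr
    have h4 : |e| * (2 * n) * A * α ^ (2 * n + (m + 2)) ≤ 2 * A * S := by
      calc |e| * (2 * n) * A * α ^ (2 * n + (m + 2))
          ≤ |e| * (2 * (|ξ| * α ^ n)) * A * α ^ (2 * n + (m + 2)) := by gcongr
        _ = 2 * A * (|e| * |ξ| * α ^ (3 * n + (m + 2))) := by
            have : α ^ (3 * n + (m + 2)) = α ^ n * α ^ (2 * n + (m + 2)) := by
              rw [← pow_add]; congr 1; ring
            rw [this]; ring
        _ ≤ 2 * A * (|e| * |ξ| * α ^ (M - 1)) := by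
            have : α ^ (3 * n + (m + 2)) ≤ α ^ (M - 1) := pow_le_pow_right₀ hα.le (by omega)
            gcongr
        _ ≤ 2 * A * S := by gcongr
    have h5 : 2 * A * S ≤ ((m : ℝ) + 2) * (S * (A * α ^ (3 * (m + 2)))) := by
      have h6 : 1 ≤ α ^ (3 * (m + 2)) := one_le_pow₀ hα.le
      have h7 : 0 ≤ A * S := by positivity
      have h8 : (0 : ℝ) ≤ m := Nat.cast_nonneg _
      calc 2 * A * S = 2 * (A * S) * 1 := by ring
        _ ≤ ((m : ℝ) + 2) * (A * S) * α ^ (3 * (m + 2)) := by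
            apply mul_le_mul _ h6 zero_le_one (by positivity)
            apply mul_le_mul_of_nonneg_right _ h7
            linarith
        _ = _ := by ring
    rw [h2]
    linarith
  -- the columns
  have hdet := hank_det_sq_le_Y ar α n m Y hYm hYd (2 * A ^ 2 * α ^ (2 * n)) δ
    (((m : ℝ) + 2) * (1 + α) ^ 2 * Z₀ ^ 2) hδ0 (by
      have h1 := sum_b_le α a n (m + 1)
      have h2 : GG α a n (n + (m + 1)) ≤ δ := by
        have := hG 0 (by omega)
        rw [add_zero] at this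
        exact (GG_mono α a le_rfl (by omega)).trans this
      have h3 : ar n ^ 2 ≤ A ^ 2 * α ^ (2 * n) := by
        calc ar n ^ 2 = |ar n| ^ 2 := (sq_abs _).symm
          _ ≤ (A * α ^ n) ^ 2 := by
              have := haA n
              gcongr
          _ = _ := by rw [mul_pow, ← pow_mul, mul_comm n 2]
      have h4 : 1 ≤ A ^ 2 * α ^ (2 * n) := by
        have h5 : 1 ≤ A ^ 2 := one_le_pow₀ hA1
        have h6 : 1 ≤ α ^ (2 * n) := one_le_pow₀ hα.le
        nlinarith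
      linarith) (by
      intro j' hj'
      have h1 := sum_c_le α a (n + j') (m + 1)
      have h2 := hG j' (by omega)
      rw [show n + j' + (m + 1) + 1 = n + j' + m + 2 by ring] at h1
      linarith) (by
      have h1 : z n ^ 2 ≤ (1 + α) ^ 2 * Z₀ ^ 2 := by
        have h2 := hzn 0 (by omega)
        rw [add_zero] at h2
        have h3 : z n ^ 2 ≤ Z₀ ^ 2 := by
          rw [← sq_abs (z n)]
          gcongr
        have h4 : 1 ≤ (1 + α) ^ 2 := one_le_pow₀ (by linarith)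
        nlinarith [sq_nonneg Z₀]
      have h2 : ∀ i ∈ Finset.range (m + 1), dif α z (n + i) ^ 2 ≤ (1 + α) ^ 2 * Z₀ ^ 2 := by
        intro i hi
        rw [Finset.mem_range] at hi
        have h3 := hzn i (by omega)
        have h4 := hzn (i + 1) (by omega)
        rw [← add_assoc] at h4
        have h5 : |dif α z (n + i)| ≤ (1 + α) * Z₀ := by
          simp only [dif]
          calc |z (n + i + 1) - α * z (n + i)| ≤ |z (n + i + 1)| + |α * z (n + i)| := abs_sub _ _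
            _ ≤ Z₀ + α * Z₀ := by
                rw [abs_mul, abs_of_pos hα0]
                gcongr
            _ = _ := by ring
        calc dif α z (n + i) ^ 2 = |dif α z (n + i)| ^ 2 := (sq_abs _).symm
          _ ≤ ((1 + α) * Z₀) ^ 2 := by gcongr
          _ = _ := by ring
      have h3 : ∑ i ∈ Finset.range (m + 1), dif α z (n + i) ^ 2
          ≤ ((m : ℝ) + 1) * ((1 + α) ^ 2 * Z₀ ^ 2) := by
        calc _ ≤ ∑ i ∈ Finset.range (m + 1), (1 + α) ^ 2 * Z₀ ^ 2 := Finset.sum_le_sum h2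
          _ = _ := by
              rw [Finset.sum_const, Finset.card_range, nsmul_eq_mul]
              push_cast
              ring
      calc _ ≤ (1 + α) ^ 2 * Z₀ ^ 2 + ((m : ℝ) + 1) * ((1 + α) ^ 2 * Z₀ ^ 2) := add_le_add h1 h3
        _ = _ := by ring)
  refine hdet.trans ?_
  have hm0 : (0 : ℝ) ≤ m := Nat.cast_nonneg _
  have hS2 : S ^ 2 ≤ 4 ^ (m + 2) * (2 + α) ^ 2 := by
    calc S ^ 2 ≤ (2 ^ (m + 2) * (2 + α)) ^ 2 := by gcongr
      _ = _ := by
          rw [mul_pow, ← pow_mul, mul_comm (m + 2) 2, pow_mul]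
          norm_num
  calc 2 * A ^ 2 * α ^ (2 * n) * δ ^ m * (((m : ℝ) + 2) * (1 + α) ^ 2 * Z₀ ^ 2)
      = 2 * A ^ 2 * δ ^ m * ((m : ℝ) + 2) * (1 + α) ^ 2 * (α ^ n * Z₀) ^ 2 := by
        rw [mul_pow, ← pow_mul, mul_comm n 2]; ring
    _ ≤ 2 * A ^ 2 * δ ^ m * ((m : ℝ) + 2) * (1 + α) ^ 2
        * (2 * (((m : ℝ) + 2) * (S * (A * α ^ (3 * (m + 2)))))) ^ 2 := by gcongr
    _ = 8 * A ^ 4 * (1 + α) ^ 2 * ((m : ℝ) + 2) ^ 3 * (α ^ (3 * (m + 2))) ^ 2 * δ ^ m * S ^ 2 := by
        ring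
    _ ≤ 8 * A ^ 4 * (1 + α) ^ 2 * ((m : ℝ) + 2) ^ 3 * (α ^ (3 * (m + 2))) ^ 2 * δ ^ m
        * (4 ^ (m + 2) * (2 + α) ^ 2) := by gcongr
    _ = _ := by
        rw [mul_pow 4 (α ^ 6), ← pow_mul, ← pow_mul]
        have : 3 * (m + 2) * 2 = 6 * (m + 2) := by ring
        rw [this]
        ring

end Har
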