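import Mathlib
import Pool.Agent.Lib_helper62.Har.Window2

/-!
The short relation at a good scale.
-/

set_option autoImplicit false

namespace Har

open Matrix Polynomial

/-- From a bound on the Gram determinant to a short monic multiple of `P`. -/
theorem relation_core (α : ℝ) (a : ℕ → ℤ) (j K M T m : ℕ) (P : ℤ[X]) (hPm : P.Monic)
    (hP1 : 0 < P.natDegree) (hPa : ∀ n, j ≤ n → n < j + M → act P a n = 0)
    (hdet : (hank a j P.natDegree).det ≠ 0) (hKM : K ≤ M) (hm : 1 ≤ m)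
    (hmT : m * (T + 1) + P.natDegree ≤ K)
    (hgram : (gramM (vecs (fun k => (a k : ℝ)) α 1 j P.natDegree) K).det ≤ 2 ^ T) :
    ∃ (k : ℕ) (σ : ℕ → ℝ) (τ : ℝ), k + 1 ≤ K ∧
      P.map (Int.castRingHom ℝ) ∣ Upoly α τ k σ ∧
      ∑ i ∈ Finset.range k, σ i ^ 2 + τ ^ 2 ≤ 1 / m := by
  set ar : ℕ → ℝ := fun k => (a k : ℝ) with har
  set d := P.natDegree with hd
  set Pr := P.map (Int.castRingHom ℝ) with hPr
  have hPrm : Pr.Monic := hPm.map _
  have hPrd : Pr.natDegree = d := hPm.natDegree_map _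
  have hmpos : (0 : ℝ) < m := by exact_mod_cast hm
  have hdr : (hank ar j d).det ≠ 0 := by
    rw [har, hank_det_cast]; exact_mod_cast hdet
  have hDge : 1 ≤ (hank ar j d).det ^ 2 := by
    rw [har, hank_det_cast]
    have h1 : 1 ≤ (hank a j d).det ^ 2 := by
      have : 0 < (hank a j d).det ^ 2 := by positivity
      omega
    exact_mod_cast h1
  have hPra : ∀ r, r < M → act Pr ar (j + r) = 0 := by
    intro r hr
    rw [hPr, har, act_cast P hPm, hPa _ (by omega) (by omega), Int.cast_zero]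
  have hgram0 : (gramM (vecs ar α 1 j d) d).det = (1 : ℝ) ^ 2 * (hank ar j d).det ^ 2 :=
    gram_vecs_d ar α 1 j d hP1
  rw [one_pow, one_mul] at hgram0
  have hdK : d ≤ K := by omega
  have hgrow : (2 : ℝ) ^ (T + 1) ≤ (1 + 1 / (m : ℝ)) ^ (K - d) := by
    have h1 : (2 : ℝ) ≤ (1 + 1 / (m : ℝ)) ^ m := by
      have h2 := one_add_mul_le_pow (a := 1 / (m : ℝ)) (by
        have : 0 < 1 / (m : ℝ) := by positivity
        linarith) m
      have h3 : (m : ℝ) * (1 / m) = 1 := by field_simp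
      rw [h3] at h2
      linarith
    calc (2 : ℝ) ^ (T + 1) ≤ ((1 + 1 / (m : ℝ)) ^ m) ^ (T + 1) := by gcongr
      _ = (1 + 1 / (m : ℝ)) ^ (m * (T + 1)) := by rw [← pow_mul]
      _ ≤ (1 + 1 / (m : ℝ)) ^ (K - d) := by
          apply pow_le_pow_right₀
          · have : 0 < 1 / (m : ℝ) := by positivity
            linarith
          · omega
  obtain ⟨k, hk1, hk2, t, ht1, ht2⟩ := exists_short_relation (vecs ar α 1 j d) d K hdK (1 / (m : ℝ))
    (by positivity) (by rw [hgram0]; linarith) (by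
      rw [hgram0]
      refine lt_of_le_of_lt hgram ?_
      calc (2 : ℝ) ^ T < 2 ^ (T + 1) := pow_lt_pow_right₀ (by norm_num) (by omega)
        _ ≤ (1 + 1 / (m : ℝ)) ^ (K - d) := hgrow
        _ ≤ (1 + 1 / (m : ℝ)) ^ (K - d) * (hank ar j d).det ^ 2 :=
            le_mul_of_one_le_right (by positivity) hDge)
  obtain ⟨k, rfl⟩ : ∃ k', k = k' + 1 := ⟨k - 1, by omega⟩
  rw [Finset.sum_range_succ'] at ht2
  refine ⟨k, fun i => t (i + 1), t 0, by omega, ?_, ht2⟩
  have hUact : ∀ r, r < d → act (Upoly α (t 0) k (fun i => t (i + 1))) ar (j + r) = 0 := by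
    intro r hr
    rw [act_Upoly]
    have h1 := ht1 ⟨r, hr⟩
    rw [Finset.sum_range_succ'] at h1
    simp only [vecs] at h1
    have h2 : dif α ar (j + r + k) = dif α ar (j + k + r) := by
      have : j + r + k = j + k + r := by ring
      rw [this]
    have h3 : ∑ i ∈ Finset.range k, t (i + 1) * dif α ar (j + r + i)
        = ∑ i ∈ Finset.range k, t (i + 1) * dif α ar (j + i + r) := by
      apply Finset.sum_congr rfl
      intro i _
      have : j + r + i = j + i + r := by ring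
      rw [this]
    rw [h2, h3, h1]
    ring
  obtain ⟨hUm, hUn⟩ := Upoly_spec α (t 0) k (fun i => t (i + 1))
  exact dvd_of_act ar j d M hdr Pr hPrm hPrd hPra _ (by rw [hUn]; omega) hUact

/-- The bound for the Gram determinant at a good scale. -/
theorem gram_bound (α ξ : ℝ) (hα : 1 < α) (a : ℕ → ℤ)
    (ha : ∀ n, |(a n : ℝ) - ξ * α ^ n| ≤ 1 / 2) (s B : ℕ) (hs : α ≤ 2 ^ s)
    (hB1 : 3 * (1 + α) ^ 4 + 1 ≤ 2 ^ B) (hB2 : |ξ| + 1 ≤ 2 ^ B) (t i p r' : ℕ) (hr' : 2 ≤ r')
    (hir : r' ≤ i) (δ : ℝ) (hδ1 : δ ≤ 1) (hg : Good α a t i p (r' + 1) δ) (j d q : ℕ) (hd1 : 0 < d)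
    (hjd : j + d < 2 ^ (i - r')) (hq : q ≤ i) (hdq : j + d ≤ 2 ^ q) :
    (gramM (vecs (fun k => (a k : ℝ)) α 1 j d) (2 ^ (i + r' - 1))).det
      ≤ 2 ^ (2 * B + 2 * s * j + (p + i + B) + 1 + (p + i + B) * 2 ^ p
        + 2 ^ q * (i - q + 2)) := by
  set ar : ℕ → ℝ := fun k => (a k : ℝ) with har
  set h := p + i + B with hh
  have hHm : Hm α i p ≤ 2 ^ h := Hm_le_pow α B (by linarith) hB1 i p
  have hHm1 := one_le_Hm α i p
  have hK : 0 < 2 ^ (i + r' - 1) := by positivity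
  obtain ⟨k, hk⟩ := Nat.exists_eq_add_of_le' (show 1 ≤ 2 ^ (i + r' - 1) from hK)
  have hidx : 2 ^ (i - r') + 2 ^ (i + r' - 1) ≤ 2 ^ (i + (r' + 1)) := by
    have h1 : 2 ^ (i + (r' + 1)) = 4 * 2 ^ (i + r' - 1) := by
      have : i + (r' + 1) = (i + r' - 1) + 2 := by omega
      rw [this, pow_add]
      ring
    have h2 : 2 ^ (i - r') ≤ 2 ^ (i + r' - 1) := Nat.pow_le_pow_right (by norm_num) (by omega)
    omega
  have haj : ar j ^ 2 ≤ 2 ^ (2 * B + 2 * s * j) := by
    have h1 : |ar j| ≤ 2 ^ (B + s * j) := by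
      have h2 : |ar j| ≤ |ar j - ξ * α ^ j| + |ξ * α ^ j| := by
        calc |ar j| = |(ar j - ξ * α ^ j) + ξ * α ^ j| := by ring_nf
          _ ≤ _ := abs_add_le _ _
      have h3 : |ξ * α ^ j| = |ξ| * α ^ j := by
        rw [abs_mul, abs_of_pos (by positivity : (0 : ℝ) < α ^ j)]
      have h4 : 1 ≤ α ^ j := one_le_pow₀ hα.le
      calc |ar j| ≤ 1 / 2 + |ξ| * α ^ j := by
            have := ha j
            rw [h3] at h2
            linarith
        _ ≤ (|ξ| + 1) * α ^ j := by nlinarith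
        _ ≤ 2 ^ B * (2 ^ s) ^ j := by gcongr
        _ = 2 ^ (B + s * j) := by rw [← pow_mul, ← pow_add]
    calc ar j ^ 2 = |ar j| ^ 2 := (sq_abs _).symm
      _ ≤ (2 ^ (B + s * j)) ^ 2 := by gcongr
      _ = _ := by rw [← pow_mul]; congr 1; ring
  rw [hk]
  obtain ⟨d', hd'⟩ := Nat.exists_eq_add_of_le' (show 1 ≤ d from hd1)
  refine (gram_vecs_le ar α 1 j d k
    (fun j' => if j' = 0 then ar j ^ 2 + Hm α i p else FF (Hm α i p) p i 1 (j + (j' - 1)))
    ?_ ?_).trans ?_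
  · simp only [if_true, one_mul]
    have h1 := sum_b_le α a j k
    have h2 : GG α a j (j + k) ≤ GG α a j (2 ^ (i + (r' + 1))) := GG_mono α a le_rfl (by omega)
    have h3 := hg.le_Hm ξ (by linarith) ha hδ1 j
    linarith
  · intro j' hj'
    simp only [Nat.add_eq_zero_iff, one_ne_zero, and_false, if_false, Nat.add_sub_cancel, one_mul]
    have h1 := sum_c_le α a (j + j') k
    have h2 : GG α a (j + j') (j + j' + k + 1) ≤ GG α a (j + j') (2 ^ (i + (r' + 1))) :=
      GG_mono α a le_rfl (by omega)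
    have h3 := hg.le_FF ξ (by linarith) ha hδ1 (j + j')
    have h4 := FF_mono_delta (Hm α i p) p i δ 1 hδ1 (j + j')
    have h5 : ∑ i ∈ Finset.range k, dif α (dif α ar) (j + i + j') ^ 2
        = ∑ i ∈ Finset.range k, dif α (dif α ar) (j + j' + i) ^ 2 := by
      apply Finset.sum_congr rfl
      intro i _
      have : j + i + j' = j + j' + i := by ring
      rw [this]
    rw [h5]
    linarith
  · rw [hd', Finset.prod_range_succ']
    simp only [if_true, Nat.add_eq_zero_iff, one_ne_zero, and_false, if_false,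
      Nat.add_sub_cancel]
    have h1 := prod_FF_le (Hm α i p) hHm1 p i q j d' hq (by omega)
    have h2 : ar j ^ 2 + Hm α i p ≤ 2 ^ (2 * B + 2 * s * j + h + 1) := by
      have h3 : (1 : ℝ) ≤ 2 ^ (2 * B + 2 * s * j) := one_le_pow₀ (by norm_num)
      have h4 : (1 : ℝ) ≤ 2 ^ h := one_le_pow₀ (by norm_num)
      have h5 : (2 : ℝ) ^ (2 * B + 2 * s * j + h + 1) = 2 * (2 ^ (2 * B + 2 * s * j) * 2 ^ h) := by
        rw [pow_succ, pow_add]; ring
      rw [h5]
      nlinarith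
    calc (∏ j' ∈ Finset.range d', FF (Hm α i p) p i 1 (j + j')) * (ar j ^ 2 + Hm α i p)
        ≤ (Hm α i p ^ (2 ^ p) * 2 ^ (2 ^ q * (i - q + 2))) * 2 ^ (2 * B + 2 * s * j + h + 1) := by
          apply mul_le_mul h1 h2 (by positivity) (by positivity)
      _ ≤ ((2 ^ h) ^ (2 ^ p) * 2 ^ (2 ^ q * (i - q + 2))) * 2 ^ (2 * B + 2 * s * j + h + 1) := by
          gcongr
      _ = _ := by
          rw [← pow_mul, ← pow_add, ← pow_add]
          congr 1
          ring

theorem sq_le_two_pow (v : ℕ) : ((v : ℝ) + 1) ^ 2 ≤ 4 * 2 ^ v := by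
  induction v with
  | zero => norm_num
  | succ v ih =>
    rcases Nat.lt_or_ge v 2 with h | h
    · interval_cases v <;> norm_num
    · have h1 : (2 : ℝ) ≤ v := by exact_mod_cast h
      rw [pow_succ (2 : ℝ) v]
      push_cast
      nlinarith

theorem near_aux (s v i : ℝ) (hs : 0 ≤ s) (hv : v ≤ i) (hi : 0 ≤ i) :
    2 * s + v + 2 ≤ 2 * (s + 1) * (i + 1) := by
  nlinarith [mul_nonneg hs hi]

theorem far_aux (s v : ℝ) (hs : 0 ≤ s) (hv : 0 ≤ v) :
    2 * s + v + 2 ≤ 2 * (s + 1) * (v + 1) := by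
  nlinarith [mul_nonneg hs hv]

theorem h_aux (h p i B : ℝ) (hh : h = p + i + B) (hpi : p ≤ i) (hi : 0 ≤ i) (hB : 0 ≤ B) :
    h ≤ (B + 2) * (i + 1) := by
  rw [hh]
  nlinarith [mul_nonneg hB hi]

/-- The short relation at a good scale, with all the estimates. -/
theorem relation (α ξ : ℝ) (hα : 1 < α) (a : ℕ → ℤ)
    (ha : ∀ n, |(a n : ℝ) - ξ * α ^ n| ≤ 1 / 2) (t : ℕ) (η : ℝ) (hη : 0 < η) :
    ∃ r₀ : ℕ, ∀ r', r₀ ≤ r' → ∃ i₀ : ℕ, ∀ (i p : ℕ) (δ : ℝ), δ ≤ 1 → i₀ ≤ i →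
      Good α a t i p (r' + 1) δ →
      ∀ (P : ℤ[X]) (j : ℕ), P.Monic → 0 < P.natDegree → j + P.natDegree < 2 ^ (i - r') →
        (∀ n, j ≤ n → n < j + 2 ^ (i + r') → act P a n = 0) →
        (hank a j P.natDegree).det ≠ 0 →
        ∃ (k : ℕ) (σ : ℕ → ℝ) (τ κ : ℝ), k + 1 ≤ 2 ^ (i + r' - 1) ∧
          P.map (Int.castRingHom ℝ) ∣ Upoly α τ k σ ∧
          ∑ i ∈ Finset.range k, σ i ^ 2 + τ ^ 2 ≤ κ ∧ κ ≤ η ∧
          (P.natDegree < j → κ * GG α a (j - 1) (2 ^ (i + (r' + 1))) ≤ η) := by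
  obtain ⟨s, hs⟩ : ∃ s : ℕ, α ≤ 2 ^ s := by
    obtain ⟨s, hs⟩ := pow_unbounded_of_one_lt α (one_lt_two (α := ℝ))
    exact ⟨s, hs.le⟩
  obtain ⟨B, hB⟩ : ∃ B : ℕ, 3 * (1 + α) ^ 4 + 1 + |ξ| ≤ 2 ^ B := by
    obtain ⟨B, hB⟩ := pow_unbounded_of_one_lt (3 * (1 + α) ^ 4 + 1 + |ξ|)
      (one_lt_two (α := ℝ))
    exact ⟨B, hB.le⟩
  have hξ0 := abs_nonneg ξ
  have hα4 : 0 ≤ 3 * (1 + α) ^ 4 := by positivity
  have hB1 : 3 * (1 + α) ^ 4 + 1 ≤ 2 ^ B := by linarith
  have hB2 : |ξ| + 1 ≤ 2 ^ B := by linarith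
  set η' : ℝ := min η 1 with hη'
  have hη'pos : 0 < η' := lt_min hη one_pos
  have hη'1 : η' ≤ 1 := min_le_right _ _
  have hη'η : η' ≤ η := min_le_left _ _
  obtain ⟨r₁, hr₁⟩ := pow_unbounded_of_one_lt ((200 * ((s : ℝ) + 1) + 2) / η')
    (one_lt_two (α := ℝ))
  refine ⟨max r₁ 2, ?_⟩
  intro r' hr'
  have hr2 : 2 ≤ r' := le_trans (le_max_right _ _) hr'
  have hrbig : 200 * ((s : ℝ) + 1) + 2 ≤ η' * 2 ^ r' := by
    have h1 : (2 : ℝ) ^ r₁ ≤ 2 ^ r' :=
      pow_le_pow_right₀ (by norm_num) (le_trans (le_max_left _ _) hr')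
    have h2 := (div_lt_iff₀ hη'pos).mp hr₁
    calc 200 * ((s : ℝ) + 1) + 2 ≤ 2 ^ r₁ * η' := h2.le
      _ ≤ 2 ^ r' * η' := mul_le_mul_of_nonneg_right h1 hη'pos.le
      _ = η' * 2 ^ r' := mul_comm _ _
  set C : ℝ := 24 * (4 * B + 4 * s + 10) * (2 ^ B + 1) with hC
  obtain ⟨i₁, hi₁⟩ := small_scale t C 1 (by positivity) one_pos
  refine ⟨max i₁ (r' + 1), ?_⟩
  intro i p δ hδ1 hi hg P j hPm hP1 hjd hPa hdet
  have hi1 : i₁ ≤ i := le_trans (le_max_left _ _) hi
  have hi2 : r' + 1 ≤ i := le_trans (le_max_right _ _) hi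
  have hp1 := hg.1
  have hpi' := hg.p_le
  have hsm := hi₁ i p hi1 hg.2.1
  set h := p + i + B with hh
  set d := P.natDegree with hd
  set q := Nat.clog 2 (j + d) with hq
  have hqi : q ≤ i - r' := by
    rw [hq]
    exact Nat.clog_le_of_le_pow hjd.le
  have hdq : j + d ≤ 2 ^ q := Nat.le_pow_clog (by norm_num) _
  obtain ⟨v, hv⟩ : ∃ v, i = q + v := ⟨i - q, by omega⟩
  have hiq : i - q = v := by omega
  set T := 2 * B + 2 * s * j + h + 1 + h * 2 ^ p + 2 ^ q * (i - q + 2) with hT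
  have hgram : (gramM (vecs (fun k => (a k : ℝ)) α 1 j d) (2 ^ (i + r' - 1))).det ≤ 2 ^ T :=
    gram_bound α ξ hα a ha s B hs hB1 hB2 t i p r' hr2 (by omega) δ hδ1 hg j d q hP1 hjd
      (by omega) hdq
  -- real estimates
  set x : ℝ := (i : ℝ) + 1 with hx
  set y : ℝ := 2 ^ p with hy
  have hinn : (0 : ℝ) ≤ i := Nat.cast_nonneg _
  have hBnn : (0 : ℝ) ≤ B := Nat.cast_nonneg _
  have hsnn : (0 : ℝ) ≤ s := Nat.cast_nonneg _
  have hvnn : (0 : ℝ) ≤ v := Nat.cast_nonneg _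
  have hx1 : 1 ≤ x := by rw [hx]; linarith
  have hy1 : 1 ≤ y := one_le_pow₀ (by norm_num)
  have h2B : (1 : ℝ) ≤ 2 ^ B := one_le_pow₀ (by norm_num)
  have hyy : (2 : ℝ) ^ (2 * p) = y * y := by rw [two_mul, pow_add]
  have hxy1 : 1 ≤ x * y := one_le_mul_of_one_le_of_one_le hx1 hy1
  have hxy0 : 0 ≤ x * y := by linarith
  set A₁ : ℝ := 2 * B + 2 + h * (y + 1) with hA₁
  have hA₁le : A₁ ≤ (4 * B + 6) * (x * y) := by
    have h1 : (h : ℝ) ≤ (B + 2) * x := by
      have hpi : (p : ℝ) ≤ i := by exact_mod_cast (show p ≤ i by omega)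
      exact h_aux _ p i B (by rw [hh]; push_cast; ring) hpi hinn hBnn
    have h2 : (h : ℝ) * (y + 1) ≤ ((B + 2) * x) * (2 * y) := by
      apply mul_le_mul h1 (by linarith) (by linarith) (by positivity)
    have h3 : 2 * (B : ℝ) + 2 ≤ (2 * B + 2) * (x * y) := le_mul_of_one_le_right (by positivity) hxy1
    have h4 : (4 * (B : ℝ) + 6) * (x * y) = (2 * B + 2) * (x * y) + ((B + 2) * x) * (2 * y) := by
      ring
    rw [hA₁, h4]
    linarith
  have hA₁nn : 0 ≤ A₁ := by positivity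
  have hTle : (T : ℝ) + 1 ≤ A₁ + 2 ^ q * (2 * s + v + 2) := by
    have hj : (j : ℝ) ≤ 2 ^ q := by exact_mod_cast (by omega : j ≤ 2 ^ q)
    have h1 := mul_le_mul_of_nonneg_left hj hsnn
    have h2 : (T : ℝ) = 2 * B + 2 * s * j + h + 1 + h * y + 2 ^ q * (v + 2) := by
      rw [hT, hiq]
      push_cast
      rw [hy]
    rw [h2, hA₁]
    have h3 : 2 ^ q * (2 * (s : ℝ) + v + 2) = 2 * (s * 2 ^ q) + 2 ^ q * (v + 2) := by ring
    rw [h3]
    linarith
  have hqv : (2 : ℝ) ^ q * 2 ^ v = 2 ^ i := by rw [← pow_add, ← hv]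
  have hv1 : (v : ℝ) + 1 ≤ 2 ^ v := by
    have : v + 1 ≤ 2 ^ v := Nat.lt_two_pow_self
    exact_mod_cast this
  have hqpos : (0 : ℝ) < 2 ^ q := by positivity
  have h2i : (0 : ℝ) < 2 ^ i := by positivity
  have hx3y : x * x * x * (y * y) * C ≤ 2 ^ i := by
    rw [hyy] at hsm
    have h1 : C * (y * y) * x ^ 3 = x * x * x * (y * y) * C := by ring
    rw [← h1]
    linarith
  -- (A)
  have hfacA : (2 : ℝ) ^ q * (2 * s + v + 2) ≤ 2 * ((s : ℝ) + 1) * 2 ^ i := by
    calc (2 : ℝ) ^ q * (2 * s + v + 2) ≤ 2 ^ q * (2 * ((s : ℝ) + 1) * (v + 1)) := by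
          apply mul_le_mul_of_nonneg_left _ hqpos.le
          exact far_aux _ _ hsnn hvnn
      _ ≤ 2 ^ q * (2 * ((s : ℝ) + 1) * 2 ^ v) := by gcongr
      _ = 2 * ((s : ℝ) + 1) * (2 ^ q * 2 ^ v) := by ring
      _ = _ := by rw [hqv]
  have hsq1 : x * y ≤ x * x * x * (y * y) := by
    have h1 : 1 ≤ x * (x * y) := one_le_mul_of_one_le_of_one_le hx1 hxy1
    have h2 : x * x * x * (y * y) = x * y * (x * (x * y)) := by ring
    rw [h2]
    exact le_mul_of_one_le_right hxy0 h1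
  have hCge : 24 * (4 * (B : ℝ) + 4 * s + 10) ≤ C := by
    rw [hC]
    have h1 : (1 : ℝ) ≤ 2 ^ B + 1 := by linarith
    exact le_mul_of_one_le_right (by positivity) h1
  have hA8 : 8 * A₁ ≤ 2 ^ i := by
    have h1 : 8 * A₁ ≤ C * (x * y) := by
      calc 8 * A₁ ≤ 8 * ((4 * B + 6) * (x * y)) := by linarith
        _ = (8 * (4 * B + 6)) * (x * y) := by ring
        _ ≤ C * (x * y) := by
            apply mul_le_mul_of_nonneg_right _ hxy0
            linarith
    have h2 : C * (x * y) ≤ C * (x * x * x * (y * y)) :=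
      mul_le_mul_of_nonneg_left hsq1 (by positivity)
    linarith
  have hmainA : 8 * ((T : ℝ) + 1) ≤ η' * (2 ^ i * 2 ^ r') := by
    have h1 : 8 * ((T : ℝ) + 1) ≤ 8 * A₁ + 16 * ((s : ℝ) + 1) * 2 ^ i := by linarith
    have h2 : η' * (2 ^ i * 2 ^ r') = (η' * 2 ^ r') * 2 ^ i := by ring
    rw [h2]
    have h3 : (200 * ((s : ℝ) + 1) + 2) * 2 ^ i ≤ (η' * 2 ^ r') * 2 ^ i := by gcongr
    have h4 : (200 * ((s : ℝ) + 1) + 2) * 2 ^ i
        = 16 * ((s : ℝ) + 1) * 2 ^ i + 184 * ((s : ℝ) + 1) * 2 ^ i + 2 * 2 ^ i := by ring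
    have h5 : 0 ≤ 184 * ((s : ℝ) + 1) * 2 ^ i := by positivity
    linarith
  -- choice of m
  have hKd : 2 ^ (i + r' - 2) + d ≤ 2 ^ (i + r' - 1) := by
    have h1 : 2 ^ (i + r' - 1) = 2 * 2 ^ (i + r' - 2) := by
      rw [← pow_succ']; congr 1; omega
    have h2 : 2 ^ (i - r') ≤ 2 ^ (i + r' - 2) := Nat.pow_le_pow_right (by norm_num) (by omega)
    omega
  have h4r : (2 : ℝ) ^ i * 2 ^ r' = 4 * 2 ^ (i + r' - 2) := by
    rw [← pow_add]
    have : i + r' = (i + r' - 2) + 2 := by omega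
    conv_lhs => rw [this]
    rw [pow_add]
    ring
  have hTnat : T + 1 ≤ 2 ^ (i + r' - 2) := by
    have h1 : (T : ℝ) + 1 ≤ 2 ^ (i + r' - 2) := by
      rw [h4r] at hmainA
      have h2 : (0 : ℝ) < 2 ^ (i + r' - 2) := by positivity
      have h3 : η' * (4 * 2 ^ (i + r' - 2)) ≤ 1 * (4 * 2 ^ (i + r' - 2)) :=
        mul_le_mul_of_nonneg_right hη'1 (by positivity)
      linarith
    exact_mod_cast h1
  set m := 2 ^ (i + r' - 2) / (T + 1) with hm
  have hm1 : 1 ≤ m := by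
    rw [hm]
    exact (Nat.one_le_div_iff (by omega)).mpr hTnat
  have hmT : m * (T + 1) ≤ 2 ^ (i + r' - 2) := Nat.div_mul_le_self _ _
  have hmT2 : 2 ^ (i + r' - 2) < (m + 1) * (T + 1) := by
    have := Nat.lt_div_mul_add (a := 2 ^ (i + r' - 2)) (b := T + 1) (by omega)
    rw [← hm] at this
    have h1 : (m + 1) * (T + 1) = m * (T + 1) + (T + 1) := by ring
    omega
  have hmpos : (0 : ℝ) < m := by exact_mod_cast hm1
  obtain ⟨k, σ, τ, hk, hdvd, hσ⟩ := relation_core α a j (2 ^ (i + r' - 1)) (2 ^ (i + r')) T m P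
    hPm hP1 hPa hdet (Nat.pow_le_pow_right (by norm_num) (by omega)) hm1 (by omega) hgram
  -- the bound for κ
  have hκ : 1 / (m : ℝ) * (2 ^ i * 2 ^ r') ≤ 8 * ((T : ℝ) + 1) := by
    rw [h4r]
    have h1 : ((2 : ℝ) ^ (i + r' - 2)) ≤ 2 * m * ((T : ℝ) + 1) := by
      have h2 : 2 ^ (i + r' - 2) ≤ 2 * m * (T + 1) := by
        calc 2 ^ (i + r' - 2) ≤ (m + 1) * (T + 1) := hmT2.le
          _ ≤ (m + m) * (T + 1) := Nat.mul_le_mul_right _ (by omega)
          _ = 2 * m * (T + 1) := by ring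
      exact_mod_cast h2
    rw [one_div, inv_mul_le_iff₀ hmpos]
    calc (4 : ℝ) * 2 ^ (i + r' - 2) ≤ 4 * (2 * m * ((T : ℝ) + 1)) :=
          mul_le_mul_of_nonneg_left h1 (by norm_num)
      _ = m * (8 * ((T : ℝ) + 1)) := by ring
  refine ⟨k, σ, τ, 1 / m, hk, hdvd, hσ, ?_, ?_⟩
  · have h1 := hκ.trans hmainA
    have h2 : 1 / (m : ℝ) ≤ η' := le_of_mul_le_mul_right h1 (by positivity)
    linarith
  · intro hdj
    have hGnn := GG_nonneg α a (j - 1) (2 ^ (i + (r' + 1)))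
    set G := GG α a (j - 1) (2 ^ (i + (r' + 1))) with hG
    have hgoal : 8 * ((T : ℝ) + 1) * G ≤ η * (2 ^ i * 2 ^ r') := by
      have hηr : (200 * ((s : ℝ) + 1) + 2) * 2 ^ i ≤ η * (2 ^ i * 2 ^ r') := by
        have h3 : (200 * ((s : ℝ) + 1) + 2) * 2 ^ i ≤ (η' * 2 ^ r') * 2 ^ i := by gcongr
        have h4 : (η' * 2 ^ r') * 2 ^ i ≤ (η * 2 ^ r') * 2 ^ i := by gcongr
        have h5 : η * (2 ^ i * 2 ^ r') = (η * 2 ^ r') * 2 ^ i := by ring
        linarith
      refine le_trans ?_ hηr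
      rcases le_or_gt (2 ^ p) (j - 1) with hcase | hcase
      · -- far start
        have hlog : q ≤ Nat.log 2 (j - 1) + 2 := by
          have h1 : 2 ^ (q - 1) < j + d := by
            rcases Nat.eq_zero_or_pos q with h0 | h0
            · rw [h0]
              simp only [Nat.zero_sub, pow_zero]
              have : 0 < 2 ^ p := by positivity
              omega
            · rw [hq] at h0 ⊢
              apply Nat.pow_pred_clog_lt_self (by norm_num)
              have : 0 < 2 ^ p := by positivity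
              omega
          rcases Nat.lt_or_ge q 2 with h2 | h2
          · omega
          · have h3 : 2 ^ (q - 1) = 2 * 2 ^ (q - 2) := by
              rw [← pow_succ']; congr 1; omega
            have h4 : 2 ^ (q - 2) ≤ j - 1 := by omega
            have h5 : q - 2 ≤ Nat.log 2 (j - 1) := Nat.le_log_of_pow_le (by norm_num) h4
            omega
        have hGle : G ≤ v + 3 := by
          have h1 := hg.2.2 (j - 1) hcase
          have h2 : δ * UU i (j - 1) ≤ 1 * UU i (j - 1) :=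
            mul_le_mul_of_nonneg_right hδ1 (zero_le_one.trans (one_le_UU i _))
          have h3 : UU i (j - 1) ≤ v + 3 := by
            unfold UU
            have h4 : i - Nat.log 2 (j - 1) ≤ v + 2 := by omega
            have h5 : ((i - Nat.log 2 (j - 1) : ℕ) : ℝ) ≤ ((v + 2 : ℕ) : ℝ) := by
              exact_mod_cast h4
            push_cast at h5
            linarith
          linarith
        have hvi : (v : ℝ) + 3 ≤ 3 * x := by
          have : (v : ℝ) ≤ i := by exact_mod_cast (show v ≤ i by omega)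
          rw [hx]; linarith
        have h1 : 8 * ((T : ℝ) + 1) * G ≤ 8 * (A₁ + 2 ^ q * (2 * s + v + 2)) * (v + 3) := by
          apply mul_le_mul (by linarith) hGle hGnn (by positivity)
        have h2 : 8 * A₁ * (v + 3) ≤ 2 ^ i := by
          have h3 : 8 * A₁ * (v + 3) ≤ 8 * ((4 * B + 6) * (x * y)) * (3 * x) := by
            apply mul_le_mul (by linarith) hvi (by linarith) (by positivity)
          have h4 : 8 * ((4 * (B : ℝ) + 6) * (x * y)) * (3 * x)
              = (24 * (4 * B + 6)) * (x * x * y) := by ring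
          have h5 : x * x * y ≤ x * x * x * (y * y) := by
            have h6 : 1 ≤ x * y := hxy1
            have h7 : x * x * x * (y * y) = (x * x * y) * (x * y) := by ring
            rw [h7]
            exact le_mul_of_one_le_right (by positivity) h6
          have h8 : (24 * (4 * (B : ℝ) + 6)) * (x * x * y) ≤ C * (x * x * x * (y * y)) := by
            apply mul_le_mul _ h5 (by positivity) (by positivity)
            linarith
          linarith
        have h3 : 8 * (2 ^ q * (2 * s + v + 2)) * ((v : ℝ) + 3) ≤ 192 * ((s : ℝ) + 1) * 2 ^ i := by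
          have h4 : (2 * (s : ℝ) + v + 2) * (v + 3) ≤ 24 * ((s : ℝ) + 1) * 2 ^ v := by
            have h5 : (2 * (s : ℝ) + v + 2) ≤ 2 * ((s : ℝ) + 1) * (v + 1) :=
              far_aux _ _ hsnn hvnn
            have h6 : (v : ℝ) + 3 ≤ 3 * (v + 1) := by linarith
            have h7 := sq_le_two_pow v
            calc (2 * (s : ℝ) + v + 2) * (v + 3)
                ≤ (2 * ((s : ℝ) + 1) * (v + 1)) * (3 * (v + 1)) := by
                  apply mul_le_mul h5 h6 (by linarith) (by positivity)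
              _ = 6 * ((s : ℝ) + 1) * ((v + 1) ^ 2) := by ring
              _ ≤ 6 * ((s : ℝ) + 1) * (4 * 2 ^ v) := by gcongr
              _ = _ := by ring
          calc 8 * (2 ^ q * (2 * s + v + 2)) * ((v : ℝ) + 3)
              = 8 * 2 ^ q * ((2 * s + v + 2) * (v + 3)) := by ring
            _ ≤ 8 * 2 ^ q * (24 * ((s : ℝ) + 1) * 2 ^ v) := by gcongr
            _ = 192 * ((s : ℝ) + 1) * (2 ^ q * 2 ^ v) := by ring
            _ = _ := by rw [hqv]
        have h9 : 8 * (A₁ + 2 ^ q * (2 * s + v + 2)) * ((v : ℝ) + 3)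
            = 8 * A₁ * (v + 3) + 8 * (2 ^ q * (2 * s + v + 2)) * (v + 3) := by ring
        rw [h9] at h1
        have h10 : (200 * ((s : ℝ) + 1) + 2) * 2 ^ i
            = 192 * ((s : ℝ) + 1) * 2 ^ i + 8 * ((s : ℝ) + 1) * 2 ^ i + 2 * 2 ^ i := by ring
        have h11 : 0 ≤ 8 * ((s : ℝ) + 1) * 2 ^ i := by positivity
        rw [h10]
        linarith
      · -- near start
        have hqp : q ≤ p + 1 := by
          rw [hq]
          apply Nat.clog_le_of_le_pow
          rw [pow_succ]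
          omega
        have h2q : (2 : ℝ) ^ q ≤ 2 * y := by
          calc (2 : ℝ) ^ q ≤ 2 ^ (p + 1) := pow_le_pow_right₀ (by norm_num) hqp
            _ = 2 * y := by rw [pow_succ, hy]; ring
        have hGle : G ≤ (2 ^ B + 1) * (x * y) := by
          have h1 := hg.le_Hm ξ (by linarith) ha hδ1 (j - 1)
          have h2 : Hm α i p ≤ (2 ^ B + 1) * (x * y) := by
            unfold Hm
            have h3 : 3 * (1 + α) ^ 4 * 2 ^ p ≤ 2 ^ B * (x * y) := by
              calc 3 * (1 + α) ^ 4 * 2 ^ p ≤ 2 ^ B * y := by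
                    rw [← hy]
                    apply mul_le_mul_of_nonneg_right _ (by positivity)
                    linarith
                _ ≤ 2 ^ B * (x * y) := by
                    apply mul_le_mul_of_nonneg_left _ (by positivity)
                    exact le_mul_of_one_le_left (by positivity) hx1
            have h4 : x ≤ x * y := le_mul_of_one_le_right (by positivity) hy1
            rw [hx] at h4 ⊢
            linarith
          linarith
        have hvi : (v : ℝ) ≤ i := by exact_mod_cast (show v ≤ i by omega)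
        have h1 : (T : ℝ) + 1 ≤ (4 * B + 4 * s + 10) * (x * y) := by
          have h2 : 2 ^ q * (2 * (s : ℝ) + v + 2) ≤ (2 * y) * (2 * ((s : ℝ) + 1) * x) := by
            apply mul_le_mul h2q _ (by positivity) (by positivity)
            exact near_aux _ _ _ hsnn hvi hinn
          have h3 : (4 * (B : ℝ) + 4 * s + 10) * (x * y)
              = (4 * B + 6) * (x * y) + (2 * y) * (2 * ((s : ℝ) + 1) * x) := by ring
          rw [h3]
          linarith
        have h2 : 8 * ((T : ℝ) + 1) * G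
            ≤ 8 * ((4 * B + 4 * s + 10) * (x * y)) * ((2 ^ B + 1) * (x * y)) := by
          apply mul_le_mul (by linarith) hGle hGnn (by positivity)
        have h3 : 8 * ((4 * (B : ℝ) + 4 * s + 10) * (x * y)) * ((2 ^ B + 1) * (x * y))
            = C / 3 * (x * x * (y * y)) := by
          rw [hC]; ring
        have h4 : x * x * (y * y) ≤ x * x * x * (y * y) := by
          have h5 : x * x * x * (y * y) = (x * x * (y * y)) * x := by ring
          rw [h5]
          exact le_mul_of_one_le_right (by positivity) hx1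
        have h5 : C / 3 * (x * x * (y * y)) ≤ 2 ^ i := by
          have h6 : C / 3 * (x * x * (y * y)) ≤ C * (x * x * x * (y * y)) := by
            have hCpos : 0 ≤ C := by positivity
            apply mul_le_mul (by linarith) h4 (by positivity) hCpos
          linarith
        have h6 : (2 : ℝ) ^ i ≤ (200 * ((s : ℝ) + 1) + 2) * 2 ^ i := by
          have h7 : (1 : ℝ) ≤ 200 * ((s : ℝ) + 1) + 2 := by linarith
          exact le_mul_of_one_le_left h2i.le h7
        linarith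
    have h1 : (1 / (m : ℝ) * G) * (2 ^ i * 2 ^ r') ≤ η * (2 ^ i * 2 ^ r') := by
      calc (1 / (m : ℝ) * G) * (2 ^ i * 2 ^ r') = (1 / (m : ℝ) * (2 ^ i * 2 ^ r')) * G := by ring
        _ ≤ (8 * ((T : ℝ) + 1)) * G := by gcongr
        _ ≤ _ := hgoal
    exact le_of_mul_le_mul_right h1 (by positivity)

end Har
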