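import Mathlib
import Pool.Agent.Lib_helper62.Har.Relation
import Pool.Agent.Lib_helper62.Har.CaseR1b

/-!
The logarithmic lower bound for the energy of `(N, N^κ]`.
-/

set_option autoImplicit false

namespace Har

open Polynomial

theorem numeric_small (α δ A : ℝ) (hα : 1 < α) (hδ0 : 0 < δ) (hδ : δ ≤ 1 / (64 * α ^ 6)) :
    ∃ m₀ : ℕ, ∀ m, m₀ ≤ m →
      8 * A ^ 4 * (1 + α) ^ 2 * (2 + α) ^ 2 * ((m : ℝ) + 2) ^ 3 * (4 * α ^ 6) ^ (m + 2) * δ ^ m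
        < 1 := by
  set C₂ : ℝ := 8 * A ^ 4 * (1 + α) ^ 2 * (2 + α) ^ 2 * (4 * α ^ 6) ^ 2 with hC₂
  have hα6 : 0 < α ^ 6 := by positivity
  have h1 : Filter.Tendsto (fun m : ℕ => C₂ * 256 * (((m + 2 : ℕ) : ℝ) ^ 3 / 16 ^ (m + 2)))
      Filter.atTop (nhds (C₂ * 256 * 0)) := by
    apply Filter.Tendsto.const_mul
    exact (tendsto_pow_const_div_const_pow_of_one_lt 3 (by norm_num : (1 : ℝ) < 16)).comp
      (Filter.tendsto_add_atTop_nat 2)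
  rw [mul_zero] at h1
  obtain ⟨m₀, hm₀⟩ := Filter.eventually_atTop.mp (h1.eventually_lt_const zero_lt_one)
  refine ⟨m₀, fun m hm => ?_⟩
  have h2 := hm₀ m hm
  have h3 : 4 * α ^ 6 * δ ≤ 1 / 16 := by
    calc 4 * α ^ 6 * δ ≤ 4 * α ^ 6 * (1 / (64 * α ^ 6)) := by gcongr
      _ = 1 / 16 := by field_simp; norm_num
  have h4 : (4 * α ^ 6) ^ (m + 2) * δ ^ m ≤ (4 * α ^ 6) ^ 2 * (1 / 16) ^ m := by
    calc (4 * α ^ 6) ^ (m + 2) * δ ^ m = (4 * α ^ 6) ^ 2 * (4 * α ^ 6 * δ) ^ m := by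
          rw [pow_add, mul_pow (4 * α ^ 6) δ]; ring
      _ ≤ (4 * α ^ 6) ^ 2 * (1 / 16) ^ m := by gcongr
  calc 8 * A ^ 4 * (1 + α) ^ 2 * (2 + α) ^ 2 * ((m : ℝ) + 2) ^ 3 * (4 * α ^ 6) ^ (m + 2) * δ ^ m
      = 8 * A ^ 4 * (1 + α) ^ 2 * (2 + α) ^ 2 * ((m : ℝ) + 2) ^ 3
        * ((4 * α ^ 6) ^ (m + 2) * δ ^ m) := by ring
    _ ≤ 8 * A ^ 4 * (1 + α) ^ 2 * (2 + α) ^ 2 * ((m : ℝ) + 2) ^ 3
        * ((4 * α ^ 6) ^ 2 * (1 / 16) ^ m) := by gcongr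
    _ = C₂ * 256 * (((m + 2 : ℕ) : ℝ) ^ 3 / 16 ^ (m + 2)) := by
        rw [hC₂, pow_add (16 : ℝ) m 2, one_div, inv_pow]
        push_cast
        field_simp
        ring
    _ < 1 := h2

theorem final_core (α ξ : ℝ) (hα : 1 < α) (halg : ¬ IsAlgebraic ℚ α) (hξ : ξ ≠ 0) (a : ℕ → ℤ)
    (ha : ∀ n, |(a n : ℝ) - ξ * α ^ n| ≤ 1 / 2) (ρ : ℝ) (n₀ : ℕ)
    (hρ : ∀ n, n₀ ≤ n → |(a n : ℝ) - ξ * α ^ n| ≤ ρ) (hρα : (1 + α) ^ 2 * ρ < α)
    (κ : ℝ) (hκ : 2 < κ) :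
    ∃ c : ℝ, 0 < c ∧ ∃ N₀ : ℕ, ∀ N, N₀ ≤ N → c * Real.log N ≤
      ∑ n ∈ Finset.Ioc N ⌊(N : ℝ) ^ κ⌋₊, ((a n : ℝ) - ξ * α ^ n) ^ 2 := by
  by_contra hcon
  push Not at hcon
  obtain ⟨θ₀, hθ0, hθ3, hbad⟩ := no_bad α hα halg
  have hint : ¬ IsIntegral ℤ α := fun h => halg (h.tower_top).isAlgebraic
  set μ : ℝ := α - (1 + α) ^ 2 * ρ with hμdef
  have hμ : 0 < μ := by rw [hμdef]; linarith
  set Λ : ℝ := 3 * (1 + α ^ 2) with hΛdef
  have hΛ : 0 < Λ := by positivity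
  set η : ℝ := min (θ₀ ^ 2) (μ ^ 2 / 2) / Λ with hηdef
  have hmin : 0 < min (θ₀ ^ 2) (μ ^ 2 / 2) := lt_min (by positivity) (by positivity)
  have hη : 0 < η := div_pos hmin hΛ
  have hη1 : ∀ x, x ≤ η → Λ * x ≤ θ₀ ^ 2 ∧ Λ * x ≤ μ ^ 2 / 2 := by
    intro x hx
    have h1 : Λ * x ≤ min (θ₀ ^ 2) (μ ^ 2 / 2) := by
      calc Λ * x ≤ Λ * η := mul_le_mul_of_nonneg_left hx hΛ.le
        _ = _ := by rw [hηdef]; field_simp
    exact ⟨h1.trans (min_le_left _ _), h1.trans (min_le_right _ _)⟩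
  obtain ⟨t, ht⟩ : ∃ t : ℕ, 2 ≤ (κ - 2) * t := by
    obtain ⟨t, ht⟩ := exists_nat_ge (2 / (κ - 2))
    refine ⟨t, ?_⟩
    rw [div_le_iff₀ (by linarith)] at ht
    linarith
  obtain ⟨r₀, hr₀⟩ := relation α ξ hα a ha t η hη
  set r' := max r₀ 2 with hr'
  have hr2 : 2 ≤ r' := le_max_right _ _
  obtain ⟨i₁, hi₁⟩ := hr₀ r' (le_max_left _ _)
  set δ : ℝ := min ((1 / 2) ^ (2 ^ (r' + 3))) (1 / (64 * α ^ 6)) with hδdef
  have hδ0 : 0 < δ := lt_min (by positivity) (by positivity)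
  have hδa : δ ≤ (1 / 2) ^ (2 ^ (r' + 3)) := min_le_left _ _
  have hδb : δ ≤ 1 / (64 * α ^ 6) := min_le_right _ _
  have hδ1 : δ ≤ 1 := hδa.trans (pow_le_one₀ (by norm_num) (by norm_num))
  obtain ⟨i₂, hi₂⟩ := window α ξ hα a ha t r' hr2 δ hδ0 hδa
  obtain ⟨m₀, hm₀⟩ := numeric_small α δ (|ξ| + 1) hα hδ0 hδb
  set D₀ := 2 * (m₀ + 2) + 2 * n₀ + 4 with hD₀
  obtain ⟨R₀, hR₀⟩ := degree_large α ξ hα hξ hint a ha D₀
  have hξpos : 0 < |ξ| := abs_pos.mpr hξ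
  obtain ⟨i₃, hi₃⟩ : ∃ i₃ : ℕ, ∀ n : ℕ, i₃ ≤ n → (n : ℝ) ≤ |ξ| * α ^ n := by
    have h1 := tendsto_pow_const_div_const_pow_of_one_lt 1 hα
    obtain ⟨i₃, hi₃⟩ := Filter.eventually_atTop.mp (h1.eventually_lt_const hξpos)
    refine ⟨i₃, fun n hn => ?_⟩
    have h2 := hi₃ n hn
    rw [pow_one, div_lt_iff₀ (by positivity)] at h2
    exact h2.le
  obtain ⟨i, p, hi, hp1, hpi, hgood⟩ := good_scale α ξ hα a κ hκ t ht hcon (r' + 1) (by omega)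
    δ hδ0 (i₁ + i₂ + i₃ + R₀ + r' + 2)
  have hg : Good α a t i p (r' + 1) δ := ⟨hp1, hpi, hgood⟩
  have hple := hg.p_le
  obtain ⟨P, j, hPm, hP0, hjd, hPa, hy, hdet⟩ := hi₂ i p (by omega) hg
  have hi2i : i < 2 ^ i := Nat.lt_two_pow_self
  have hpow1 : 2 ^ i ≤ 2 ^ (i + r') := Nat.pow_le_pow_right (by norm_num) (by omega)
  have hpow2 : 2 ^ (i - r') ≤ 2 ^ i := Nat.pow_le_pow_right (by norm_num) (by omega)
  have hpow3 : 4 * 2 ^ i ≤ 2 ^ (i + r') := by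
    calc 4 * 2 ^ i = 2 ^ (i + 2) := by rw [pow_add]; ring
      _ ≤ 2 ^ (i + r') := Nat.pow_le_pow_right (by norm_num) (by omega)
  have hpow4 : 2 ^ (i + (r' + 1)) = 2 * 2 ^ (i + r') := by
    rw [← add_assoc, pow_succ]; ring
  have hpow5 : 2 * 2 ^ (i + r' - 1) = 2 ^ (i + r') := by
    rw [← pow_succ']; congr 1; omega
  have hD : D₀ < j + P.natDegree := hR₀ P j (2 ^ (i + r')) (by omega) hPm hPa hdet
  have hP1 : 0 < P.natDegree := by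
    by_contra hzero
    have hPd0 : P.natDegree = 0 := by omega
    have hPone : P = 1 := hPm.natDegree_eq_zero.mp hPd0
    have h1 := hPa (j + 2 ^ (i + r') - 1) (by omega) (by omega)
    rw [hPone, act_one] at h1
    have h2 := ha (j + 2 ^ (i + r') - 1)
    rw [h1, Int.cast_zero, zero_sub, abs_neg, abs_mul,
      abs_of_pos (by positivity : (0 : ℝ) < α ^ (j + 2 ^ (i + r') - 1))] at h2
    have h3 := hi₃ (j + 2 ^ (i + r') - 1) (by omega)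
    have h4 : (1 : ℝ) ≤ ((j + 2 ^ (i + r') - 1 : ℕ) : ℝ) := by
      exact_mod_cast (by omega : 1 ≤ j + 2 ^ (i + r') - 1)
    linarith
  obtain ⟨k, σ, τ, κ', hk, hdvd, hσ, hκη, hκG⟩ :=
    hi₁ i p δ hδ1 (by omega) hg P j hPm hP1 hjd hPa hdet
  have hκθ := hη1 κ' hκη
  have hsumθ : 3 * (1 + α ^ 2) * (∑ i ∈ Finset.range k, σ i ^ 2 + τ ^ 2) ≤ θ₀ ^ 2 :=
    (mul_le_mul_of_nonneg_left hσ hΛ.le).trans hκθ.1
  have hθ1 : θ₀ ^ 2 ≤ 1 := by nlinarith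
  by_cases hrec : P = P.reverse ∨ P = -P.reverse
  · obtain ⟨ε, hε⟩ : ∃ ε : ℝ, (ε = 1 ∧ P = P.reverse) ∨ (ε = -1 ∧ P = -P.reverse) := by
      rcases hrec with h | h
      · exact ⟨1, Or.inl ⟨rfl, h⟩⟩
      · exact ⟨-1, Or.inr ⟨rfl, h⟩⟩
    rcases lt_or_ge P.natDegree j with hc | hc
    · -- R2
      have hj1 : 1 ≤ j := by omega
      have h1 := r2_bound α ξ hα a ρ j (2 ^ (i + r')) k (2 ^ (i + (r' + 1))) hj1
        (fun n hn => hρ n (by omega)) P hPm ε hε hPa (hy hj1) σ τ κ' (by omega) (by omega)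
        hdvd hσ
      have h2 := (hη1 _ (hκG hc)).2
      have h3 : Real.sqrt (3 * (1 + α ^ 2) * κ' * GG α a (j - 1) (2 ^ (i + (r' + 1)))) < μ := by
        rw [Real.sqrt_lt' hμ]
        have h4 : 3 * (1 + α ^ 2) * κ' * GG α a (j - 1) (2 ^ (i + (r' + 1)))
            = Λ * (κ' * GG α a (j - 1) (2 ^ (i + (r' + 1)))) := by rw [hΛdef]; ring
        rw [h4]
        have h5 : 0 < μ ^ 2 := by positivity
        linarith
      rw [hμdef] at h3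
      linarith
    · -- R1
      obtain ⟨m, hm⟩ : ∃ m, P.natDegree = m + 2 := ⟨P.natDegree - 2, by omega⟩
      have hm0 : m₀ ≤ m := by omega
      have hS := coeff_sum_le α (by linarith) P hPm k σ τ hdvd (hsumθ.trans hθ1)
      have hGG : ∀ j', j' ≤ m → GG α a (2 ^ i + j') (2 ^ i + j' + m + 2) ≤ δ := by
        intro j' hj'
        have h1 : GG α a (2 ^ i + j') (2 ^ i + j' + m + 2)
            ≤ GG α a (2 ^ i + j') (2 ^ (i + (r' + 1))) := GG_mono α a le_rfl (by omega)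
        have h2 : 2 ^ p ≤ 2 ^ i := Nat.pow_le_pow_right (by norm_num) hple
        have h3 := hgood (2 ^ i + j') (by omega)
        have h4 : i ≤ Nat.log 2 (2 ^ i + j') := Nat.le_log_of_pow_le (by norm_num) (by omega)
        rw [Nat.sub_eq_zero_of_le h4, Nat.cast_zero, zero_add, mul_one] at h3
        exact h1.trans h3
      have hbound := r1_bound α ξ hα a ha P hPm ε hε m hm j (2 ^ (i + r')) (2 ^ i) (by omega)
        (by omega) hpow3 (by omega) (by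
          have := hi₃ (2 ^ i) (by omega)
          exact this) hPa δ hδ0.le hδ1 hGG (by rw [← hm]; exact hS)
      have hlt := lt_of_le_of_lt hbound (hm₀ m hm0)
      -- the determinant is a nonzero integer
      have hdetn : (hank a (2 ^ i) (m + 2)).det ≠ 0 := by
        have h1 := hank_ne_zero_of_le (P.map (Int.castRingHom ℚ)) (by
          rw [coeff_map]
          simpa using hP0) (fun k => (a k : ℚ)) j (2 ^ i - j) (2 ^ (i + r')) (by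
          rw [hPm.natDegree_map, hank_det_castQ]
          exact_mod_cast hdet) (fun n h1 h2 => by
          rw [act_cast P hPm, hPa n h1 h2, Int.cast_zero]) (by
          rw [hPm.natDegree_map]; omega)
        rw [hPm.natDegree_map, hank_det_castQ, show j + (2 ^ i - j) = 2 ^ i by omega, hm] at h1
        exact_mod_cast h1
      rw [hank_det_cast] at hlt
      exact hdetn (int_eq_zero_of_sq_lt _ hlt)
  · push Not at hrec
    obtain ⟨φ, hφ⟩ := nr_bad α θ₀ hα hθ0.le P hPm hP0 hrec.1 hrec.2 k σ τ hdvd hsumθ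
      (by nlinarith)
    exact hbad φ hφ

end Har
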